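import Pool.Agent.Lib.MP_dd84fd_nt.E2.Defs
import Pool.Agent.Lib.MP_dd84fd_nt.En.Vz

/-!
# size of the model (module EB-FB)
-/

set_option autoImplicit false

namespace Pool.MP_dd84fd_nt.E2

open Finset Pool.MP_67663b_nt.Odd Pool.MP_dd84fd_nt.En

private lemma FB_primorial_succ (w : ℕ) :
    primorial (w + 1) = if (w + 1).Prime then (w + 1) * primorial w else primorial w := by
  unfold primorial
  rw [Finset.range_add_one, Finset.filter_insert]
  split_ifs with h
  · rw [Finset.prod_insert (by simp)]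
  · rfl

private lemma FB_coprime_primorial (w : ℕ) (h : (w + 1).Prime) :
    (w + 1).Coprime (primorial w) := by
  rw [Nat.Prime.coprime_iff_not_dvd h]
  intro hd
  unfold primorial at hd
  rw [h.prime.dvd_finsetProd_iff] at hd
  obtain ⟨q, hq, hd⟩ := hd
  rw [mem_filter, mem_range] at hq
  have := (Nat.prime_dvd_prime_iff_eq h hq.2).1 hd
  omega

private lemma FB_primorial_zero : primorial 0 = 1 := by
  unfold primorial
  rw [show (range (0 + 1)).filter Nat.Prime = ∅ by decide]
  rfl

private lemma FB_totient (w : ℕ) :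
    ((primorial w).totient : ℝ) = ∏ p ∈ (range (w + 1)).filter Nat.Prime, ((p : ℝ) - 1) := by
  induction w with
  | zero =>
    rw [FB_primorial_zero]
    rw [show (range (0 + 1)).filter Nat.Prime = ∅ by decide]
    simp
  | succ w ih =>
    rw [FB_primorial_succ, Finset.range_add_one (n := w + 1), Finset.filter_insert]
    split_ifs with h
    · rw [Finset.prod_insert (by simp), ← ih, Nat.totient_mul (FB_coprime_primorial w h),
        Nat.totient_prime h]
      push_cast
      simp
    · exact ih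

private lemma FB_ratio (w : ℕ) :
    (primorial w : ℝ) / (Nat.totient (primorial w) : ℝ) = 1 / V ((w : ℝ) + 1) := by
  have hpr : pr 0 ((w : ℝ) + 1) = (range (w + 1)).filter Nat.Prime := by
    ext p
    rw [mem_pr, mem_filter, mem_range]
    constructor
    · rintro ⟨h1, _, h3⟩
      exact ⟨by exact_mod_cast h3, h1⟩
    · rintro ⟨h1, h2⟩
      exact ⟨h2, Nat.cast_nonneg p, by exact_mod_cast h1⟩
  have h1 : (primorial w : ℝ) = ∏ p ∈ (range (w + 1)).filter Nat.Prime, (p : ℝ) := by
    unfold primorial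
    push_cast
    rfl
  unfold V
  rw [hpr, FB_totient, h1, ← Finset.prod_div_distrib, one_div, ← Finset.prod_inv_distrib]
  refine Finset.prod_congr rfl fun p hp => ?_
  have h2 : (2 : ℝ) ≤ p := by exact_mod_cast (mem_filter.1 hp).2.two_le
  have h3 : (p : ℝ) - 1 ≠ 0 := by linarith
  have h4 : (p : ℝ) ≠ 0 := by linarith
  have h5 : 1 - 1 / (p : ℝ) = ((p : ℝ) - 1) / p := by field_simp
  rw [h5, inv_div]

theorem primorial_ratio : ∃ C : ℝ, 0 < C ∧ ∀ w : ℕ, 1 ≤ w →
    (primorial w : ℝ) / (Nat.totient (primorial w) : ℝ) ≤ C * Real.log (w + 1) := by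
  obtain ⟨C, hC, h⟩ := V_inv_le
  refine ⟨C, hC, fun w hw => ?_⟩
  rw [FB_ratio]
  have hw' : (1 : ℝ) ≤ w := by exact_mod_cast hw
  exact h _ (by linarith)

theorem f1_nonneg (w n : ℕ) : 0 ≤ f1 w n := by
  unfold f1
  split_ifs
  · positivity
  · exact le_rfl

theorem f1_le (D : ℕ) : ∃ X0 : ℕ, ∀ X : ℕ, X0 ≤ X → ∀ w : ℕ, (w : ℝ) ≤ (Real.log X) ^ D →
    (primorial w : ℝ) / (Nat.totient (primorial w) : ℝ) ≤ Real.log X ∧
    ∀ n : ℕ, f1 w n ≤ Real.log X := by
  obtain ⟨C, hC, h⟩ := primorial_ratio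
  have hlit : (fun L : ℝ => C * (Real.log 2 + D * Real.log L)) =o[Filter.atTop] (id : ℝ → ℝ) := by
    refine Asymptotics.IsLittleO.const_mul_left ?_ C
    refine Asymptotics.IsLittleO.add ?_ ?_
    · exact Asymptotics.isLittleO_const_id_atTop (Real.log 2)
    · exact Asymptotics.IsLittleO.const_mul_left Real.isLittleO_log_id_atTop (D : ℝ)
  have hev : ∀ᶠ L : ℝ in Filter.atTop, 1 ≤ L ∧ C * (Real.log 2 + D * Real.log L) ≤ L := by
    have h1 := hlit.bound (one_pos)
    filter_upwards [h1, Filter.eventually_ge_atTop (1 : ℝ)] with L hL hL1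
    refine ⟨hL1, ?_⟩
    rw [Real.norm_eq_abs, one_mul, id, Real.norm_of_nonneg (by linarith)] at hL
    exact (le_abs_self _).trans hL
  have hev2 : ∀ᶠ X : ℕ in Filter.atTop, 1 ≤ Real.log X ∧
      C * (Real.log 2 + D * Real.log (Real.log X)) ≤ Real.log X :=
    (Real.tendsto_log_atTop.comp tendsto_natCast_atTop_atTop).eventually hev
  obtain ⟨X0, hX0⟩ := Filter.eventually_atTop.1 hev2
  refine ⟨X0, fun X hX w hw => ?_⟩
  obtain ⟨hL1, hL2⟩ := hX0 X hX
  have hmain : (primorial w : ℝ) / (Nat.totient (primorial w) : ℝ) ≤ Real.log X := by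
    rcases Nat.eq_zero_or_pos w with h0 | h0
    · rw [h0, FB_primorial_zero]
      simpa using hL1
    · refine (h w h0).trans (le_trans ?_ hL2)
      refine mul_le_mul_of_nonneg_left ?_ hC.le
      have hpos : (0 : ℝ) < Real.log X := by linarith
      have h1 : (w : ℝ) + 1 ≤ 2 * (Real.log X) ^ D := by
        have : (1 : ℝ) ≤ (Real.log X) ^ D := one_le_pow₀ hL1
        linarith
      have h2 : Real.log (w + 1) ≤ Real.log (2 * (Real.log X) ^ D) :=
        Real.log_le_log (by positivity) h1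
      rw [Real.log_mul (by norm_num) (by positivity), Real.log_pow] at h2
      exact h2
  refine ⟨hmain, fun n => ?_⟩
  unfold f1
  split_ifs
  · exact hmain
  · linarith

end Pool.MP_dd84fd_nt.E2
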