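import Pool.Agent.Lib.MP_dd84fd_nt.E2.Defs
import Pool.Agent.Lib.MP_dd84fd_nt.En.VinB

/-!
# minor arc bound for the primes (module EB-MP)
-/

set_option autoImplicit false

namespace Pool.MP_dd84fd_nt.E2

open Finset Pool.MP_67663b_nt.Odd Pool.MP_dd84fd_nt.En

/-- powers of the logarithm are small -/
theorem MP_log_pow (C : ℝ) (K : ℕ) {ε : ℝ} (hε : 0 < ε) : ∃ X0 : ℕ, ∀ X : ℕ, X0 ≤ X →
    C * (Real.log X) ^ K ≤ (X : ℝ) ^ ε := by
  have h1 := (isLittleO_log_rpow_rpow_atTop (K : ℝ) hε).bound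
    (show (0 : ℝ) < 1 / (|C| + 1) by positivity)
  have h2 := tendsto_natCast_atTop_atTop (R := ℝ) |>.eventually h1
  obtain ⟨X0, hX0⟩ := Filter.eventually_atTop.mp h2
  refine ⟨max X0 1, fun X hX => ?_⟩
  have hX1 : (1 : ℝ) ≤ X := by exact_mod_cast (le_max_right X0 1).trans hX
  have h3 := hX0 X ((le_max_left _ _).trans hX)
  have hlog : 0 ≤ Real.log X := Real.log_nonneg hX1
  rw [Real.rpow_natCast, Real.norm_of_nonneg (pow_nonneg hlog K),
    Real.norm_of_nonneg (Real.rpow_nonneg (by linarith) ε), one_div_mul_eq_div,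
    le_div_iff₀ (by positivity)] at h3
  have h4 : C * Real.log X ^ K ≤ Real.log X ^ K * (|C| + 1) := by
    have h5 : 0 ≤ Real.log X ^ K := pow_nonneg hlog K
    have h6 := le_abs_self C
    nlinarith
  linarith

/-- the logarithm is large -/
theorem MP_log_large (C : ℝ) : ∃ X0 : ℕ, ∀ X : ℕ, X0 ≤ X → C ≤ Real.log X := by
  have h1 : Filter.Tendsto (fun X : ℕ => Real.log (X : ℝ)) Filter.atTop Filter.atTop :=
    Real.tendsto_log_atTop.comp tendsto_natCast_atTop_atTop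
  exact Filter.eventually_atTop.mp (h1.eventually_ge_atTop C)

/-- Abel summation with an antitone weight -/
theorem MP_abel0 (a : ℕ → ℂ) (b : ℕ → ℝ) (hb : Antitone b) (hb0 : ∀ n, 0 ≤ b n) (M : ℝ) (X : ℕ)
    (hM : ∀ t ≤ X, ‖∑ n ∈ Icc 1 t, a n‖ ≤ M) :
    ‖∑ n ∈ Icc 1 X, (b n : ℂ) * a n‖ ≤ b 0 * M := by
  have hM0 : 0 ≤ M := (norm_nonneg _).trans (hM 0 (Nat.zero_le X))
  have hid : ∀ X : ℕ, ∑ n ∈ Icc 1 X, (b n : ℂ) * a n =
      (b X : ℂ) * ∑ n ∈ Icc 1 X, a n +
      ∑ t ∈ range X, ((b t - b (t + 1) : ℝ) : ℂ) * ∑ n ∈ Icc 1 t, a n := by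
    intro X
    induction X with
    | zero => simp
    | succ X ih =>
      rw [Finset.sum_Icc_succ_top (by omega), ih, Finset.sum_range_succ,
        Finset.sum_Icc_succ_top (by omega)]
      push_cast
      ring
  rw [hid]
  refine (norm_add_le _ _).trans ?_
  have h1 : ‖(b X : ℂ) * ∑ n ∈ Icc 1 X, a n‖ ≤ b X * M := by
    rw [norm_mul, Complex.norm_real, Real.norm_of_nonneg (hb0 X)]
    exact mul_le_mul_of_nonneg_left (hM X le_rfl) (hb0 X)
  have h2 : ‖∑ t ∈ range X, ((b t - b (t + 1) : ℝ) : ℂ) * ∑ n ∈ Icc 1 t, a n‖ ≤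
      (b 0 - b X) * M := by
    refine (norm_sum_le _ _).trans ?_
    calc ∑ t ∈ range X, ‖((b t - b (t + 1) : ℝ) : ℂ) * ∑ n ∈ Icc 1 t, a n‖
        ≤ ∑ t ∈ range X, (b t - b (t + 1)) * M := by
          refine sum_le_sum fun t ht => ?_
          have h3 : 0 ≤ b t - b (t + 1) := sub_nonneg.mpr (hb (Nat.le_succ t))
          rw [norm_mul, Complex.norm_real, Real.norm_of_nonneg h3]
          exact mul_le_mul_of_nonneg_left (hM t (by rw [mem_range] at ht; omega)) h3
      _ = (b 0 - b X) * M := by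
          rw [← Finset.sum_mul, Finset.sum_range_sub']
  linarith

/-- Abel summation with the weight `1 / log n` -/
theorem MP_abel (a : ℕ → ℂ) (M : ℝ) (X : ℕ) (hM : ∀ t ≤ X, ‖∑ n ∈ Icc 1 t, a n‖ ≤ M) :
    ‖∑ n ∈ Icc 1 X, ((1 / Real.log (n : ℝ) : ℝ) : ℂ) * a n‖ ≤ 3 * M := by
  have hM0 : 0 ≤ M := (norm_nonneg _).trans (hM 0 (Nat.zero_le X))
  set b : ℕ → ℝ := fun n => 1 / Real.log (max (n : ℝ) 2) with hb
  have hl2 : (0.69 : ℝ) < Real.log 2 := by
    have := Real.log_two_gt_d9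
    linarith
  have hpos : ∀ n : ℕ, 0 < Real.log (max (n : ℝ) 2) := fun n =>
    Real.log_pos (lt_of_lt_of_le one_lt_two (le_max_right _ _))
  have hbanti : Antitone b := by
    intro m n hmn
    apply one_div_le_one_div_of_le (hpos m)
    apply Real.log_le_log (by positivity)
    exact max_le_max_right 2 (by exact_mod_cast hmn)
  have hb0 : ∀ n, 0 ≤ b n := fun n => (one_div_pos.mpr (hpos n)).le
  have h1 := MP_abel0 a b hbanti hb0 M X hM
  have hb00 : b 0 = 1 / Real.log 2 := by simp [hb]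
  have hb1 : b 1 = 1 / Real.log 2 := by simp [hb]
  have hinv : 1 / Real.log 2 ≤ 1.5 := by
    rw [div_le_iff₀ (by linarith)]
    linarith
  rcases Nat.eq_zero_or_pos X with rfl | hX
  · simp only [Finset.Icc_eq_empty_of_lt Nat.zero_lt_one, Finset.sum_empty, norm_zero]
    linarith
  have h2 : ∑ n ∈ Icc 1 X, ((1 / Real.log (n : ℝ) : ℝ) : ℂ) * a n =
      ∑ n ∈ Icc 1 X, (b n : ℂ) * a n - (b 1 : ℂ) * a 1 := by
    have h3 : Icc 1 X = insert 1 (Icc 2 X) := by
      ext n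
      simp only [mem_insert, mem_Icc]
      omega
    have h4 : (1 : ℕ) ∉ Icc 2 X := by simp
    rw [h3, sum_insert h4, sum_insert h4]
    have h5 : ∑ n ∈ Icc 2 X, ((1 / Real.log (n : ℝ) : ℝ) : ℂ) * a n =
        ∑ n ∈ Icc 2 X, (b n : ℂ) * a n := by
      refine sum_congr rfl fun n hn => ?_
      have hn2 : (2 : ℝ) ≤ n := by exact_mod_cast (mem_Icc.mp hn).1
      simp only [hb, max_eq_left hn2]
    rw [h5]
    simp
  rw [h2]
  refine (norm_sub_le _ _).trans ?_
  have h3 : ‖(b 1 : ℂ) * a 1‖ ≤ 1 / Real.log 2 * M := by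
    rw [norm_mul, Complex.norm_real, Real.norm_of_nonneg (hb0 1), ← hb1]
    apply mul_le_mul_of_nonneg_left _ (hb0 1)
    have := hM 1 hX
    simpa using this
  rw [hb00] at h1
  nlinarith

/-- rational approximation of a point without approximation of small height -/
theorem MP_dirichlet {X D1 : ℕ} {L : ℝ} (hL : 2 ≤ L) (hX : L ^ D1 ≤ X) (θ : ℝ)
    (h : ¬ Ht (L ^ (D1 + 1)) X θ) : ∃ (q : ℕ) (a : ℤ), 0 < q ∧ Int.gcd a q = 1 ∧ L ^ D1 ≤ q ∧
      (q : ℝ) ≤ X / L ^ D1 ∧ |θ - (a : ℝ) / q| ≤ 1 / (q : ℝ) ^ 2 := by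
  have hLp : 0 < L ^ D1 := pow_pos (by linarith) D1
  have hQ1 : 1 ≤ (X : ℝ) / L ^ D1 := by rwa [le_div_iff₀ hLp, one_mul]
  set n : ℕ := ⌊(X : ℝ) / L ^ D1⌋₊ with hn
  have hn0 : 0 < n := Nat.floor_pos.mpr hQ1
  have hnle : (n : ℝ) ≤ X / L ^ D1 := Nat.floor_le (by linarith)
  have hnlt : (X : ℝ) / L ^ D1 < n + 1 := Nat.lt_floor_add_one _
  obtain ⟨r, hr1, hr2⟩ := Real.exists_rat_abs_sub_le_and_den_le θ hn0
  have hq : 0 < r.den := r.den_pos
  have hqR : (0 : ℝ) < r.den := by exact_mod_cast hq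
  have hqn : (r.den : ℝ) ≤ n := by exact_mod_cast hr2
  have hr : (r : ℝ) = (r.num : ℝ) / (r.den : ℝ) := by
    exact_mod_cast (Rat.num_div_den r).symm
  rw [hr] at hr1
  have happ : |θ - (r.num : ℝ) / (r.den : ℝ)| ≤ 1 / (r.den : ℝ) ^ 2 := by
    refine hr1.trans ?_
    apply one_div_le_one_div_of_le (by positivity)
    rw [pow_two]
    apply mul_le_mul_of_nonneg_right _ hqR.le
    linarith
  refine ⟨r.den, r.num, hq, ?_, ?_, hqn.trans hnle, happ⟩
  · have := r.reduced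
    rw [Int.gcd, Int.natAbs_natCast]
    exact this
  · by_contra hcon
    push Not at hcon
    apply h
    refine ⟨r.den, r.num, hq, ?_, ?_⟩
    · have := r.reduced
      rw [Int.gcd, Int.natAbs_natCast]
      exact this
    · have hX0 : (0 : ℝ) ≤ X := Nat.cast_nonneg X
      have h1 : (r.den : ℝ) * (X * |θ - (r.num : ℝ) / (r.den : ℝ)|) ≤ L ^ D1 := by
        calc (r.den : ℝ) * (X * |θ - (r.num : ℝ) / (r.den : ℝ)|)
            ≤ (r.den : ℝ) * (X * (1 / (((n : ℝ) + 1) * r.den))) := by gcongr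
          _ = X / ((n : ℝ) + 1) := by field_simp
          _ ≤ L ^ D1 := by
              rw [div_le_iff₀ (by positivity)]
              rw [div_lt_iff₀ hLp] at hnlt
              linarith
      calc (r.den : ℝ) * (1 + X * |θ - (r.num : ℝ) / (r.den : ℝ)|)
          = r.den + (r.den : ℝ) * (X * |θ - (r.num : ℝ) / (r.den : ℝ)|) := by ring
        _ ≤ L ^ D1 + L ^ D1 := add_le_add hcon.le h1
        _ = L ^ D1 * 2 := by ring
        _ ≤ L ^ D1 * L := mul_le_mul_of_nonneg_left hL hLp.le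
        _ = L ^ (D1 + 1) := (pow_succ L D1).symm

private lemma MP_PS (t : ℕ) (θ : ℝ) : PS 0 ((t : ℝ) + 1) θ =
    ∑ n ∈ Icc 1 t, (if n.Prime then (Real.log n : ℂ) * ee ((n : ℝ) * θ) else 0) := by
  unfold PS
  rw [← Finset.sum_filter]
  refine sum_congr ?_ fun _ _ => rfl
  ext p
  rw [mem_pr, mem_filter, mem_Icc]
  constructor
  · rintro ⟨h1, _, h3⟩
    have : p < t + 1 := by exact_mod_cast h3
    exact ⟨⟨h1.one_le, by omega⟩, h1⟩
  · rintro ⟨⟨_, h2⟩, h3⟩
    refine ⟨h3, Nat.cast_nonneg p, ?_⟩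
    exact_mod_cast (by omega : p < t + 1)

private lemma MP_trivial (t : ℕ) (θ : ℝ) : ‖PS 0 ((t : ℝ) + 1) θ‖ ≤ t * Real.log t := by
  rw [MP_PS]
  calc ‖∑ n ∈ Icc 1 t, (if n.Prime then (Real.log n : ℂ) * ee ((n : ℝ) * θ) else 0)‖
      ≤ ∑ n ∈ Icc 1 t, ‖(if n.Prime then (Real.log n : ℂ) * ee ((n : ℝ) * θ) else 0)‖ :=
        norm_sum_le _ _
    _ ≤ ∑ _n ∈ Icc 1 t, Real.log t := by
        refine sum_le_sum fun n hn => ?_
        have hn' := mem_Icc.mp hn
        have h1 : (1 : ℝ) ≤ n := by exact_mod_cast hn'.1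
        have h2 : (n : ℝ) ≤ t := by exact_mod_cast hn'.2
        split_ifs
        · rw [norm_mul, norm_ee, mul_one, Complex.norm_real,
            Real.norm_of_nonneg (Real.log_nonneg h1)]
          exact Real.log_le_log (by linarith) h2
        · rw [norm_zero]
          exact Real.log_nonneg (h1.trans h2)
    _ = t * Real.log t := by simp

theorem minor_P (A : ℕ) : ∃ D : ℕ, ∃ X0 : ℕ, ∀ X : ℕ, X0 ≤ X → ∀ θ : ℝ,
    ¬ Ht ((Real.log X) ^ D) X θ → ‖P1 X θ‖ ≤ X / (Real.log X) ^ A := by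
  obtain ⟨B, hB, X1, hX1⟩ := vin_large ((A + 2 : ℕ) : ℝ)
  set D1 : ℕ := ⌈B⌉₊ + (A + 2) with hD1
  obtain ⟨X2, hX2⟩ := MP_log_large (max (3 : ℝ) (2 ^ (A + 2)))
  obtain ⟨X3, hX3⟩ := MP_log_pow 1 (2 * D1) (ε := 1) one_pos
  obtain ⟨X4, hX4⟩ := MP_log_pow 1 (A + 2) (ε := 1 / 2) (by norm_num)
  refine ⟨D1 + 1, max (max (max X2 X3) X4) (X1 ^ 2 + 1), fun X hX θ hθ => ?_⟩
  have hXX2 : X2 ≤ X := ((le_max_left _ _).trans (le_max_left _ _)).trans ((le_max_left _ _).trans hX)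
  have hXX3 : X3 ≤ X := ((le_max_right _ _).trans (le_max_left _ _)).trans ((le_max_left _ _).trans hX)
  have hXX4 : X4 ≤ X := (le_max_right _ _).trans ((le_max_left _ _).trans hX)
  have hXX1 : X1 ^ 2 + 1 ≤ X := (le_max_right _ _).trans hX
  have hX0 : (0 : ℝ) < X := by exact_mod_cast (by omega : 0 < X)
  set L := Real.log X with hL
  have hL3 : 3 ≤ L := (le_max_left _ _).trans (hX2 X hXX2)
  have hLA : (2 : ℝ) ^ (A + 2) ≤ L := (le_max_right _ _).trans (hX2 X hXX2)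
  have hL0 : 0 < L := by linarith
  have hXL : L ^ (2 * D1) ≤ X := by
    have := hX3 X hXX3
    rwa [one_mul, Real.rpow_one] at this
  have hXs : L ^ (A + 2) ≤ Real.sqrt X := by
    have := hX4 X hXX4
    rwa [one_mul, ← Real.sqrt_eq_rpow] at this
  have hXD1 : L ^ D1 ≤ X := (pow_le_pow_right₀ (by linarith) (by omega)).trans hXL
  obtain ⟨q, a, hq, hgcd, hq1, hq2, happ⟩ := MP_dirichlet (by linarith) hXD1 θ hθ
  have hsq : Real.sqrt X * Real.sqrt X = X := Real.mul_self_sqrt hX0.le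
  have hsq0 : 0 < Real.sqrt X := Real.sqrt_pos.mpr hX0
  -- partial sums
  have hM : ∀ t ≤ X, ‖∑ n ∈ Icc 1 t, (if n.Prime then (Real.log n : ℂ) * ee ((n : ℝ) * θ)
      else 0)‖ ≤ X / L ^ (A + 1) := by
    intro t ht
    have htX : (t : ℝ) ≤ X := by exact_mod_cast ht
    rw [← MP_PS]
    rcases lt_or_ge ((t : ℝ)) (X / L ^ (A + 2)) with hlt | hge
    · refine (MP_trivial t θ).trans ?_
      rcases Nat.eq_zero_or_pos t with rfl | ht0
      · simp only [Nat.cast_zero, zero_mul]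
        positivity
      have ht1 : (1 : ℝ) ≤ t := by exact_mod_cast ht0
      have h1 : Real.log t ≤ L := Real.log_le_log (by linarith) htX
      calc (t : ℝ) * Real.log t ≤ X / L ^ (A + 2) * L :=
            mul_le_mul hlt.le h1 (Real.log_nonneg ht1) (by positivity)
        _ = X / L ^ (A + 1) := by
            rw [pow_succ L (A + 1)]
            field_simp
    · -- `t ≥ √X`
      have hts : Real.sqrt X ≤ t := by
        refine le_trans ?_ hge
        rw [le_div_iff₀ (by positivity)]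
        calc Real.sqrt X * L ^ (A + 2) ≤ Real.sqrt X * Real.sqrt X :=
              mul_le_mul_of_nonneg_left hXs hsq0.le
          _ = X := hsq
      have htX1 : X1 ≤ t := by
        have h1 : (X1 : ℝ) ≤ Real.sqrt X := by
          rw [Real.le_sqrt (Nat.cast_nonneg _) hX0.le]
          exact_mod_cast (by omega : X1 ^ 2 ≤ X)
        exact_mod_cast h1.trans hts
      have ht0 : (0 : ℝ) < t := lt_of_lt_of_le hsq0 hts
      have hlt : L / 2 ≤ Real.log t := by
        have h1 : Real.log (Real.sqrt X) ≤ Real.log t := Real.log_le_log hsq0 hts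
        rwa [Real.log_sqrt hX0.le] at h1
      have hlt2 : Real.log t ≤ L := Real.log_le_log ht0 htX
      have hlt0 : 0 < Real.log t := by linarith
      have hLB : L ^ B ≤ L ^ (⌈B⌉₊) := by
        rw [← Real.rpow_natCast]
        exact Real.rpow_le_rpow_of_exponent_le (by linarith) (Nat.le_ceil B)
      have htB : (Real.log t) ^ B ≤ L ^ (⌈B⌉₊) :=
        (Real.rpow_le_rpow hlt0.le hlt2 hB.le).trans hLB
      have h1 : (Real.log t) ^ B ≤ q := by
        refine htB.trans (le_trans ?_ hq1)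
        exact pow_le_pow_right₀ (by linarith) (by omega)
      have h2 : (q : ℝ) * (Real.log t) ^ B ≤ t := by
        refine le_trans ?_ hge
        calc (q : ℝ) * (Real.log t) ^ B ≤ X / L ^ D1 * L ^ (⌈B⌉₊) :=
              mul_le_mul hq2 htB (Real.rpow_nonneg hlt0.le B) (by positivity)
          _ = X / L ^ (A + 2) := by
              rw [hD1, pow_add]
              field_simp
      have h3 := hX1 t htX1 θ q a hq hgcd h1 h2 happ
      refine h3.trans ?_
      rw [Real.rpow_natCast]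
      have h4 : (L / 2) ^ (A + 2) ≤ Real.log t ^ (A + 2) :=
        pow_le_pow_left₀ (by linarith) hlt (A + 2)
      calc (t : ℝ) / Real.log t ^ (A + 2) ≤ X / (L / 2) ^ (A + 2) := by
            apply div_le_div₀ hX0.le htX (by positivity) h4
        _ = X * 2 ^ (A + 2) / L ^ (A + 2) := by
            rw [div_pow]
            field_simp
        _ ≤ X * L / L ^ (A + 2) := by
            apply div_le_div_of_nonneg_right _ (by positivity)
            exact mul_le_mul_of_nonneg_left hLA hX0.le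
        _ = X / L ^ (A + 1) := by
            rw [pow_succ L (A + 1)]
            field_simp
  have h1 := MP_abel _ _ X hM
  have h2 : P1 X θ = ∑ n ∈ Icc 1 X, ((1 / Real.log (n : ℝ) : ℝ) : ℂ) *
      (if n.Prime then (Real.log n : ℂ) * ee ((n : ℝ) * θ) else 0) := by
    unfold P1
    rw [Finset.sum_filter]
    refine sum_congr rfl fun n _ => ?_
    split_ifs with hp
    · have hne : (Real.log (n : ℝ) : ℂ) ≠ 0 := by
        have : (1 : ℝ) < n := by exact_mod_cast hp.one_lt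
        exact_mod_cast (Real.log_pos this).ne'
      rw [Complex.ofReal_div, Complex.ofReal_one, ← mul_assoc, one_div, inv_mul_cancel₀ hne,
        one_mul]
    · rw [mul_zero]
  rw [h2]
  refine h1.trans ?_
  have h3 : 3 * (X / L ^ (A + 1)) = 3 / L * (X / L ^ A) := by
    rw [pow_succ]
    field_simp
  rw [h3]
  have h4 : 3 / L ≤ 1 := by rwa [div_le_one hL0]
  have h5 : 0 ≤ (X : ℝ) / L ^ A := by positivity
  nlinarith

end Pool.MP_dd84fd_nt.E2
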