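import Pool.Agent.Lib.MP_dd84fd_nt.E2.Defs
import Pool.Agent.Lib.MP_dd84fd_nt.SW.SWPsi

/-!
# primes in residue classes (module EB-PI)
-/

set_option autoImplicit false

namespace Pool.MP_dd84fd_nt.E2

open Finset Pool.MP_67663b_nt.Odd Pool.MP_dd84fd_nt.En

/-- partial summation against a nonnegative decreasing weight -/
private theorem pi_abel (a b : ℕ → ℝ) (m : ℕ) (M : ℝ) (hb : ∀ n, m ≤ n → 0 ≤ b n)
    (hanti : ∀ n, m ≤ n → b (n + 1) ≤ b n) (hS : ∀ u, m ≤ u → |∑ n ∈ Icc m u, a n| ≤ M)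
    (t : ℕ) (ht : m ≤ t) : |∑ n ∈ Icc m t, a n * b n| ≤ M * b m := by
  have key : ∀ t, m ≤ t → |∑ n ∈ Icc m t, a n * b n - (∑ n ∈ Icc m t, a n) * b t| ≤
      M * (b m - b t) := by
    intro t ht
    induction t, ht using Nat.le_induction with
    | base => simp
    | succ t ht ih =>
      rw [sum_Icc_succ_top (by omega), sum_Icc_succ_top (by omega)]
      have h1 : ∑ n ∈ Icc m t, a n * b n + a (t + 1) * b (t + 1) -
          (∑ n ∈ Icc m t, a n + a (t + 1)) * b (t + 1) =
          (∑ n ∈ Icc m t, a n * b n - (∑ n ∈ Icc m t, a n) * b t) +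
          (∑ n ∈ Icc m t, a n) * (b t - b (t + 1)) := by ring
      rw [h1]
      refine (abs_add_le _ _).trans ?_
      have h2 : |(∑ n ∈ Icc m t, a n) * (b t - b (t + 1))| ≤ M * (b t - b (t + 1)) := by
        rw [abs_mul, abs_of_nonneg (sub_nonneg.2 (hanti t ht))]
        exact mul_le_mul_of_nonneg_right (hS t ht) (sub_nonneg.2 (hanti t ht))
      have h3 : M * (b m - b (t + 1)) = M * (b m - b t) + M * (b t - b (t + 1)) := by ring
      rw [h3]
      exact add_le_add ih h2
  have h1 := key t ht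
  have h2 : |(∑ n ∈ Icc m t, a n) * b t| ≤ M * b t := by
    rw [abs_mul, abs_of_nonneg (hb t ht)]
    exact mul_le_mul_of_nonneg_right (hS t ht) (hb t ht)
  have h3 : ∑ n ∈ Icc m t, a n * b n = (∑ n ∈ Icc m t, a n * b n - (∑ n ∈ Icc m t, a n) * b t) +
      (∑ n ∈ Icc m t, a n) * b t := by ring
  rw [h3]
  refine (abs_add_le _ _).trans ?_
  have h4 : M * b m = M * (b m - b t) + M * b t := by ring
  rw [h4]
  exact add_le_add h1 h2

/-- powers of logarithms are small -/
private theorem pi_log_pow (k : ℕ) : ∀ᶠ X : ℕ in Filter.atTop,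
    (Real.log (X : ℝ)) ^ k ≤ Real.sqrt X := by
  have h1 : (fun x : ℝ => Real.log x ^ (k : ℝ)) =o[Filter.atTop] fun x : ℝ => x ^ ((1 : ℝ) / 2) :=
    isLittleO_log_rpow_rpow_atTop _ (by norm_num)
  have h2 := (h1.bound one_pos)
  have h3 : ∀ᶠ x : ℝ in Filter.atTop, Real.log x ^ k ≤ Real.sqrt x := by
    filter_upwards [h2, Filter.eventually_ge_atTop (1 : ℝ)] with x hx hx1
    have h4 : 0 ≤ Real.log x := Real.log_nonneg hx1
    rw [Real.rpow_natCast, Real.norm_of_nonneg (by positivity), one_mul,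
      Real.norm_of_nonneg (by positivity), ← Real.sqrt_eq_rpow] at hx
    exact hx
  exact tendsto_natCast_atTop_atTop.eventually h3

/-- the prime sum with logarithmic weights, uniformly in the end point -/
private theorem pi_theta (A B : ℕ) : ∃ X0 : ℕ, ∀ X : ℕ, X0 ≤ X → ∀ r c : ℕ, 1 ≤ r →
    (r : ℝ) ≤ (Real.log X) ^ B → Nat.Coprime c r → ∀ t : ℕ, t ≤ X →
    |∑ p ∈ (Icc 1 t).filter (fun n => n.Prime ∧ n ≡ c [MOD r]), Real.log p -
      t / (Nat.totient r : ℝ)| ≤ X / (Real.log X) ^ A := by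
  obtain ⟨X1, hX1⟩ := SW.sw_theta (A + 1) (B + 1)
  have hloglim : Filter.Tendsto (fun X : ℕ => Real.log (X : ℝ)) Filter.atTop Filter.atTop :=
    Real.tendsto_log_atTop.comp tendsto_natCast_atTop_atTop
  have ev := (pi_log_pow (A + 2)).and ((hloglim.eventually_ge_atTop (2 * 2 ^ B)).and
    ((hloglim.eventually_ge_atTop (2 ^ (A + 1))).and
    ((hloglim.eventually_ge_atTop 4).and (Filter.eventually_ge_atTop (X1 ^ 2 + 4)))))
  obtain ⟨X0, hX0⟩ := Filter.eventually_atTop.1 ev
  refine ⟨X0, fun X hX r c hr hrB hc t ht => ?_⟩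
  obtain ⟨h1, h2, h3, h4, h5⟩ := hX0 X hX
  set L := Real.log (X : ℝ) with hL
  have hL0 : 0 < L := by linarith
  have hX4 : (4 : ℝ) ≤ X := by
    have : 4 ≤ X := by omega
    exact_mod_cast this
  have hXpos : (0 : ℝ) < X := by linarith
  have hφ : (1 : ℝ) ≤ Nat.totient r := by
    have : 0 < Nat.totient r := Nat.totient_pos.2 hr
    exact_mod_cast this
  have hsq : Real.sqrt X * Real.sqrt X = X := Real.mul_self_sqrt hXpos.le
  have hsq0 : 0 < Real.sqrt X := Real.sqrt_pos.2 hXpos
  rcases le_or_gt (t : ℝ) (Real.sqrt X) with hts | hts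
  · -- trivial bound
    have hA1 : |∑ p ∈ (Icc 1 t).filter (fun n => n.Prime ∧ n ≡ c [MOD r]), Real.log p -
        t / (Nat.totient r : ℝ)| ≤ t * L := by
      have ha : 0 ≤ ∑ p ∈ (Icc 1 t).filter (fun n => n.Prime ∧ n ≡ c [MOD r]), Real.log (p : ℝ) :=
        sum_nonneg fun p _ => Real.log_natCast_nonneg p
      have hb : ∑ p ∈ (Icc 1 t).filter (fun n => n.Prime ∧ n ≡ c [MOD r]), Real.log (p : ℝ) ≤
          t * L := by
        calc ∑ p ∈ (Icc 1 t).filter (fun n => n.Prime ∧ n ≡ c [MOD r]), Real.log (p : ℝ)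
            ≤ ∑ _p ∈ (Icc 1 t).filter (fun n => n.Prime ∧ n ≡ c [MOD r]), L := by
              refine sum_le_sum fun p hp => ?_
              rw [mem_filter, mem_Icc] at hp
              exact Real.log_le_log (by exact_mod_cast hp.1.1) (by exact_mod_cast hp.1.2.trans ht)
          _ = (((Icc 1 t).filter (fun n => n.Prime ∧ n ≡ c [MOD r])).card : ℝ) * L := by
              rw [sum_const, nsmul_eq_mul]
          _ ≤ t * L := by
              apply mul_le_mul_of_nonneg_right _ hL0.le
              have := card_filter_le (Icc 1 t) (fun n => n.Prime ∧ n ≡ c [MOD r])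
              rw [Nat.card_Icc, Nat.add_sub_cancel] at this
              exact_mod_cast this
      have hc1 : (t : ℝ) / (Nat.totient r : ℝ) ≤ t := div_le_self (Nat.cast_nonneg _) hφ
      have hc0 : 0 ≤ (t : ℝ) / (Nat.totient r : ℝ) := by positivity
      have ht0 : (0 : ℝ) ≤ t := Nat.cast_nonneg _
      rw [abs_le]
      constructor
      · nlinarith
      · linarith
    refine hA1.trans ?_
    rw [le_div_iff₀ (by positivity)]
    calc (t : ℝ) * L * L ^ A = t * L ^ (A + 1) := by ring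
      _ ≤ Real.sqrt X * L ^ (A + 2) := by
          apply mul_le_mul hts _ (by positivity) hsq0.le
          exact pow_le_pow_right₀ (by linarith) (by omega)
      _ ≤ Real.sqrt X * Real.sqrt X := mul_le_mul_of_nonneg_left h1 hsq0.le
      _ = X := hsq
  · -- Siegel–Walfisz
    have ht0 : (0 : ℝ) < t := hsq0.trans hts
    have hlt : L / 2 ≤ Real.log t := by
      have h6 : Real.log (Real.sqrt X) ≤ Real.log t := Real.log_le_log hsq0 hts.le
      rw [Real.log_sqrt hXpos.le] at h6
      exact h6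
    have htX1 : X1 ≤ t := by
      have h6 : (X1 : ℝ) ≤ Real.sqrt X := by
        apply Real.le_sqrt_of_sq_le
        have : X1 ^ 2 ≤ X := by omega
        exact_mod_cast this
      exact_mod_cast h6.trans hts.le
    have hrt : (r : ℝ) ≤ Real.log t ^ (B + 1) := by
      calc (r : ℝ) ≤ L ^ B := hrB
        _ ≤ (2 * Real.log t) ^ B := pow_le_pow_left₀ hL0.le (by linarith) _
        _ = 2 ^ B * Real.log t ^ B := by rw [mul_pow]
        _ ≤ Real.log t * Real.log t ^ B := by
            apply mul_le_mul_of_nonneg_right _ (by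
              apply pow_nonneg
              linarith)
            linarith
        _ = Real.log t ^ (B + 1) := by ring
    have h6 := hX1 t htX1 r c hr hrt hc
    refine h6.trans ?_
    have h7 : 0 < Real.log t := by linarith
    rw [div_le_div_iff₀ (by positivity) (by positivity)]
    have htX : (t : ℝ) ≤ X := by exact_mod_cast ht
    calc (t : ℝ) * L ^ A ≤ X * L ^ A := mul_le_mul_of_nonneg_right htX (by positivity)
      _ ≤ X * (Real.log t) ^ (A + 1) := by
          apply mul_le_mul_of_nonneg_left _ hXpos.le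
          have h8 : (L / 2) ^ (A + 1) ≤ Real.log t ^ (A + 1) :=
            pow_le_pow_left₀ (by positivity) hlt _
          refine le_trans ?_ h8
          rw [div_pow, le_div_iff₀ (by positivity), pow_succ L A]
          exact mul_le_mul_of_nonneg_left h3 (by positivity)

theorem pi_sw (A B : ℕ) : ∃ X0 : ℕ, ∀ X : ℕ, X0 ≤ X → ∀ r c : ℕ, 1 ≤ r →
    (r : ℝ) ≤ (Real.log X) ^ B → Nat.Coprime c r → ∀ t : ℕ, t ≤ X →
    |(((Icc 1 t).filter (fun n => n.Prime ∧ n ≡ c [MOD r])).card : ℝ) -
      Li t / (Nat.totient r : ℝ)| ≤ X / (Real.log X) ^ A := by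
  classical
  obtain ⟨X1, hX1⟩ := pi_theta (A + 1) B
  have hloglim : Filter.Tendsto (fun X : ℕ => Real.log (X : ℝ)) Filter.atTop Filter.atTop :=
    Real.tendsto_log_atTop.comp tendsto_natCast_atTop_atTop
  have ev := (pi_log_pow (A + 1)).and
    ((hloglim.eventually_ge_atTop 4).and (Filter.eventually_ge_atTop (X1 + 4)))
  obtain ⟨X0, hX0⟩ := Filter.eventually_atTop.1 ev
  refine ⟨X0, fun X hX r c hr hrB hc t ht => ?_⟩
  obtain ⟨h1, h4, h5⟩ := hX0 X hX
  set L := Real.log (X : ℝ) with hL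
  have hL0 : 0 < L := by linarith
  have hX4 : (4 : ℝ) ≤ X := by
    have : 4 ≤ X := by omega
    exact_mod_cast this
  have hXpos : (0 : ℝ) < X := by linarith
  have hφ : (1 : ℝ) ≤ Nat.totient r := by
    have : 0 < Nat.totient r := Nat.totient_pos.2 hr
    exact_mod_cast this
  set a : ℕ → ℝ := fun n => (if n.Prime ∧ n ≡ c [MOD r] then Real.log n else 0) -
    1 / (Nat.totient r : ℝ) with ha
  set b : ℕ → ℝ := fun n => 1 / Real.log (n : ℝ) with hb
  have hlogpos : ∀ n : ℕ, 2 ≤ n → 0 < Real.log (n : ℝ) := fun n hn =>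
    Real.log_pos (by exact_mod_cast hn)
  -- partial sums
  have hS1 : ∀ u : ℕ, ∑ n ∈ Icc 1 u, a n =
      ∑ p ∈ (Icc 1 u).filter (fun n => n.Prime ∧ n ≡ c [MOD r]), Real.log p -
      u / (Nat.totient r : ℝ) := by
    intro u
    rw [ha, sum_sub_distrib, sum_const, Nat.card_Icc, Nat.add_sub_cancel, nsmul_eq_mul, sum_filter,
      mul_one_div]
  have ha1 : a 1 = - (1 / (Nat.totient r : ℝ)) := by
    rw [ha]
    simp [Nat.not_prime_one]
  have hsplit : ∀ (f : ℕ → ℝ) (u : ℕ), 1 ≤ u → ∑ n ∈ Icc 1 u, f n = f 1 + ∑ n ∈ Icc 2 u, f n := by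
    intro f u hu
    rw [← Finset.insert_Icc_succ_left_eq_Icc hu, sum_insert (by rw [mem_Icc]; intro h; exact absurd h.1 (by decide))]
    rfl
  have hS : ∀ u : ℕ, 2 ≤ u → u ≤ X → |∑ n ∈ Icc 2 u, a n| ≤ 2 * (X / L ^ (A + 1)) := by
    intro u hu hu'
    have h6 := hX1 X (by omega) r c hr hrB hc u hu'
    rw [← hS1 u, hsplit a u (by omega), ha1] at h6
    have h7 : (1 : ℝ) ≤ X / L ^ (A + 1) := by
      rw [le_div_iff₀ (by positivity), one_mul]
      refine h1.trans ?_
      rw [Real.sqrt_le_left hXpos.le]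
      nlinarith
    have h8 : 1 / (Nat.totient r : ℝ) ≤ 1 := by
      rw [div_le_one (by linarith)]
      exact hφ
    have h9 : 0 ≤ 1 / (Nat.totient r : ℝ) := by positivity
    rw [abs_le] at h6 ⊢
    constructor <;> linarith [h6.1, h6.2]
  rcases Nat.lt_or_ge t 2 with ht2 | ht2
  · -- `t ≤ 1`
    have h6 : ((Icc 1 t).filter (fun n => n.Prime ∧ n ≡ c [MOD r])) = ∅ := by
      rw [filter_eq_empty_iff]
      rintro n hn ⟨hn', -⟩
      rw [mem_Icc] at hn
      have := hn'.two_le
      omega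
    have h7 : Li t = 0 := by
      unfold Li
      rw [Finset.Icc_eq_empty (by omega), sum_empty]
    rw [h6, h7, card_empty, Nat.cast_zero, zero_div, sub_zero, abs_zero]
    positivity
  have hdiff : (((Icc 1 t).filter (fun n => n.Prime ∧ n ≡ c [MOD r])).card : ℝ) -
      Li t / (Nat.totient r : ℝ) = ∑ n ∈ Icc 2 t, a n * b n := by
    have e1 : (((Icc 1 t).filter (fun n => n.Prime ∧ n ≡ c [MOD r])).card : ℝ) =
        ∑ n ∈ Icc 2 t, if n.Prime ∧ n ≡ c [MOD r] then (1 : ℝ) else 0 := by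
      rw [card_filter]
      push_cast
      rw [hsplit _ t (by omega), if_neg (by
        rintro ⟨h, -⟩
        exact Nat.not_prime_one h), zero_add]
    rw [e1]
    unfold Li
    rw [sum_div, ← sum_sub_distrib]
    refine sum_congr rfl fun n hn => ?_
    rw [mem_Icc] at hn
    have h6 := (hlogpos n hn.1).ne'
    rw [ha, hb]
    simp only
    split_ifs
    · field_simp
    · field_simp
      ring
  -- weights truncated after `X`
  have habel : |∑ n ∈ Icc 2 t, a n * b n| ≤ 2 * (X / L ^ (A + 1)) * b 2 := by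
    set a' : ℕ → ℝ := fun n => if n ≤ t then a n else 0 with ha'
    have e1 : ∑ n ∈ Icc 2 t, a n * b n = ∑ n ∈ Icc 2 t, a' n * b n := by
      refine sum_congr rfl fun n hn => ?_
      rw [mem_Icc] at hn
      rw [ha']
      simp only
      rw [if_pos hn.2]
    rw [e1]
    refine pi_abel a' b 2 _ (fun n hn => ?_) (fun n hn => ?_) (fun u hu => ?_) t ht2
    · exact div_nonneg zero_le_one (hlogpos n hn).le
    · apply one_div_le_one_div_of_le (hlogpos n hn)
      apply Real.log_le_log
      · have : 0 < n := by omega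
        exact_mod_cast this
      · push_cast
        linarith
    · have e2 : ∑ n ∈ Icc 2 u, a' n = ∑ n ∈ Icc 2 (min u t), a n := by
        rw [ha', ← sum_filter]
        refine sum_congr ?_ fun _ _ => rfl
        ext n
        simp only [mem_filter, mem_Icc]
        omega
      rw [e2]
      exact hS _ (by omega) (by omega)
  rw [hdiff]
  refine habel.trans ?_
  have hb2 : b 2 ≤ 2 := by
    rw [hb]
    simp only
    have h6 := Real.log_two_gt_d9
    push_cast
    rw [div_le_iff₀ (by linarith)]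
    linarith
  have h6 : (0 : ℝ) ≤ 2 * (X / L ^ (A + 1)) := by positivity
  calc 2 * (X / L ^ (A + 1)) * b 2 ≤ 2 * (X / L ^ (A + 1)) * 2 := mul_le_mul_of_nonneg_left hb2 h6
    _ = 4 * X / L ^ (A + 1) := by ring
    _ ≤ X / L ^ A := by
        rw [div_le_div_iff₀ (by positivity) (by positivity), pow_succ]
        have h7 : 0 ≤ (X : ℝ) * L ^ A := by positivity
        nlinarith

end Pool.MP_dd84fd_nt.E2
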