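import Pool.Agent.Lib.MP_dd84fd_nt.E2.F2Class
import Pool.Agent.Lib.MP_dd84fd_nt.E2.PiSW
import Pool.Agent.Lib.MP_dd84fd_nt.E2.MinorP

/-!
# primes and model agree on the major arcs (module EB-CL)
-/

set_option autoImplicit false

namespace Pool.MP_dd84fd_nt.E2

open Finset Pool.MP_67663b_nt.Odd Pool.MP_dd84fd_nt.En

private lemma CL_partial (a : ℕ → ℝ) (B : ℝ) (X : ℕ)
    (hB : ∀ t ≤ X, |∑ n ∈ Icc 1 t, a n| ≤ B) (β : ℝ) :
    ‖∑ n ∈ Icc 1 X, (a n : ℂ) * ee ((n : ℝ) * β)‖ ≤ B * (1 + 2 * Real.pi * |β| * X) := by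
  have hid : ∀ X : ℕ, ∑ n ∈ Icc 1 X, (a n : ℂ) * ee ((n : ℝ) * β) =
      ((∑ n ∈ Icc 1 X, a n : ℝ) : ℂ) * ee ((X : ℝ) * β) -
      ∑ t ∈ range X, ((∑ n ∈ Icc 1 t, a n : ℝ) : ℂ) *
        (ee (((t + 1 : ℕ) : ℝ) * β) - ee ((t : ℝ) * β)) := by
    intro X
    induction X with
    | zero => simp
    | succ X ih =>
      rw [Finset.sum_Icc_succ_top (by omega), ih, Finset.sum_range_succ,
        Finset.sum_Icc_succ_top (by omega)]
      push_cast
      ring
  rw [hid]
  have hB0 : 0 ≤ B := (abs_nonneg _).trans (hB 0 (Nat.zero_le _))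
  have h1 : ‖((∑ n ∈ Icc 1 X, a n : ℝ) : ℂ) * ee ((X : ℝ) * β)‖ ≤ B := by
    rw [norm_mul, norm_ee, mul_one, Complex.norm_real, Real.norm_eq_abs]
    exact hB X le_rfl
  have h2 : ‖∑ t ∈ range X, ((∑ n ∈ Icc 1 t, a n : ℝ) : ℂ) *
      (ee (((t + 1 : ℕ) : ℝ) * β) - ee ((t : ℝ) * β))‖ ≤ X * (B * (2 * Real.pi * |β|)) := by
    refine (norm_sum_le _ _).trans ?_
    calc ∑ t ∈ range X, ‖((∑ n ∈ Icc 1 t, a n : ℝ) : ℂ) *
          (ee (((t + 1 : ℕ) : ℝ) * β) - ee ((t : ℝ) * β))‖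
        ≤ ∑ _t ∈ range X, B * (2 * Real.pi * |β|) := by
          refine sum_le_sum fun t ht => ?_
          rw [norm_mul, Complex.norm_real, Real.norm_eq_abs]
          refine mul_le_mul (hB t (by rw [mem_range] at ht; omega)) ?_ (norm_nonneg _) hB0
          refine (norm_ee_sub_ee_le _ _).trans (le_of_eq ?_)
          congr 2
          push_cast
          ring
      _ = _ := by rw [sum_const, card_range, nsmul_eq_mul]
  refine (norm_sub_le _ _).trans ?_
  nlinarith

private lemma CL_ee {n c q : ℕ} (hq : 0 < q) (h : n ≡ c [MOD q]) (a : ℤ) (β : ℝ) :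
    ee ((n : ℝ) * ((a : ℝ) / q + β)) = ee ((c : ℝ) * ((a : ℝ) / q)) * ee ((n : ℝ) * β) := by
  have hq0 : (q : ℝ) ≠ 0 := by exact_mod_cast hq.ne'
  have h1 : (q : ℤ) ∣ (n : ℤ) - c := (Nat.modEq_iff_dvd.mp h.symm)
  obtain ⟨k, hk⟩ := h1
  have h2 : (n : ℝ) = c + q * k := by
    have : (n : ℤ) = c + q * k := by linarith
    exact_mod_cast this
  have h3 : (n : ℝ) * ((a : ℝ) / q + β) = ((c : ℝ) * ((a : ℝ) / q) + (n : ℝ) * β) + ((k * a : ℤ) : ℝ) := by
    have h4 : (n : ℝ) * ((a : ℝ) / q) = (c : ℝ) * ((a : ℝ) / q) + ((k * a : ℤ) : ℝ) := by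
      rw [h2]
      push_cast
      field_simp
    rw [mul_add, h4]
    ring
  rw [h3, ee_add_int, ee_add]

private lemma CL_split (q : ℕ) (hq : 0 < q) (S : Finset ℕ) (f : ℕ → ℂ) :
    ∑ n ∈ S, f n = ∑ c ∈ range q, ∑ n ∈ S.filter (fun n => n ≡ c [MOD q]), f n := by
  classical
  rw [← Finset.sum_fiberwise_of_maps_to (s := S) (t := range q) (g := fun n => n % q)
    (fun n _ => mem_range.mpr (Nat.mod_lt _ hq))]
  refine sum_congr rfl fun c hc => ?_
  rw [mem_range] at hc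
  refine sum_congr ?_ fun _ _ => rfl
  ext n
  simp only [mem_filter, Nat.ModEq, Nat.mod_eq_of_lt hc]

/-- difference of the indicator of the primes and the model -/
private noncomputable def CL_b (w n : ℕ) : ℝ := (if n.Prime then 1 else 0) - f2 w n

private lemma CL_diff (w X : ℕ) (θ : ℝ) :
    P1 X θ - F2 w X θ = ∑ n ∈ Icc 1 X, (CL_b w n : ℂ) * ee ((n : ℝ) * θ) := by
  unfold P1 F2 CL_b
  rw [Finset.sum_filter, ← Finset.sum_sub_distrib]
  refine sum_congr rfl fun n _ => ?_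
  split_ifs
  · push_cast; ring
  · push_cast; ring

theorem close (A D D' : ℕ) (hD : 1 ≤ D) (hD' : D ≤ D') : ∃ X0 : ℕ, ∀ X : ℕ, X0 ≤ X → ∀ θ : ℝ,
    Ht ((Real.log X) ^ D) X θ → ‖P1 X θ - F2 (wX D' X) X θ‖ ≤ X / (Real.log X) ^ A := by
  classical
  obtain ⟨XP, hXP⟩ := pi_sw (A + 2 * D + 1) D
  obtain ⟨η, hη0, _, XF, hXF⟩ := f2_class D' (hD.trans hD')
  obtain ⟨X1, hX1⟩ := MP_log_large 24
  obtain ⟨X2, hX2⟩ := MP_log_pow 24 (A + 2 * D) (ε := η) hη0
  obtain ⟨X3, hX3⟩ := MP_log_pow 3 (A + D) (ε := 1) one_pos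
  obtain ⟨X4, hX4⟩ := MP_log_pow 1 D (ε := 1) one_pos
  refine ⟨max (max (max XP XF) (max X1 X2)) (max (max X3 X4) 1), fun X hX θ hHt => ?_⟩
  simp only [max_le_iff] at hX
  obtain ⟨⟨⟨hXP', hXF'⟩, hX1', hX2'⟩, ⟨hX3', hX4'⟩, hX1''⟩ := hX
  have hXR1 : (1 : ℝ) ≤ X := by exact_mod_cast hX1''
  have hXR : (0 : ℝ) < X := by linarith
  have hpi := hXP X hXP'
  have hf2 := hXF X hXF'
  have hL24 := hX1 X hX1'
  have hLη := hX2 X hX2'
  have hLX := hX3 X hX3'
  have hLX' := hX4 X hX4'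
  rw [Real.rpow_one] at hLX hLX'
  rw [one_mul] at hLX'
  set L := Real.log X with hL
  have hL0 : 0 < L := by linarith
  have hL1 : 1 ≤ L := by linarith
  obtain ⟨q, a, hq, hgcd, hle⟩ := hHt
  set β : ℝ := θ - (a : ℝ) / q with hβ
  have hθ : θ = (a : ℝ) / q + β := by rw [hβ]; ring
  have hqR : (1 : ℝ) ≤ q := by exact_mod_cast hq
  have hXβ : 0 ≤ (X : ℝ) * |β| := by positivity
  have hqH : (q : ℝ) ≤ L ^ D := by nlinarith
  have hβH : (X : ℝ) * |β| ≤ L ^ D := by nlinarith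
  have hqX : q ≤ X := by exact_mod_cast hqH.trans hLX'
  set w := wX D' X with hw
  have hwle : (w : ℝ) ≤ L ^ D' := by
    rw [hw]
    unfold wX
    exact Nat.floor_le (by positivity)
  have hpw : ∀ p : ℕ, p ≤ q → p ≤ w := by
    intro p hp
    rw [hw]
    unfold wX
    apply Nat.le_floor
    calc (p : ℝ) ≤ q := by exact_mod_cast hp
      _ ≤ L ^ D := hqH
      _ ≤ L ^ D' := pow_le_pow_right₀ hL1 hD'
  have hη1 : (0 : ℝ) ≤ (X : ℝ) ^ (1 - η) := Real.rpow_nonneg hXR.le _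
  -- class by class
  have hclass : ∀ c ∈ range q,
      ‖∑ n ∈ (Icc 1 X).filter (fun n => n ≡ c [MOD q]), (CL_b w n : ℂ) * ee ((n : ℝ) * θ)‖ ≤
      8 * L ^ D * (X / L ^ (A + 2 * D + 1) + (X : ℝ) ^ (1 - η)) + 1 := by
    intro c hc
    by_cases hcop : Nat.Coprime c q
    · have e1 : ∑ n ∈ (Icc 1 X).filter (fun n => n ≡ c [MOD q]), (CL_b w n : ℂ) *
          ee ((n : ℝ) * θ) = ee ((c : ℝ) * ((a : ℝ) / q)) *
          ∑ n ∈ Icc 1 X, ((if n ≡ c [MOD q] then CL_b w n else 0 : ℝ) : ℂ) *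
            ee ((n : ℝ) * β) := by
        rw [Finset.mul_sum, Finset.sum_filter]
        refine sum_congr rfl fun n _ => ?_
        split_ifs with h
        · rw [hθ, CL_ee hq h]
          ring
        · simp
      rw [e1, norm_mul, norm_ee, one_mul]
      have hB : ∀ t ≤ X, |∑ n ∈ Icc 1 t, (if n ≡ c [MOD q] then CL_b w n else 0)| ≤
          X / L ^ (A + 2 * D + 1) + (X : ℝ) ^ (1 - η) := by
        intro t ht
        have h1 := hpi q c hq hqH hcop t ht
        have h2 := hf2 w hwle q hq hqX (fun p _ hpq => hpw p (Nat.le_of_dvd hq hpq)) c hcop t ht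
        have h3 : ∑ n ∈ Icc 1 t, (if n ≡ c [MOD q] then CL_b w n else 0) =
            (((Icc 1 t).filter (fun n => n.Prime ∧ n ≡ c [MOD q])).card : ℝ) -
            ∑ n ∈ (Icc 1 t).filter (fun n => n ≡ c [MOD q]), f2 w n := by
          rw [Finset.card_filter, Finset.sum_filter]
          push_cast
          rw [← Finset.sum_sub_distrib]
          refine sum_congr rfl fun n _ => ?_
          unfold CL_b
          by_cases h1 : n ≡ c [MOD q]
          · by_cases h2 : n.Prime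
            · simp [h1, h2]
            · simp [h1, h2]
          · simp [h1]
        rw [h3]
        have h4 : (((Icc 1 t).filter (fun n => n.Prime ∧ n ≡ c [MOD q])).card : ℝ) -
            ∑ n ∈ (Icc 1 t).filter (fun n => n ≡ c [MOD q]), f2 w n =
            ((((Icc 1 t).filter (fun n => n.Prime ∧ n ≡ c [MOD q])).card : ℝ) -
              Li t / (Nat.totient q : ℝ)) -
            (∑ n ∈ (Icc 1 t).filter (fun n => n ≡ c [MOD q]), f2 w n -
              Li t / (Nat.totient q : ℝ)) := by ring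
        rw [h4]
        exact (abs_sub _ _).trans (add_le_add h1 h2)
      have h1 := CL_partial _ _ X hB β
      refine h1.trans ?_
      have h2 : 1 + 2 * Real.pi * |β| * X ≤ 8 * L ^ D := by
        have h3 : 1 ≤ L ^ D := one_le_pow₀ hL1
        have h4 := Real.pi_lt_d2
        have h5 : 2 * Real.pi * |β| * X = 2 * Real.pi * (X * |β|) := by ring
        rw [h5]
        nlinarith
      have h3 : 0 ≤ (X : ℝ) / L ^ (A + 2 * D + 1) + (X : ℝ) ^ (1 - η) := by positivity
      nlinarith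
    · -- the class contains at most one prime, and the model vanishes
      obtain ⟨l, hl, hlc, hlq⟩ := Nat.Prime.not_coprime_iff_dvd.mp hcop
      have hdvd : ∀ n : ℕ, n ≡ c [MOD q] → l ∣ n := by
        intro n hn
        have h2 : n ≡ c [MOD l] := Nat.ModEq.of_dvd hlq hn
        exact (Nat.ModEq.dvd_iff h2 dvd_rfl).mpr hlc
      have hf20 : ∀ n : ℕ, n ≡ c [MOD q] → f2 w n = 0 := by
        intro n hn
        have h3 : l ∣ primorial w :=
          hl.dvd_primorial_iff.mpr (hpw l (Nat.le_of_dvd hq hlq))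
        unfold f2 f1
        rw [if_neg, zero_div]
        exact Nat.Prime.not_coprime_iff_dvd.mpr ⟨l, hl, hdvd n hn, h3⟩
      have h1 : ‖∑ n ∈ (Icc 1 X).filter (fun n => n ≡ c [MOD q]), (CL_b w n : ℂ) *
          ee ((n : ℝ) * θ)‖ ≤ 1 := by
        have h2 : ∑ n ∈ (Icc 1 X).filter (fun n => n ≡ c [MOD q]), (CL_b w n : ℂ) *
            ee ((n : ℝ) * θ) = ∑ n ∈ (Icc 1 X).filter (fun n => n ≡ c [MOD q]),
            if n = l then ee ((n : ℝ) * θ) else 0 := by
          refine sum_congr rfl fun n hn => ?_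
          have hn' := (mem_filter.mp hn).2
          unfold CL_b
          rw [hf20 n hn', sub_zero]
          by_cases hnl : n = l
          · rw [if_pos hnl, if_pos (by rw [hnl]; exact hl)]
            simp
          · rw [if_neg hnl, if_neg]
            · simp
            · intro hp
              exact hnl ((Nat.prime_dvd_prime_iff_eq hl hp).mp (hdvd n hn')).symm
        rw [h2, Finset.sum_ite_eq']
        split_ifs
        · rw [norm_ee]
        · rw [norm_zero]; norm_num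
      refine h1.trans ?_
      have h3 : 0 ≤ 8 * L ^ D * ((X : ℝ) / L ^ (A + 2 * D + 1) + (X : ℝ) ^ (1 - η)) := by
        positivity
      linarith
  rw [CL_diff, CL_split q hq]
  have hLD : 0 < L ^ D := by positivity
  have hLA : 0 < L ^ A := by positivity
  calc ‖∑ c ∈ range q, ∑ n ∈ (Icc 1 X).filter (fun n => n ≡ c [MOD q]),
        (CL_b w n : ℂ) * ee ((n : ℝ) * θ)‖
      ≤ ∑ _c ∈ range q, (8 * L ^ D * (X / L ^ (A + 2 * D + 1) + (X : ℝ) ^ (1 - η)) + 1) :=
        (norm_sum_le _ _).trans (sum_le_sum hclass)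
    _ = q * (8 * L ^ D * (X / L ^ (A + 2 * D + 1) + (X : ℝ) ^ (1 - η)) + 1) := by
        rw [sum_const, card_range, nsmul_eq_mul]
    _ ≤ L ^ D * (8 * L ^ D * (X / L ^ (A + 2 * D + 1) + (X : ℝ) ^ (1 - η)) + 1) :=
        mul_le_mul_of_nonneg_right hqH (by positivity)
    _ = 8 / L * (X / L ^ A) + 8 * L ^ (2 * D) * (X : ℝ) ^ (1 - η) + L ^ D := by
        rw [show A + 2 * D + 1 = A + D + D + 1 by ring, show 2 * D = D + D by ring, pow_succ,
          pow_add, pow_add, pow_add]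
        field_simp
    _ ≤ 1 / 3 * (X / L ^ A) + 1 / 3 * (X / L ^ A) + 1 / 3 * (X / L ^ A) := by
        apply add_le_add (add_le_add _ _)
        · rw [one_div_mul_eq_div, le_div_iff₀ (by norm_num), ← one_div_mul_eq_div]
          have h1 : 3 * L ^ (A + D) = (3 * L ^ D) * L ^ A := by rw [pow_add]; ring
          rw [h1] at hLX
          rw [one_div_mul_eq_div, le_div_iff₀ hLA]
          linarith
        · apply mul_le_mul_of_nonneg_right _ (by positivity)
          rw [div_le_iff₀ hL0]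
          linarith
        · have h1 : (X : ℝ) ^ (1 - η) = X / (X : ℝ) ^ η := by
            rw [Real.rpow_sub hXR, Real.rpow_one]
          rw [h1]
          have hXη : 0 < (X : ℝ) ^ η := Real.rpow_pos_of_pos hXR η
          have h2 : 8 * L ^ (2 * D) / (X : ℝ) ^ η ≤ 1 / 3 / L ^ A := by
            rw [div_le_div_iff₀ hXη hLA]
            have h3 : 24 * L ^ (A + 2 * D) = 24 * (L ^ (2 * D) * L ^ A) := by
              rw [pow_add]; ring
            rw [h3] at hLη
            linarith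
          calc 8 * L ^ (2 * D) * (X / (X : ℝ) ^ η) = 8 * L ^ (2 * D) / (X : ℝ) ^ η * X := by ring
            _ ≤ 1 / 3 / L ^ A * X := mul_le_mul_of_nonneg_right h2 hXR.le
            _ = 1 / 3 * (X / L ^ A) := by ring
    _ = X / L ^ A := by ring

end Pool.MP_dd84fd_nt.E2
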