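import Pool.Agent.Lib.MP_dd84fd_nt.E2.ConvRough

/-!
# convolution of the model (module EB-CM)
-/

set_option autoImplicit false

namespace Pool.MP_dd84fd_nt.E2

open Finset Pool.MP_67663b_nt.Odd Pool.MP_dd84fd_nt.En

/-- partial summation against a nonnegative decreasing weight -/
private theorem cm_abel (a b : ℕ → ℝ) (m N : ℕ) (M : ℝ) (hb : ∀ n, m ≤ n → n ≤ N → 0 ≤ b n)
    (hanti : ∀ n, m ≤ n → n + 1 ≤ N → b (n + 1) ≤ b n)
    (hS : ∀ u, m ≤ u → u ≤ N → |∑ n ∈ Icc m u, a n| ≤ M)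
    (t : ℕ) (ht : m ≤ t) (htN : t ≤ N) : |∑ n ∈ Icc m t, a n * b n| ≤ M * b m := by
  have key : ∀ t, m ≤ t → t ≤ N → |∑ n ∈ Icc m t, a n * b n - (∑ n ∈ Icc m t, a n) * b t| ≤
      M * (b m - b t) := by
    intro t ht
    induction t, ht using Nat.le_induction with
    | base =>
      intro _
      simp
    | succ t ht ih =>
      intro htN
      rw [sum_Icc_succ_top (by omega), sum_Icc_succ_top (by omega)]
      have h1 : ∑ n ∈ Icc m t, a n * b n + a (t + 1) * b (t + 1) -
          (∑ n ∈ Icc m t, a n + a (t + 1)) * b (t + 1) =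
          (∑ n ∈ Icc m t, a n * b n - (∑ n ∈ Icc m t, a n) * b t) +
          (∑ n ∈ Icc m t, a n) * (b t - b (t + 1)) := by ring
      rw [h1]
      refine (abs_add_le _ _).trans ?_
      have h2 : |(∑ n ∈ Icc m t, a n) * (b t - b (t + 1))| ≤ M * (b t - b (t + 1)) := by
        rw [abs_mul, abs_of_nonneg (sub_nonneg.2 (hanti t ht htN))]
        exact mul_le_mul_of_nonneg_right (hS t ht (by omega)) (sub_nonneg.2 (hanti t ht htN))
      have h3 : M * (b m - b (t + 1)) = M * (b m - b t) + M * (b t - b (t + 1)) := by ring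
      rw [h3]
      exact add_le_add (ih (by omega)) h2
  have h1 := key t ht htN
  have h2 : |(∑ n ∈ Icc m t, a n) * b t| ≤ M * b t := by
    rw [abs_mul, abs_of_nonneg (hb t ht htN)]
    exact mul_le_mul_of_nonneg_right (hS t ht htN) (hb t ht htN)
  have h3 : ∑ n ∈ Icc m t, a n * b n = (∑ n ∈ Icc m t, a n * b n - (∑ n ∈ Icc m t, a n) * b t) +
      (∑ n ∈ Icc m t, a n) * b t := by ring
  rw [h3]
  refine (abs_add_le _ _).trans ?_
  have h4 : M * b m = M * (b m - b t) + M * b t := by ring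
  rw [h4]
  exact add_le_add h1 h2

/-- the weight `1 / (log a log (n - a))` -/
private noncomputable def cmw (n a : ℕ) : ℝ := 1 / (Real.log (a : ℝ) * Real.log ((n - a : ℕ) : ℝ))

private theorem cm_logpos {m : ℕ} (h : 2 ≤ m) : 0 < Real.log (m : ℝ) :=
  Real.log_pos (by exact_mod_cast h)

private theorem cmw_nonneg (n a : ℕ) : 0 ≤ cmw n a :=
  div_nonneg zero_le_one (mul_nonneg (Real.log_natCast_nonneg _) (Real.log_natCast_nonneg _))

private theorem cmw_symm (n a : ℕ) (h : a ≤ n) : cmw n (n - a) = cmw n a := by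
  unfold cmw
  rw [Nat.sub_sub_self h, mul_comm]

private theorem cmw_anti (n a : ℕ) (ha : 2 ≤ a) (h : 2 * (a + 1) ≤ n) : cmw n (a + 1) ≤ cmw n a := by
  unfold cmw
  have h1 := cm_logpos ha
  have h2 : 0 < Real.log ((n - a : ℕ) : ℝ) := cm_logpos (by omega)
  apply one_div_le_one_div_of_le (mul_pos h1 h2)
  obtain ⟨b, hb⟩ : ∃ b : ℕ, n = (a + 1) + b := ⟨n - (a + 1), by omega⟩
  have hab : a + 1 ≤ b := by omega
  have e1 : n - (a + 1) = b := by omega
  have e2 : n - a = b + 1 := by omega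
  rw [e1, e2]
  have haR : (2 : ℝ) ≤ a := by exact_mod_cast ha
  have habR : (a : ℝ) + 1 ≤ b := by exact_mod_cast hab
  push_cast
  -- the increments of the logarithm
  have h3 : 1 / ((a : ℝ) + 1) ≤ Real.log ((a : ℝ) + 1) - Real.log a := by
    rw [← Real.log_div (by linarith) (by linarith)]
    have h4 := Real.one_sub_inv_le_log_of_pos (x := ((a : ℝ) + 1) / a) (by positivity)
    refine le_trans (le_of_eq ?_) h4
    field_simp
    ring
  have h4 : Real.log ((b : ℝ) + 1) - Real.log b ≤ 1 / (b : ℝ) := by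
    rw [← Real.log_div (by linarith) (by linarith)]
    have h5 := Real.log_le_sub_one_of_pos (x := ((b : ℝ) + 1) / b)
      (by apply div_pos <;> linarith)
    refine h5.trans (le_of_eq ?_)
    have : (b : ℝ) ≠ 0 := by linarith
    field_simp
    ring
  have h5 : Real.log (a : ℝ) ≤ Real.log (b : ℝ) := Real.log_le_log (by linarith) (by linarith)
  have h6 : 0 < Real.log (b : ℝ) := lt_of_lt_of_le h1 h5
  have h7 : 1 / (b : ℝ) ≤ 1 / ((a : ℝ) + 1) := one_div_le_one_div_of_le (by linarith) habR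
  have h8 : Real.log (a : ℝ) * (Real.log ((b : ℝ) + 1) - Real.log b) ≤
      Real.log (b : ℝ) * (Real.log ((a : ℝ) + 1) - Real.log a) := by
    calc Real.log (a : ℝ) * (Real.log ((b : ℝ) + 1) - Real.log b)
        ≤ Real.log (a : ℝ) * (1 / (b : ℝ)) := mul_le_mul_of_nonneg_left h4 h1.le
      _ ≤ Real.log (b : ℝ) * (1 / ((a : ℝ) + 1)) :=
          mul_le_mul h5 h7 (by
            apply div_nonneg zero_le_one
            linarith) h6.le
      _ ≤ _ := mul_le_mul_of_nonneg_left h3 h6.le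
  nlinarith

private theorem cmw_two (n : ℕ) (hn : 4 ≤ n) : cmw n 2 ≤ 3 := by
  unfold cmw
  have h2 := Real.log_two_gt_d9
  have h4 : Real.log 2 ≤ Real.log ((n - 2 : ℕ) : ℝ) :=
    Real.log_le_log (by norm_num) (by
      have : 2 ≤ n - 2 := by omega
      exact_mod_cast this)
  push_cast
  rw [div_le_iff₀ (mul_pos (by linarith) (by linarith))]
  nlinarith

theorem conv2_main (D : ℕ) (hD : 1 ≤ D) : ∃ η : ℝ, 0 < η ∧ η ≤ 1 / 4 ∧ ∃ X0 : ℕ,
    ∀ X : ℕ, X0 ≤ X → ∀ w : ℕ, 2 ≤ w → (w : ℝ) ≤ (Real.log X) ^ D → ∀ n : ℕ, n ≤ X → Even n →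
    0 < n → |conv2 w n - SW w n * JJ n| ≤ (X : ℝ) ^ (1 - η) := by
  obtain ⟨η, hη0, hη1, X1, hX1⟩ := conv_rough D hD
  have hlim : Filter.Tendsto (fun X : ℕ => (X : ℝ) ^ (η / 2)) Filter.atTop Filter.atTop :=
    (tendsto_rpow_atTop (by positivity)).comp tendsto_natCast_atTop_atTop
  have ev := (hlim.eventually_ge_atTop 12).and (Filter.eventually_ge_atTop (X1 + 1))
  obtain ⟨X0, hX0⟩ := Filter.eventually_atTop.1 ev
  refine ⟨η / 2, by positivity, by linarith, X0, fun X hX w hw hwX n hnX hn hn0 => ?_⟩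
  obtain ⟨h12, hXX⟩ := hX0 X hX
  have hXpos : (0 : ℝ) < X := by
    have : 0 < X := by omega
    exact_mod_cast this
  set M : ℝ := (X : ℝ) ^ (1 - η) with hM
  have hM0 : 0 < M := Real.rpow_pos_of_pos hXpos _
  have hMX : 12 * M ≤ (X : ℝ) ^ (1 - η / 2) := by
    have h1 : (X : ℝ) ^ (1 - η / 2) = (X : ℝ) ^ (η / 2) * M := by
      rw [hM, ← Real.rpow_add hXpos]
      congr 1
      ring
    rw [h1]
    exact mul_le_mul_of_nonneg_right h12 hM0.le
  have hrough := hX1 X (by omega) w hw hwX n hnX hn hn0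
  rcases Nat.lt_or_ge n 4 with hn4 | hn4
  · -- `n = 2`
    have hn2 : n = 2 := by
      obtain ⟨k, hk⟩ := hn
      omega
    subst hn2
    have h1 : conv2 w 2 = 0 := by
      unfold conv2
      rw [sum_eq_zero]
      intro a ha
      rw [mem_Icc] at ha
      have : a = 1 := by omega
      subst this
      unfold f2
      simp
    have h2 : JJ 2 = 0 := by
      unfold JJ
      rw [Finset.Icc_eq_empty (by omega), sum_empty]
    rw [h1, h2, mul_zero, sub_zero, abs_zero]
    positivity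
  obtain ⟨h, hh⟩ := hn
  have hh2 : 2 ≤ h := by omega
  set c : ℕ → ℝ := fun a => f1 w a * f1 w (n - a) - SW w n with hc
  have hcsymm : ∀ a, a ≤ n → c (n - a) = c a := by
    intro a ha
    rw [hc]
    simp only
    rw [Nat.sub_sub_self ha, mul_comm]
  -- partial sums
  have hS1 : ∀ u : ℕ, u < n → |∑ a ∈ Icc 1 u, c a| ≤ M := by
    intro u hu
    have h1 := hrough u hu
    have h2 : ∑ a ∈ Icc 1 u, c a = ∑ a ∈ Icc 1 u, f1 w a * f1 w (n - a) - (u : ℝ) * SW w n := by
      rw [hc, sum_sub_distrib, sum_const, Nat.card_Icc, Nat.add_sub_cancel, nsmul_eq_mul]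
    rw [h2]
    exact h1
  have hsplit : ∀ (f : ℕ → ℝ) (u : ℕ), 1 ≤ u → ∑ n ∈ Icc 1 u, f n = f 1 + ∑ n ∈ Icc 2 u, f n := by
    intro f u hu
    rw [← Finset.insert_Icc_succ_left_eq_Icc hu, sum_insert (by
      rw [mem_Icc]; intro h; exact absurd h.1 (by decide))]
    rfl
  have hS2 : ∀ u : ℕ, 2 ≤ u → u ≤ h → |∑ a ∈ Icc 2 u, c a| ≤ 2 * M := by
    intro u hu hu'
    have h1 := hS1 u (by omega)
    have h2 := hS1 1 (by omega)
    rw [hsplit c u (by omega)] at h1
    rw [Icc_self, sum_singleton] at h2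
    rw [abs_le] at h1 h2 ⊢
    constructor <;> linarith [h1.1, h1.2, h2.1, h2.2]
  have habel : ∀ t : ℕ, 1 ≤ t → t ≤ h → |∑ a ∈ Icc 2 t, c a * cmw n a| ≤ 2 * M * 3 := by
    intro t ht1 ht
    rcases Nat.lt_or_ge t 2 with ht2 | ht2
    · rw [Finset.Icc_eq_empty (by omega), sum_empty, abs_zero]
      positivity
    · have h1 := cm_abel c (cmw n) 2 h (2 * M) (fun a _ _ => cmw_nonneg n a)
        (fun a ha ha' => cmw_anti n a ha (by omega)) hS2 t ht2 ht
      exact h1.trans (mul_le_mul_of_nonneg_left (cmw_two n hn4) (by positivity))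
  -- the main identity
  have hmain : conv2 w n - SW w n * JJ n = ∑ a ∈ Icc 2 (n - 2), c a * cmw n a := by
    have e1 : conv2 w n = ∑ a ∈ Icc 2 (n - 2), f1 w a * f1 w (n - a) * cmw n a := by
      unfold conv2
      rw [hsplit _ (n - 1) (by omega)]
      have h1 : f2 w 1 = 0 := by
        unfold f2
        simp
      rw [h1, zero_mul, zero_add]
      have h2 : n - 1 = (n - 2) + 1 := by omega
      rw [h2, sum_Icc_succ_top (by omega)]
      have h3 : n - (n - 2 + 1) = 1 := by omega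
      rw [h3, h1, mul_zero, add_zero]
      refine sum_congr rfl fun a ha => ?_
      unfold f2 cmw
      rw [div_mul_div_comm, mul_one_div]
    rw [e1]
    unfold JJ
    rw [mul_sum, ← sum_sub_distrib]
    refine sum_congr rfl fun a ha => ?_
    rw [hc]
    simp only
    unfold cmw
    ring
  -- reflection
  have hrefl : ∑ a ∈ Icc (h + 1) (n - 2), c a * cmw n a = ∑ a ∈ Icc 2 (h - 1), c a * cmw n a := by
    refine sum_nbij' (fun a => n - a) (fun a => n - a) ?_ ?_ ?_ ?_ ?_
    · intro a ha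
      rw [mem_Icc] at ha ⊢
      omega
    · intro a ha
      rw [mem_Icc] at ha ⊢
      omega
    · intro a ha
      rw [mem_Icc] at ha
      omega
    · intro a ha
      rw [mem_Icc] at ha
      omega
    · intro a ha
      rw [mem_Icc] at ha
      rw [hcsymm a (by omega), cmw_symm n a (by omega)]
  have hun : ∑ a ∈ Icc 2 (n - 2), c a * cmw n a =
      ∑ a ∈ Icc 2 h, c a * cmw n a + ∑ a ∈ Icc 2 (h - 1), c a * cmw n a := by
    rw [← hrefl]
    have h1 : Icc 2 (n - 2) = Icc 2 h ∪ Icc (h + 1) (n - 2) := by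
      ext a
      rw [mem_union, mem_Icc, mem_Icc, mem_Icc]
      omega
    rw [h1, sum_union]
    rw [Finset.disjoint_left]
    intro a ha ha'
    rw [mem_Icc] at ha ha'
    omega
  rw [hmain, hun]
  refine (abs_add_le _ _).trans ?_
  have h1 := habel h (by omega) le_rfl
  have h2 := habel (h - 1) (by omega) (by omega)
  linarith

end Pool.MP_dd84fd_nt.E2
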