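import Pool.Agent.Lib.MP_dd84fd_nt.E2.Defs
import Pool.Agent.Lib.MP_dd84fd_nt.En.Sing

/-!
# rate of convergence of the singular series (module EB-SR)
-/

set_option autoImplicit false

namespace Pool.MP_dd84fd_nt.E2

open Finset Pool.MP_67663b_nt.Odd Pool.MP_dd84fd_nt.En

/-- the Euler factor -/
private noncomputable def srF (p : ℕ) : ℝ := 1 - 1 / ((p : ℝ) - 1) ^ 2

private lemma srF_bounds {p : ℕ} (hp : 2 < p) : 3 / 4 ≤ srF p ∧ srF p ≤ 1 := by
  have h3 : (3 : ℝ) ≤ p := by exact_mod_cast hp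
  have h4 : (4 : ℝ) ≤ ((p : ℝ) - 1) ^ 2 := by nlinarith
  have h5 : 1 / ((p : ℝ) - 1) ^ 2 ≤ 1 / 4 := one_div_le_one_div_of_le (by norm_num) h4
  have h6 : 0 ≤ 1 / ((p : ℝ) - 1) ^ 2 := by positivity
  unfold srF
  constructor <;> linarith

private lemma sr_summable :
    Summable (fun p : {p : ℕ // p.Prime ∧ 2 < p} => -(1 / (((p : ℕ) : ℝ) - 1) ^ 2)) := by
  apply Summable.neg
  have h1 : Summable (fun n : ℕ => 4 * (1 / (n : ℝ) ^ 2)) :=
    (Real.summable_one_div_nat_pow.2 (by norm_num)).mul_left 4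
  have h2 : Summable (fun p : {p : ℕ // p.Prime ∧ 2 < p} => 4 * (1 / ((p : ℕ) : ℝ) ^ 2)) :=
    h1.comp_injective Subtype.val_injective
  refine Summable.of_nonneg_of_le (fun p => by positivity) (fun p => ?_) h2
  have h3 : (3 : ℝ) ≤ (p : ℕ) := by exact_mod_cast p.2.2
  rw [mul_one_div, div_le_div_iff₀ (by nlinarith) (by positivity)]
  nlinarith

private lemma sr_log_summable :
    Summable (fun p : {p : ℕ // p.Prime ∧ 2 < p} => Real.log (srF p)) := by
  have := Real.summable_log_one_add_of_summable sr_summable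
  refine this.congr (fun p => ?_)
  unfold srF
  congr 1

private lemma sr_hasProd :
    HasProd (fun p : {p : ℕ // p.Prime ∧ 2 < p} => srF p)
      (Real.exp (∑' p : {p : ℕ // p.Prime ∧ 2 < p}, Real.log (srF p))) :=
  Real.hasProd_of_hasSum_log (fun p => by have := (srF_bounds p.2.2).1; linarith)
    sr_log_summable.hasSum

private lemma sr_C2_eq : C2 = Real.exp (∑' p : {p : ℕ // p.Prime ∧ 2 < p}, Real.log (srF p)) :=
  sr_hasProd.tprod_eq

/-- the truncated product -/
private noncomputable def srP (w : ℕ) : ℝ := ∏ p ∈ (Icc 3 w).filter Nat.Prime, srF p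

private lemma srP_pos (w : ℕ) : 0 < srP w := by
  unfold srP
  apply Finset.prod_pos
  intro p hp
  rw [mem_filter, mem_Icc] at hp
  have := (srF_bounds (by omega : 2 < p)).1
  linarith

private lemma srP_le_one (w : ℕ) : srP w ≤ 1 := by
  unfold srP
  apply Finset.prod_le_one
  · intro p hp
    rw [mem_filter, mem_Icc] at hp
    have := (srF_bounds (by omega : 2 < p)).1
    linarith
  · intro p hp
    rw [mem_filter, mem_Icc] at hp
    exact (srF_bounds (by omega : 2 < p)).2

private lemma srP_tendsto : Filter.Tendsto srP Filter.atTop (nhds C2) := by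
  have h1 : Filter.Tendsto (fun w : ℕ => (Icc 3 w).subtype (fun p => p.Prime ∧ 2 < p))
      Filter.atTop Filter.atTop := by
    apply Filter.tendsto_atTop_finset_of_monotone
    · intro a b hab
      apply Finset.subtype_mono
      exact Finset.Icc_subset_Icc_right hab
    · intro x
      refine ⟨x, ?_⟩
      rw [Finset.mem_subtype, mem_Icc]
      exact ⟨x.2.2, le_rfl⟩
  have h2 : Filter.Tendsto (fun w : ℕ => ∏ p ∈ (Icc 3 w).subtype (fun p => p.Prime ∧ 2 < p),
      srF p) Filter.atTop (nhds C2) := by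
    have h3 : HasProd (fun p : {p : ℕ // p.Prime ∧ 2 < p} => srF p) C2 := by
      rw [sr_C2_eq]; exact sr_hasProd
    have h4 : Filter.Tendsto (fun s : Finset {p : ℕ // p.Prime ∧ 2 < p} => ∏ p ∈ s, srF p)
        Filter.atTop (nhds C2) := h3
    exact h4.comp h1
  refine h2.congr (fun w => ?_)
  rw [Finset.prod_subtype_eq_prod_filter (fun p : ℕ => srF p)]
  unfold srP
  apply Finset.prod_congr _ (fun _ _ => rfl)
  ext p
  simp only [mem_filter, mem_Icc]
  constructor
  · rintro ⟨h, h2, _⟩; exact ⟨h, h2⟩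
  · rintro ⟨h, h2⟩; exact ⟨h, h2, by omega⟩

private lemma srP_succ_ge (w : ℕ) (hw : 2 ≤ w) : srP w * (1 - 1 / (w : ℝ) ^ 2) ≤ srP (w + 1) := by
  have hwR : (2 : ℝ) ≤ w := by exact_mod_cast hw
  have h1 : (Icc 3 (w + 1)).filter Nat.Prime =
      if (w + 1).Prime then insert (w + 1) ((Icc 3 w).filter Nat.Prime) else
        (Icc 3 w).filter Nat.Prime := by
    ext p
    split_ifs with h
    · simp only [mem_filter, mem_Icc, mem_insert]
      constructor
      · rintro ⟨⟨h1, h2⟩, h3⟩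
        rcases Nat.lt_or_ge w p with h4 | h4
        · exact Or.inl (by omega)
        · exact Or.inr ⟨⟨h1, h4⟩, h3⟩
      · rintro (rfl | ⟨⟨h1, h2⟩, h3⟩)
        · exact ⟨⟨by omega, le_rfl⟩, h⟩
        · exact ⟨⟨h1, by omega⟩, h3⟩
    · simp only [mem_filter, mem_Icc]
      constructor
      · rintro ⟨⟨h1, h2⟩, h3⟩
        rcases Nat.lt_or_ge w p with h4 | h4
        · exfalso
          have : p = w + 1 := by omega
          rw [this] at h3
          exact h h3
        · exact ⟨⟨h1, h4⟩, h3⟩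
      · rintro ⟨⟨h1, h2⟩, h3⟩
        exact ⟨⟨h1, by omega⟩, h3⟩
  have h2 : 0 ≤ 1 / (w : ℝ) ^ 2 := by positivity
  have h3 := (srP_pos w).le
  unfold srP at h3 ⊢
  rw [h1]
  split_ifs with h
  · rw [Finset.prod_insert (by
      rw [mem_filter, mem_Icc]
      intro h4
      omega)]
    have h4 : srF (w + 1) = 1 - 1 / (w : ℝ) ^ 2 := by
      unfold srF
      push_cast
      rw [add_sub_cancel_right]
    rw [h4, mul_comm]
  · nlinarith

private lemma srP_ge (w : ℕ) (hw : 2 ≤ w) (w' : ℕ) (hw' : w ≤ w') :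
    srP w * (1 - 1 / ((w : ℝ) - 1) + 1 / ((w' : ℝ) - 1)) ≤ srP w' := by
  have hwR : (2 : ℝ) ≤ w := by exact_mod_cast hw
  induction w', hw' using Nat.le_induction with
  | base => simp
  | succ w' hw' ih =>
    have hw'R : (w : ℝ) ≤ w' := by exact_mod_cast hw'
    have hp := srP_pos w
    have h1 := srP_succ_ge w' (hw.trans hw')
    refine le_trans ?_ h1
    have hw'0 : (0 : ℝ) < w' := by linarith
    have h2 : (0 : ℝ) ≤ 1 - 1 / (w' : ℝ) ^ 2 := by
      rw [sub_nonneg, div_le_one (by positivity)]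
      nlinarith
    refine le_trans ?_ (mul_le_mul_of_nonneg_right ih h2)
    rw [mul_assoc]
    apply mul_le_mul_of_nonneg_left _ hp.le
    push_cast
    rw [add_sub_cancel_right]
    have h3 : 1 / ((w' : ℝ) - 1) ≤ 1 / ((w : ℝ) - 1) :=
      one_div_le_one_div_of_le (by linarith) (by linarith)
    have h4 : 1 / ((w' : ℝ) - 1) - 1 / (w' : ℝ) ≥ 1 / (w' : ℝ) ^ 2 := by
      rw [ge_iff_le, div_sub_div _ _ (by linarith) (by linarith), div_le_div_iff₀ (by nlinarith)
        (by nlinarith)]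
      nlinarith
    have h5 : 0 ≤ 1 / (w' : ℝ) ^ 2 := by positivity
    set u := 1 - 1 / ((w : ℝ) - 1) + 1 / ((w' : ℝ) - 1) with hu
    have h6 : u * (1 / (w' : ℝ) ^ 2) ≤ 1 * (1 / (w' : ℝ) ^ 2) :=
      mul_le_mul_of_nonneg_right (by linarith) h5
    have h7 : u * (1 - 1 / (w' : ℝ) ^ 2) = u - u * (1 / (w' : ℝ) ^ 2) := by ring
    rw [h7]
    linarith

private lemma sr_C2_ge (w : ℕ) (hw : 2 ≤ w) : srP w * (1 - 1 / ((w : ℝ) - 1)) ≤ C2 := by
  have hwR : (2 : ℝ) ≤ w := by exact_mod_cast hw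
  refine ge_of_tendsto srP_tendsto ?_
  filter_upwards [Filter.eventually_ge_atTop w] with w' hw'
  refine le_trans ?_ (srP_ge w hw w' hw')
  apply mul_le_mul_of_nonneg_left _ (srP_pos w).le
  have hw'R : (w : ℝ) ≤ w' := by exact_mod_cast hw'
  have : 0 ≤ 1 / ((w' : ℝ) - 1) := by
    apply div_nonneg zero_le_one
    linarith
  linarith

private lemma srP_anti : Antitone srP := by
  intro a b hab
  unfold srP
  have hsub : (Icc 3 a).filter Nat.Prime ⊆ (Icc 3 b).filter Nat.Prime :=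
    Finset.filter_subset_filter _ (Finset.Icc_subset_Icc_right hab)
  rw [← Finset.prod_sdiff hsub]
  have h1 : ∏ p ∈ ((Icc 3 b).filter Nat.Prime) \ ((Icc 3 a).filter Nat.Prime), srF p ≤ 1 := by
    apply Finset.prod_le_one
    · intro p hp
      rw [mem_sdiff, mem_filter, mem_Icc] at hp
      have := (srF_bounds (by omega : 2 < p)).1
      linarith
    · intro p hp
      rw [mem_sdiff, mem_filter, mem_Icc] at hp
      exact (srF_bounds (by omega : 2 < p)).2
  have h2 := (srP_pos a).le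
  unfold srP at h2
  nlinarith

private lemma sr_C2_le (w : ℕ) : C2 ≤ srP w :=
  srP_anti.le_of_tendsto srP_tendsto w

private lemma sr_one_le_prod (s : Finset ℕ) (f : ℕ → ℝ) (h : ∀ p ∈ s, 1 ≤ f p) :
    1 ≤ ∏ p ∈ s, f p := by
  calc (1 : ℝ) = ∏ _p ∈ s, (1 : ℝ) := by simp
    _ ≤ _ := Finset.prod_le_prod (fun _ _ => zero_le_one) h

private lemma sr_ratio_ge {p : ℕ} (hp : 2 < p) : 1 ≤ ((p : ℝ) - 1) / ((p : ℝ) - 2) := by
  have h3 : (3 : ℝ) ≤ p := by exact_mod_cast hp
  rw [le_div_iff₀ (by linarith)]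
  linarith

/-- the product over distinct integers is at most `k + 1` -/
private lemma sr_prod_le (s : Finset ℕ) : (∀ p ∈ s, 2 < p) →
    ∏ p ∈ s, ((p : ℝ) - 1) / ((p : ℝ) - 2) ≤ s.card + 1 := by
  induction s using Finset.induction_on_max with
  | empty => simp
  | insert a s ha ih =>
    intro h
    have hs : ∀ p ∈ s, 2 < p := fun p hp => h p (mem_insert_of_mem hp)
    have ha' : a ∉ s := fun h' => lt_irrefl _ (ha a h')
    rw [Finset.prod_insert ha', Finset.card_insert_of_notMem ha']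
    have h1 := ih hs
    have hcard : s.card + 3 ≤ a := by
      have h2 : s ⊆ Ico 3 a := fun p hp => by
        rw [mem_Ico]
        exact ⟨hs p hp, ha p hp⟩
      have h3 := card_le_card h2
      have h4 : 2 < a := h a (mem_insert_self _ _)
      rw [Nat.card_Ico] at h3
      omega
    have hcR : (s.card : ℝ) + 3 ≤ a := by exact_mod_cast hcard
    have h5 : ((a : ℝ) - 1) / ((a : ℝ) - 2) ≤ ((s.card : ℝ) + 2) / ((s.card : ℝ) + 1) := by
      rw [div_le_div_iff₀ (by linarith [Nat.cast_nonneg (α := ℝ) s.card]) (by positivity)]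
      nlinarith
    have h6 : 0 ≤ ∏ p ∈ s, ((p : ℝ) - 1) / ((p : ℝ) - 2) :=
      le_trans zero_le_one (sr_one_le_prod s _ fun p hp => sr_ratio_ge (hs p hp))
    calc ((a : ℝ) - 1) / ((a : ℝ) - 2) * ∏ p ∈ s, ((p : ℝ) - 1) / ((p : ℝ) - 2)
        ≤ ((s.card : ℝ) + 2) / ((s.card : ℝ) + 1) * (s.card + 1) :=
          mul_le_mul h5 h1 h6 (by positivity)
      _ = ((s.card + 1 : ℕ) : ℝ) + 1 := by
          push_cast
          field_simp
          ring

private lemma sr_card_le (n : ℕ) (hn : 0 < n) :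
    (n.primeFactors.card : ℝ) ≤ 3 / 2 * Real.log n := by
  have h1 : 2 ^ n.primeFactors.card ≤ n := by
    calc 2 ^ n.primeFactors.card = ∏ _p ∈ n.primeFactors, 2 := by rw [prod_const]
      _ ≤ ∏ p ∈ n.primeFactors, p :=
          Finset.prod_le_prod' fun p hp => (Nat.prime_of_mem_primeFactors hp).two_le
      _ ≤ n := Nat.le_of_dvd hn (Nat.prod_primeFactors_dvd n)
  have h2 : ((2 : ℝ)) ^ n.primeFactors.card ≤ n := by exact_mod_cast h1
  have h3 := Real.log_le_log (by positivity) h2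
  rw [Real.log_pow] at h3
  have h4 := Real.log_two_gt_d9
  have h5 : (0 : ℝ) ≤ n.primeFactors.card := Nat.cast_nonneg _
  nlinarith

private lemma sr_filter_le (n : ℕ) (hn : 0 < n) (P : ℕ → Prop) [DecidablePred P] :
    ((n.primeFactors.filter P).card : ℝ) ≤ 3 / 2 * Real.log n := by
  refine le_trans ?_ (sr_card_le n hn)
  exact_mod_cast card_filter_le _ _

private lemma sr_log_nonneg (n : ℕ) : 0 ≤ Real.log (n : ℝ) := Real.log_natCast_nonneg n

theorem SS_le (n : ℕ) (hn : 0 < n) : SS n ≤ 4 * (1 + Real.log n) := by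
  unfold SS
  have h1 := sr_prod_le (n.primeFactors.filter (fun p => 2 < p)) fun p hp => (mem_filter.1 hp).2
  have h2 := sr_filter_le n hn (fun p => 2 < p)
  have h3 : C2 ≤ 1 := (sr_C2_le 2).trans (srP_le_one 2)
  have h4 := C2_pos
  have h5 := sr_log_nonneg n
  have h6 : (0 : ℝ) ≤ ∏ p ∈ n.primeFactors.filter (fun p => 2 < p), ((p : ℝ) - 1) / ((p : ℝ) - 2) :=
    le_trans zero_le_one (sr_one_le_prod _ _ fun p hp => sr_ratio_ge (mem_filter.1 hp).2)
  calc 2 * C2 * ∏ p ∈ n.primeFactors.filter (fun p => 2 < p), ((p : ℝ) - 1) / ((p : ℝ) - 2)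
      ≤ 2 * 1 * (3 / 2 * Real.log n + 1) := by
        apply mul_le_mul _ (h1.trans (by linarith)) h6 (by norm_num)
        linarith
    _ ≤ 4 * (1 + Real.log n) := by linarith

theorem sing_rate : ∃ C : ℝ, 0 < C ∧ ∀ n : ℕ, 0 < n → ∀ w : ℕ, 4 * (1 + Real.log n) ≤ w →
    |SS n - SW w n| ≤ C * (1 + Real.log n) ^ 2 / w := by
  refine ⟨48, by norm_num, fun n hn w hw => ?_⟩
  have hl := sr_log_nonneg n
  have hw4 : (4 : ℝ) ≤ w := by linarith
  have hw2 : 2 ≤ w := by
    have : (2 : ℝ) ≤ w := by linarith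
    exact_mod_cast this
  set A : ℝ := ∏ p ∈ n.primeFactors.filter (fun p => 2 < p ∧ p ≤ w), ((p : ℝ) - 1) / ((p : ℝ) - 2)
    with hA
  set Bp : ℝ := ∏ p ∈ n.primeFactors.filter (fun p => 2 < p ∧ w < p), ((p : ℝ) - 1) / ((p : ℝ) - 2)
    with hB
  have hSW : SW w n = 2 * srP w * A := rfl
  have hSS : SS n = 2 * C2 * (A * Bp) := by
    unfold SS
    congr 1
    rw [hA, hB, ← Finset.prod_filter_mul_prod_filter_not (n.primeFactors.filter (fun p => 2 < p))
      (fun p => p ≤ w), Finset.filter_filter, Finset.filter_filter]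
    congr 1
    apply Finset.prod_congr _ (fun _ _ => rfl)
    ext p
    simp only [mem_filter, not_le]
  have hA1 : 1 ≤ A := by
    apply sr_one_le_prod
    intro p hp
    rw [mem_filter] at hp
    exact sr_ratio_ge hp.2.1
  have hB1 : 1 ≤ Bp := by
    apply sr_one_le_prod
    intro p hp
    rw [mem_filter] at hp
    exact sr_ratio_ge hp.2.1
  have hA2 : A ≤ 2 * (1 + Real.log n) := by
    have h1 := sr_prod_le (n.primeFactors.filter (fun p => 2 < p ∧ p ≤ w))
      fun p hp => (mem_filter.1 hp).2.1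
    have h2 := sr_filter_le n hn (fun p => 2 < p ∧ p ≤ w)
    rw [← hA] at h1
    linarith
  have hB2 : Bp - 1 ≤ 3 * Real.log n / ((w : ℝ) - 1) := by
    set k : ℕ := (n.primeFactors.filter (fun p => 2 < p ∧ w < p)).card with hk
    have hk2 : (k : ℝ) ≤ 3 / 2 * Real.log n := sr_filter_le n hn (fun p => 2 < p ∧ w < p)
    have h1 : Bp ≤ Real.exp (k * (1 / ((w : ℝ) - 1))) := by
      rw [Real.exp_nat_mul, hB, hk, ← prod_const]
      apply Finset.prod_le_prod
      · intro p hp
        rw [mem_filter] at hp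
        exact le_trans zero_le_one (sr_ratio_ge hp.2.1)
      · intro p hp
        rw [mem_filter] at hp
        have hp1 : (w : ℝ) + 1 ≤ p := by exact_mod_cast hp.2.2
        have h2 : ((p : ℝ) - 1) / ((p : ℝ) - 2) = 1 / ((p : ℝ) - 2) + 1 := by
          rw [div_add_one (by linarith)]
          congr 1
          ring
        rw [h2]
        have h3 : 1 / ((p : ℝ) - 2) ≤ 1 / ((w : ℝ) - 1) :=
          one_div_le_one_div_of_le (by linarith) (by linarith)
        have h4 := Real.add_one_le_exp (1 / ((w : ℝ) - 1))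
        linarith
    have hx0 : 0 ≤ (k : ℝ) * (1 / ((w : ℝ) - 1)) := by
      apply mul_nonneg (Nat.cast_nonneg _)
      apply div_nonneg zero_le_one
      linarith
    have hx1 : (k : ℝ) * (1 / ((w : ℝ) - 1)) ≤ 1 := by
      rw [mul_one_div, div_le_one (by linarith)]
      linarith
    have h2 := Real.abs_exp_sub_one_le (x := (k : ℝ) * (1 / ((w : ℝ) - 1)))
      (by rw [abs_of_nonneg hx0]; exact hx1)
    rw [abs_of_nonneg hx0] at h2
    have h3 := (le_abs_self _).trans h2
    have h4 : 2 * ((k : ℝ) * (1 / ((w : ℝ) - 1))) ≤ 3 * Real.log n / ((w : ℝ) - 1) := by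
      rw [mul_one_div, ← mul_div_assoc, div_le_div_iff_of_pos_right (by linarith)]
      linarith
    linarith
  have hP := srP_pos w
  have hP1 := srP_le_one w
  have hPC := sr_C2_le w
  have hPC' := sr_C2_ge w hw2
  have hC := C2_pos
  have hw1 : 0 < (w : ℝ) - 1 := by linarith
  have hinv : 0 ≤ 1 / ((w : ℝ) - 1) := by positivity
  have hinv2 : 1 / ((w : ℝ) - 1) ≤ 2 / w := by
    rw [div_le_div_iff₀ hw1 (by linarith)]
    linarith
  have key : |C2 * Bp - srP w| ≤ (1 + 3 * Real.log n) * (1 / ((w : ℝ) - 1)) := by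
    rw [abs_le]
    constructor
    · have h1 : C2 ≤ C2 * Bp := by nlinarith
      have h2 : srP w * (1 / ((w : ℝ) - 1)) ≤ 1 * (1 / ((w : ℝ) - 1)) :=
        mul_le_mul_of_nonneg_right hP1 hinv
      have h3 : 0 ≤ 3 * Real.log n * (1 / ((w : ℝ) - 1)) := by positivity
      nlinarith
    · have h1 : C2 * Bp ≤ srP w * Bp := mul_le_mul_of_nonneg_right hPC (by linarith)
      have h2 : srP w * (Bp - 1) ≤ 1 * (Bp - 1) :=
        mul_le_mul_of_nonneg_right hP1 (by linarith)
      have h3 : 3 * Real.log n / ((w : ℝ) - 1) = 3 * Real.log n * (1 / ((w : ℝ) - 1)) := by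
        rw [mul_one_div]
      rw [h3] at hB2
      nlinarith
  have hfin : |SS n - SW w n| = 2 * A * |C2 * Bp - srP w| := by
    have h1 : SS n - SW w n = 2 * A * (C2 * Bp - srP w) := by
      rw [hSS, hSW]
      ring
    rw [h1, abs_mul, abs_of_nonneg (by linarith : 0 ≤ 2 * A)]
  rw [hfin]
  calc 2 * A * |C2 * Bp - srP w|
      ≤ 2 * (2 * (1 + Real.log n)) * ((1 + 3 * Real.log n) * (2 / w)) := by
        apply mul_le_mul (by linarith) _ (abs_nonneg _) (by linarith)
        refine key.trans ?_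
        exact mul_le_mul_of_nonneg_left hinv2 (by linarith)
    _ ≤ 2 * (2 * (1 + Real.log n)) * ((3 * (1 + Real.log n)) * (2 / w)) := by
        apply mul_le_mul_of_nonneg_left _ (by linarith)
        apply mul_le_mul_of_nonneg_right _ (by positivity)
        linarith
    _ ≤ 48 * (1 + Real.log n) ^ 2 / w := by
        rw [le_div_iff₀ (by linarith)]
        have h1 : 2 * (2 * (1 + Real.log n)) * (3 * (1 + Real.log n) * (2 / w)) * w =
            24 * (1 + Real.log n) ^ 2 := by
          field_simp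
          ring
        rw [h1]
        nlinarith [sq_nonneg (1 + Real.log n)]

theorem JJ_le (n : ℕ) : JJ n ≤ 3 * n := by
  unfold JJ
  have h2 := Real.log_two_gt_d9
  have h1 : ∀ m ∈ Icc 2 (n - 2), 1 / (Real.log (m : ℝ) * Real.log ((n - m : ℕ) : ℝ)) ≤ 3 := by
    intro m hm
    rw [mem_Icc] at hm
    have h3 : Real.log 2 ≤ Real.log (m : ℝ) :=
      Real.log_le_log (by norm_num) (by exact_mod_cast hm.1)
    have h4 : Real.log 2 ≤ Real.log ((n - m : ℕ) : ℝ) :=
      Real.log_le_log (by norm_num) (by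
        have : 2 ≤ n - m := by omega
        exact_mod_cast this)
    rw [div_le_iff₀ (mul_pos (by linarith) (by linarith))]
    nlinarith
  refine (sum_le_card_nsmul _ _ _ h1).trans ?_
  rw [nsmul_eq_mul, Nat.card_Icc]
  have h3 : ((n - 2 + 1 - 2 : ℕ) : ℝ) ≤ n := by
    have : n - 2 + 1 - 2 ≤ n := by omega
    exact_mod_cast this
  linarith

theorem JJ_nonneg (n : ℕ) : 0 ≤ JJ n := by
  unfold JJ
  refine sum_nonneg fun m _ => ?_
  exact div_nonneg zero_le_one (mul_nonneg (Real.log_natCast_nonneg _) (Real.log_natCast_nonneg _))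

end Pool.MP_dd84fd_nt.E2
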