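import Pool.Agent.Lib.MP_dd84fd_nt.E2.RoughClass

/-!
# pairs of rough numbers with given sum (module EB-CR)
-/

set_option autoImplicit false

namespace Pool.MP_dd84fd_nt.E2

open Finset Pool.MP_67663b_nt.Odd Pool.MP_dd84fd_nt.En

/-- the function `[(d, n) = 1] / φ(d)` -/
private noncomputable def crF (n : ℕ) : ArithmeticFunction ℝ :=
  ⟨fun d => if Nat.Coprime d n then 1 / (Nat.totient d : ℝ) else 0, by simp⟩

private theorem crF_apply (n d : ℕ) :
    crF n d = if Nat.Coprime d n then 1 / (Nat.totient d : ℝ) else 0 := rfl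

private theorem crF_mult (r : ℕ) : (crF r).IsMultiplicative := by
  constructor
  · simp [crF_apply]
  · intro m n hmn
    rw [crF_apply, crF_apply, crF_apply]
    by_cases h1 : Nat.Coprime m r
    · by_cases h2 : Nat.Coprime n r
      · rw [if_pos h1, if_pos h2, if_pos (h1.mul_left h2), Nat.totient_mul hmn]
        push_cast
        rw [one_div_mul_one_div]
      · rw [if_neg h2, mul_zero, if_neg]
        exact fun h => h2 (Nat.Coprime.coprime_mul_left h)
    · rw [if_neg h1, zero_mul, if_neg]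
      exact fun h => h1 (Nat.Coprime.coprime_mul_right h)

private theorem cr_primeFactors (w : ℕ) :
    (primorial w).primeFactors = (Icc 1 w).filter Nat.Prime := by
  ext p
  rw [primeFactors_primorial, Nat.mem_primesLE, mem_filter, mem_Icc]
  constructor
  · rintro ⟨h1, h2⟩
    exact ⟨⟨h2.one_lt.le, h1⟩, h2⟩
  · rintro ⟨⟨-, h1⟩, h2⟩
    exact ⟨h1, h2⟩

private theorem cr_ratio (w : ℕ) :
    (primorial w : ℝ) / (Nat.totient (primorial w) : ℝ) =
      ∏ p ∈ (Icc 1 w).filter Nat.Prime, ((p : ℝ) / ((p : ℝ) - 1)) := by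
  have h := Nat.totient_eq_mul_prod_factors (primorial w)
  have h2 := congrArg (fun x : ℚ => (x : ℝ)) h
  push_cast at h2
  have hP' : (0 : ℝ) < primorial w := by exact_mod_cast primorial_pos w
  rw [h2, cr_primeFactors]
  have h3 : ∏ p ∈ (Icc 1 w).filter Nat.Prime, ((p : ℝ) / ((p : ℝ) - 1)) =
      (∏ p ∈ (Icc 1 w).filter Nat.Prime, (1 - (p : ℝ)⁻¹))⁻¹ := by
    rw [← Finset.prod_inv_distrib]
    refine Finset.prod_congr rfl fun p hp => ?_
    rw [mem_filter] at hp
    have h1 : (1 : ℝ) < p := by exact_mod_cast hp.2.one_lt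
    have h0 : (p : ℝ) - 1 ≠ 0 := by linarith
    have h0' : (p : ℝ) ≠ 0 := by linarith
    rw [show (1 : ℝ) - (p : ℝ)⁻¹ = ((p : ℝ) - 1) / p by field_simp, inv_div]
  rw [h3, div_mul_eq_div_div, div_self hP'.ne', one_div]

/-- the complete sum is the truncated singular series -/
theorem CR_dens (w n : ℕ) (hw : 2 ≤ w) (hn : Even n) (hn0 : 0 < n) :
    (primorial w : ℝ) / (Nat.totient (primorial w) : ℝ) *
      (∑ d ∈ (primorial w).divisors with Nat.Coprime d n,
        (ArithmeticFunction.moebius d : ℝ) * (1 / (Nat.totient d : ℝ))) = SW w n := by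
  have h1 := (crF_mult n).prodPrimeFactors_one_sub_of_squarefree (crF n) (squarefree_primorial w)
  have h2 : ∑ d ∈ (primorial w).divisors, (ArithmeticFunction.moebius d : ℝ) * crF n d =
      ∑ d ∈ (primorial w).divisors with Nat.Coprime d n,
        (ArithmeticFunction.moebius d : ℝ) * (1 / (Nat.totient d : ℝ)) := by
    rw [Finset.sum_filter]
    refine Finset.sum_congr rfl fun d _ => ?_
    rw [crF_apply]
    split_ifs <;> simp
  rw [← h2, ← h1, cr_primeFactors, cr_ratio, ← Finset.prod_mul_distrib]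
  unfold SW
  have e : (Icc 1 w).filter Nat.Prime = insert 2 ((Icc 3 w).filter Nat.Prime) := by
    ext p
    simp only [mem_filter, mem_Icc, mem_insert]
    constructor
    · rintro ⟨⟨h1, h2⟩, h3⟩
      by_cases h4 : p = 2
      · exact Or.inl h4
      · have := h3.two_le
        exact Or.inr ⟨⟨by omega, h2⟩, h3⟩
    · rintro (rfl | ⟨⟨h1, h2⟩, h3⟩)
      · exact ⟨⟨by omega, hw⟩, Nat.prime_two⟩
      · exact ⟨⟨by omega, h2⟩, h3⟩
  rw [e, Finset.prod_insert (by simp)]
  have h2n : 2 ∣ n := hn.two_dvd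
  have hfirst : (((2 : ℕ) : ℝ) / (((2 : ℕ) : ℝ) - 1)) * (1 - crF n 2) = 2 := by
    rw [crF_apply, if_neg]
    · norm_num
    · rw [Nat.prime_two.coprime_iff_not_dvd, not_not]
      exact h2n
  rw [hfirst, mul_assoc]
  congr 1
  -- the remaining product
  have e2 : n.primeFactors.filter (fun p => 2 < p ∧ p ≤ w) =
      ((Icc 3 w).filter Nat.Prime).filter (fun p => p ∣ n) := by
    ext p
    simp only [mem_filter, mem_Icc, Nat.mem_primeFactors]
    constructor
    · rintro ⟨⟨h1, h2, _⟩, h3, h4⟩; exact ⟨⟨⟨by omega, h4⟩, h1⟩, h2⟩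
    · rintro ⟨⟨⟨h1, h2⟩, h3⟩, h4⟩; exact ⟨⟨h3, h4, by omega⟩, by omega, h2⟩
  rw [e2, Finset.prod_filter (fun p => p ∣ n), ← Finset.prod_mul_distrib]
  apply Finset.prod_congr rfl
  intro p hp
  rw [mem_filter, mem_Icc] at hp
  have h3 : (3 : ℝ) ≤ p := by exact_mod_cast hp.1.1
  have h4 : (p : ℝ) - 1 ≠ 0 := by linarith
  have h5 : (p : ℝ) - 2 ≠ 0 := by linarith
  have h6 : (p : ℝ) ≠ 0 := by linarith
  rw [crF_apply, Nat.totient_prime hp.2, Nat.cast_sub hp.2.one_lt.le, Nat.cast_one]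
  by_cases h : p ∣ n
  · rw [if_neg (fun hc => (hp.2.coprime_iff_not_dvd.mp hc) h), if_pos h]
    field_simp
    ring
  · rw [if_pos (hp.2.coprime_iff_not_dvd.mpr h), if_neg h]
    field_simp
    ring

/-- Möbius inversion on `n - a` -/
theorem CR_expand (w n t : ℕ) (ht : t < n) :
    ∑ a ∈ Icc 1 t, f1 w a * f1 w (n - a) =
      (primorial w : ℝ) / (Nat.totient (primorial w) : ℝ) *
        ∑ d ∈ (primorial w).divisors, (ArithmeticFunction.moebius d : ℝ) *
          ∑ a ∈ (Icc 1 t).filter (fun a => a ≡ n [MOD d]), f1 w a := by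
  have hP : 0 < primorial w := primorial_pos w
  set κ : ℝ := (primorial w : ℝ) / (Nat.totient (primorial w) : ℝ) with hκ
  have h1 : ∀ a ∈ Icc 1 t, f1 w a * f1 w (n - a) =
      ∑ d ∈ (primorial w).divisors, κ * ((ArithmeticFunction.moebius d : ℝ) *
        (if a ≡ n [MOD d] then f1 w a else 0)) := by
    intro a ha
    rw [mem_Icc] at ha
    have h2 : f1 w (n - a) = κ * ∑ d ∈ (primorial w).divisors with d ∣ (n - a),
        (ArithmeticFunction.moebius d : ℝ) := by
      rw [RC_moebius (primorial w) hP (n - a)]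
      unfold f1
      split_ifs <;> simp [hκ]
    rw [h2, Finset.sum_filter, ← Finset.mul_sum, mul_left_comm, Finset.mul_sum]
    congr 1
    refine Finset.sum_congr rfl fun d _ => ?_
    have h3 : (a ≡ n [MOD d]) ↔ d ∣ (n - a) := Nat.modEq_iff_dvd' (by omega)
    by_cases h4 : d ∣ (n - a)
    · rw [if_pos h4, if_pos (h3.mpr h4), mul_comm]
    · rw [if_neg h4, if_neg (fun h => h4 (h3.mp h)), mul_zero, mul_zero]
  rw [Finset.sum_congr rfl h1, Finset.sum_comm, Finset.mul_sum]
  refine Finset.sum_congr rfl fun d _ => ?_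
  rw [← Finset.mul_sum, ← Finset.mul_sum, Finset.sum_filter]

/-- `d / φ(d)` is at most `P / φ(P)` -/
theorem CR_totient (w d : ℕ) (hd : d ∣ primorial w) :
    1 / (Nat.totient d : ℝ) ≤
      (primorial w : ℝ) / (Nat.totient (primorial w) : ℝ) * (1 / (d : ℝ)) := by
  have hP : 0 < primorial w := primorial_pos w
  obtain ⟨e, he⟩ := hd
  have hd0 : 0 < d := Nat.pos_of_ne_zero (by rintro rfl; simp at he; omega)
  have he0 : 0 < e := Nat.pos_of_ne_zero (by rintro rfl; simp at he; omega)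
  have hcop : Nat.Coprime d e := by
    apply Nat.coprime_of_squarefree_mul
    rw [← he]
    exact squarefree_primorial w
  rw [he, Nat.totient_mul hcop]
  have h1 : (0 : ℝ) < Nat.totient d := by exact_mod_cast Nat.totient_pos.mpr hd0
  have h2 : (0 : ℝ) < Nat.totient e := by exact_mod_cast Nat.totient_pos.mpr he0
  have h3 : (Nat.totient e : ℝ) ≤ e := by exact_mod_cast Nat.totient_le e
  have h4 : (0 : ℝ) < d := by exact_mod_cast hd0
  push_cast
  have e1 : (d : ℝ) * e / (Nat.totient d * Nat.totient e) * (1 / (d : ℝ)) =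
      1 / (Nat.totient d : ℝ) * ((e : ℝ) / Nat.totient e) := by
    field_simp
  rw [e1]
  have h5 : 1 ≤ (e : ℝ) / Nat.totient e := by rwa [le_div_iff₀ h2, one_mul]
  have h6 : 0 < 1 / (Nat.totient d : ℝ) := by positivity
  nlinarith

/-- the terms of large modulus -/
theorem CR_large (w n X t d : ℕ) (hnX : n ≤ X) (ht : t < n) (hd : 1 ≤ d) :
    ∑ a ∈ (Icc 1 t).filter (fun a => a ≡ n [MOD d]), f1 w a ≤
      (primorial w : ℝ) / (Nat.totient (primorial w) : ℝ) *
        ((X : ℝ) * (1 / (d : ℝ)) + if (d : ℝ) ≤ X then 1 else 0) := by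
  set κ : ℝ := (primorial w : ℝ) / (Nat.totient (primorial w) : ℝ) with hκ
  have hκ0 : 0 ≤ κ := by positivity
  have hd0 : (0 : ℝ) < d := by exact_mod_cast hd
  by_cases h : (d : ℝ) ≤ X
  · rw [if_pos h]
    have h1 : ∀ a ∈ (Icc 1 t).filter (fun a => a ≡ n [MOD d]), f1 w a ≤ κ := by
      intro a _
      unfold f1
      split_ifs
      · exact le_rfl
      · exact hκ0
    refine (Finset.sum_le_card_nsmul _ _ _ h1).trans ?_
    rw [nsmul_eq_mul, mul_comm]
    apply mul_le_mul_of_nonneg_left _ hκ0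
    have h2 := (abs_le.mp (RC_count t d n (by omega))).2
    have h3 : (t : ℝ) / d ≤ X * (1 / (d : ℝ)) := by
      rw [mul_one_div]
      apply div_le_div_of_nonneg_right _ hd0.le
      exact_mod_cast (by omega : t ≤ X)
    linarith
  · rw [if_neg h, Finset.filter_false_of_mem, Finset.sum_empty]
    · positivity
    · intro a ha hmod
      rw [mem_Icc] at ha
      have h3 : d ∣ (n - a) := (Nat.modEq_iff_dvd' (by omega)).mp hmod
      have h4 := Nat.le_of_dvd (by omega) h3
      apply h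
      exact_mod_cast (by omega : d ≤ X)

theorem conv_rough (D : ℕ) (hD : 1 ≤ D) : ∃ η : ℝ, 0 < η ∧ η ≤ 1 / 4 ∧ ∃ X0 : ℕ,
    ∀ X : ℕ, X0 ≤ X → ∀ w : ℕ, 2 ≤ w → (w : ℝ) ≤ (Real.log X) ^ D → ∀ n : ℕ, n ≤ X → Even n →
    0 < n → ∀ t : ℕ, t < n →
    |∑ a ∈ Icc 1 t, f1 w a * f1 w (n - a) - (t : ℝ) * SW w n| ≤ (X : ℝ) ^ (1 - η) := by
  have hD0 : (0 : ℝ) < D := by exact_mod_cast hD
  have hD1 : (1 : ℝ) ≤ D := by exact_mod_cast hD
  set σ : ℝ := 1 / (2 * (D : ℝ)) with hσ
  have hσ0 : 0 < σ := by positivity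
  have hσ1 : σ ≤ 1 / 2 := by
    rw [hσ, div_le_div_iff₀ (by positivity) (by norm_num)]
    linarith
  obtain ⟨η0, hη0, hη1, X1, hX1⟩ := rough_class D hD
  have hση : 0 < σ * η0 := by positivity
  have hση1 : σ * η0 ≤ η0 / 2 := by nlinarith
  have hση2 : σ * η0 ≤ σ / 4 := by nlinarith
  obtain ⟨X2, hX2⟩ := rankin D hD (ε := σ * η0 / 8) (by positivity)
  obtain ⟨X3, hX3⟩ := f1_le D
  obtain ⟨X4, hX4⟩ := RC_loglarge (κ := σ * η0 / 8) (by positivity) 2
  refine ⟨σ * η0 / 8, by positivity, by linarith, max (max X1 X2) (max (max X3 X4) 3), ?_⟩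
  intro X hX w hw2 hw n hnX hne hn0 t ht
  have hXX1 : X1 ≤ X := (le_max_left _ _).trans ((le_max_left _ _).trans hX)
  have hXX2 : X2 ≤ X := (le_max_right _ _).trans ((le_max_left _ _).trans hX)
  have hXX3 : X3 ≤ X :=
    (le_max_left _ _).trans ((le_max_left _ _).trans ((le_max_right _ _).trans hX))
  have hXX4 : X4 ≤ X :=
    (le_max_right _ _).trans ((le_max_left _ _).trans ((le_max_right _ _).trans hX))
  have hXX5 : 3 ≤ X := (le_max_right _ _).trans ((le_max_right _ _).trans hX)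
  have hX3r : (3 : ℝ) ≤ X := by exact_mod_cast hXX5
  have hXr : (1 : ℝ) ≤ X := by linarith
  have hX0' : (0 : ℝ) < X := by linarith
  have hlog1 : 1 ≤ Real.log X := by
    rw [← Real.log_exp 1]
    apply Real.log_le_log (Real.exp_pos 1)
    have := Real.exp_one_lt_d9
    linarith
  obtain ⟨hratio, -⟩ := hX3 X hXX3 w hw
  have hdens := CR_dens w n hw2 hne hn0
  have hexp := CR_expand w n t ht
  set κ : ℝ := (primorial w : ℝ) / (Nat.totient (primorial w) : ℝ) with hκ
  have hκ0 : 0 ≤ κ := by positivity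
  set Dv := (primorial w).divisors with hDv
  set z : ℝ := (X : ℝ) ^ (η0 / 2) with hz
  have hz1 : 1 ≤ z := Real.one_le_rpow hXr (by positivity)
  have hz0 : 0 < z := by linarith
  obtain ⟨hr1, -⟩ := hX2 X hXX2 w hw z hz1
  obtain ⟨-, hr2⟩ := hX2 X hXX2 w hw X hXr
  have hmain : (t : ℝ) * SW w n = κ * ∑ d ∈ Dv, (ArithmeticFunction.moebius d : ℝ) *
      (if Nat.Coprime d n then (t : ℝ) / (Nat.totient d : ℝ) else 0) := by
    rw [← hdens, Finset.sum_filter, mul_left_comm, Finset.mul_sum]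
    congr 1
    refine Finset.sum_congr rfl fun d _ => ?_
    split_ifs
    · rw [mul_one_div, mul_div_assoc', mul_div_assoc', mul_comm]
    · simp
  rw [hexp, hmain, ← mul_sub, ← Finset.sum_sub_distrib, abs_mul, abs_of_nonneg hκ0]
  have htX : (t : ℝ) ≤ X := by exact_mod_cast (by omega : t ≤ X)
  have hterm : ∀ d ∈ Dv, |(ArithmeticFunction.moebius d : ℝ) *
        ∑ a ∈ (Icc 1 t).filter (fun a => a ≡ n [MOD d]), f1 w a -
        (ArithmeticFunction.moebius d : ℝ) *
          (if Nat.Coprime d n then (t : ℝ) / (Nat.totient d : ℝ) else 0)| ≤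
      (if (d : ℝ) ≤ z then (X : ℝ) ^ (1 - η0) else 0) +
      (2 * κ * X * (if z < (d : ℝ) then 1 / (d : ℝ) else 0) +
        κ * (if (d : ℝ) ≤ X then 1 else 0)) := by
    intro d hd
    have hd1 : 1 ≤ d := Nat.pos_of_mem_divisors hd
    have hdP : d ∣ primorial w := (Nat.mem_divisors.mp hd).1
    have hd1' : (0 : ℝ) < d := by exact_mod_cast hd1
    have hmu : |(ArithmeticFunction.moebius d : ℝ)| ≤ 1 := by
      exact_mod_cast ArithmeticFunction.abs_moebius_le_one
    rw [← mul_sub, abs_mul]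
    have hG0 : 0 ≤ ∑ a ∈ (Icc 1 t).filter (fun a => a ≡ n [MOD d]), f1 w a :=
      Finset.sum_nonneg fun a _ => f1_nonneg w a
    have hb : |∑ a ∈ (Icc 1 t).filter (fun a => a ≡ n [MOD d]), f1 w a -
          (if Nat.Coprime d n then (t : ℝ) / (Nat.totient d : ℝ) else 0)| ≤
        (if (d : ℝ) ≤ z then (X : ℝ) ^ (1 - η0) else 0) +
        (2 * κ * X * (if z < (d : ℝ) then 1 / (d : ℝ) else 0) +
          κ * (if (d : ℝ) ≤ X then 1 else 0)) := by
      by_cases hcop : Nat.Coprime d n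
      · rw [if_pos hcop]
        rcases le_or_gt (d : ℝ) z with h1 | h1
        · rw [if_pos h1]
          have h2 : d ≤ X := by
            have h3 : z ≤ (X : ℝ) ^ (1 : ℝ) := by
              apply Real.rpow_le_rpow_of_exponent_le hXr
              linarith
            rw [Real.rpow_one] at h3
            exact_mod_cast h1.trans h3
          have h4 := hX1 X hXX1 w hw d hd1 h2
            (fun p hp hpd => by
              have h5 : p ∈ (primorial w).primeFactors :=
                Nat.mem_primeFactors.mpr ⟨hp, hpd.trans hdP, (primorial_pos w).ne'⟩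
              rw [cr_primeFactors, mem_filter, mem_Icc] at h5
              exact h5.1.2) n hcop.symm t (by omega)
          have h6 : 0 ≤ 2 * κ * X * (if z < (d : ℝ) then 1 / (d : ℝ) else 0) +
              κ * (if (d : ℝ) ≤ X then 1 else 0) := by
            split_ifs <;> positivity
          linarith
        · rw [if_neg (not_le.mpr h1), if_pos h1, zero_add]
          have h2 := CR_large w n X t d hnX ht hd1
          rw [← hκ] at h2
          have h3 := CR_totient w d hdP
          rw [← hκ] at h3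
          have h4 : (t : ℝ) / (Nat.totient d : ℝ) ≤ X * (κ * (1 / (d : ℝ))) := by
            rw [div_eq_mul_one_div]
            apply mul_le_mul htX h3 (by positivity) hX0'.le
          have h5 : 0 ≤ (t : ℝ) / (Nat.totient d : ℝ) := by positivity
          have h6 : 0 ≤ X * (κ * (1 / (d : ℝ))) := by positivity
          have h7 : 0 ≤ κ * (if (d : ℝ) ≤ X then (1 : ℝ) else 0) := by
            split_ifs <;> positivity
          rw [abs_le]
          constructor
          · linarith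
          · linarith
      · rw [if_neg hcop, sub_zero, abs_of_nonneg hG0]
        have h0 : ∑ a ∈ (Icc 1 t).filter (fun a => a ≡ n [MOD d]), f1 w a = 0 := by
          refine Finset.sum_eq_zero fun a ha => ?_
          rw [mem_filter] at ha
          obtain ⟨p, hp, hpd, hpn⟩ := Nat.Prime.not_coprime_iff_dvd.mp hcop
          unfold f1
          rw [if_neg]
          intro hc
          have h3 : a ≡ n [MOD p] := ha.2.of_dvd hpd
          have h4 : p ∣ a := (h3.dvd_iff dvd_rfl).mpr hpn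
          have h5 : p ∣ Nat.gcd a (primorial w) := Nat.dvd_gcd h4 (hpd.trans hdP)
          rw [hc] at h5
          exact hp.one_lt.ne' (Nat.dvd_one.mp h5)
        rw [h0]
        split_ifs <;> positivity
    calc |(ArithmeticFunction.moebius d : ℝ)| * _ ≤ 1 * _ :=
          mul_le_mul hmu hb (abs_nonneg _) zero_le_one
      _ = _ := one_mul _
  have hsum := (Finset.abs_sum_le_sum_abs _ _).trans (Finset.sum_le_sum hterm)
  rw [Finset.sum_add_distrib, Finset.sum_add_distrib, ← Finset.mul_sum, ← Finset.mul_sum,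
    ← Finset.sum_filter, ← Finset.sum_filter, ← Finset.sum_filter, Finset.sum_const, nsmul_eq_mul,
    Finset.sum_const, nsmul_eq_mul, mul_one] at hsum
  set E : ℝ := (X : ℝ) ^ (1 - 3 * (σ * η0) / 8) with hE
  have hE0 : 0 < E := by positivity
  -- the number of small divisors
  have hcard : ((Dv.filter (fun d : ℕ => (d : ℝ) ≤ z)).card : ℝ) ≤ z := by
    have h1 : Dv.filter (fun d : ℕ => (d : ℝ) ≤ z) ⊆ Icc 1 ⌊z⌋₊ := by
      intro d hd
      rw [mem_filter] at hd
      rw [mem_Icc]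
      exact ⟨Nat.pos_of_mem_divisors hd.1, Nat.le_floor hd.2⟩
    have h2 := Finset.card_le_card h1
    rw [Nat.card_Icc, Nat.add_sub_cancel] at h2
    calc ((Dv.filter (fun d : ℕ => (d : ℝ) ≤ z)).card : ℝ) ≤ (⌊z⌋₊ : ℝ) := by exact_mod_cast h2
      _ ≤ z := Nat.floor_le hz0.le
  have b1 : ((Dv.filter (fun d : ℕ => (d : ℝ) ≤ z)).card : ℝ) * (X : ℝ) ^ (1 - η0) ≤ E := by
    calc ((Dv.filter (fun d : ℕ => (d : ℝ) ≤ z)).card : ℝ) * (X : ℝ) ^ (1 - η0) ≤
        z * (X : ℝ) ^ (1 - η0) := mul_le_mul_of_nonneg_right hcard (by positivity)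
      _ = (X : ℝ) ^ (1 - η0 / 2) := by
          rw [hz, ← Real.rpow_add hX0']
          congr 1
          ring
      _ ≤ E := Real.rpow_le_rpow_of_exponent_le hXr (by linarith)
  have b2 : X * ∑ d ∈ Dv.filter (fun d : ℕ => z < (d : ℝ)), 1 / (d : ℝ) ≤ E := by
    calc X * ∑ d ∈ Dv.filter (fun d : ℕ => z < (d : ℝ)), 1 / (d : ℝ) ≤
        X * ((X : ℝ) ^ (σ * η0 / 8) * z ^ (-σ)) := mul_le_mul_of_nonneg_left hr1 hX0'.le
      _ = E := by
          rw [hz, ← Real.rpow_mul hX0'.le, ← Real.rpow_add hX0', ← Real.rpow_one_add' hX0'.le]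
          · congr 1
            ring
          · nlinarith
  have b3 : ((Dv.filter (fun d : ℕ => (d : ℝ) ≤ X)).card : ℝ) ≤ E := by
    refine hr2.trans ?_
    rw [← Real.rpow_add hX0']
    exact Real.rpow_le_rpow_of_exponent_le hXr (by linarith)
  have hfin := hX4 X hXX4
  have hκ1 : κ ≤ Real.log X := hratio
  have hA : κ * (E + (2 * κ * E + κ * E)) ≤ 4 * Real.log X ^ 2 * E := by
    have h1 : κ * (E + (2 * κ * E + κ * E)) = (κ + 3 * κ ^ 2) * E := by ring
    rw [h1]
    apply mul_le_mul_of_nonneg_right _ hE0.le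
    nlinarith
  have hB : 4 * Real.log X ^ 2 ≤ (X : ℝ) ^ (σ * η0 / 4) := by
    have h1 : (X : ℝ) ^ (σ * η0 / 4) = ((X : ℝ) ^ (σ * η0 / 8)) ^ 2 := by
      rw [← Real.rpow_natCast, ← Real.rpow_mul hX0'.le]
      congr 1
      push_cast
      ring
    rw [h1]
    have h2 : 0 ≤ 2 * Real.log X := by linarith
    calc 4 * Real.log X ^ 2 = (2 * Real.log X) ^ 2 := by ring
      _ ≤ _ := pow_le_pow_left₀ h2 hfin 2
  calc κ * _ ≤ κ * (E + (2 * κ * E + κ * E)) := by
        apply mul_le_mul_of_nonneg_left _ hκ0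
        refine hsum.trans ?_
        have c1 : 2 * κ * X * ∑ d ∈ Dv.filter (fun d : ℕ => z < (d : ℝ)), 1 / (d : ℝ) ≤
            2 * κ * E := by
          rw [mul_assoc (2 * κ)]
          exact mul_le_mul_of_nonneg_left b2 (by positivity)
        have c2 := mul_le_mul_of_nonneg_left b3 hκ0
        linarith
    _ ≤ 4 * Real.log X ^ 2 * E := hA
    _ ≤ (X : ℝ) ^ (σ * η0 / 4) * E := mul_le_mul_of_nonneg_right hB hE0.le
    _ = (X : ℝ) ^ (1 - σ * η0 / 8) := by
        rw [hE, ← Real.rpow_add hX0']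
        congr 1
        ring

end Pool.MP_dd84fd_nt.E2
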