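import Pool.Agent.Lib.MP_dd84fd_nt.E2.Rankin
import Pool.Agent.Lib.MP_dd84fd_nt.E2.FBound

/-!
# rough numbers in residue classes with power saving (module EB-RC)
-/

set_option autoImplicit false

namespace Pool.MP_dd84fd_nt.E2

open Finset Pool.MP_67663b_nt.Odd Pool.MP_dd84fd_nt.En

/-- Möbius detection of coprimality -/
theorem RC_moebius (P : ℕ) (hP : 0 < P) (n : ℕ) :
    ∑ d ∈ P.divisors with d ∣ n, (ArithmeticFunction.moebius d : ℝ) =
      if Nat.Coprime n P then 1 else 0 := by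
  have h1 : P.divisors.filter (fun d => d ∣ n) = (Nat.gcd n P).divisors := by
    ext d
    simp only [mem_filter, Nat.mem_divisors]
    constructor
    · rintro ⟨⟨h1, h2⟩, h3⟩
      exact ⟨Nat.dvd_gcd h3 h1, (Nat.gcd_pos_of_pos_right n hP).ne'⟩
    · rintro ⟨h1, -⟩
      exact ⟨⟨h1.trans (Nat.gcd_dvd_right n P), hP.ne'⟩, h1.trans (Nat.gcd_dvd_left n P)⟩
  rw [h1]
  have h2 := congrArg (fun f : ArithmeticFunction ℝ => f (Nat.gcd n P))
    (ArithmeticFunction.coe_moebius_mul_coe_zeta (R := ℝ))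
  simp only [ArithmeticFunction.coe_mul_zeta_apply, ArithmeticFunction.one_apply] at h2
  simpa [Nat.Coprime] using h2

/-- the function `[(d, r) = 1] / d` -/
private noncomputable def rcF (r : ℕ) : ArithmeticFunction ℝ :=
  ⟨fun d => if Nat.Coprime d r then 1 / (d : ℝ) else 0, by simp⟩

private theorem rcF_apply (r d : ℕ) : rcF r d = if Nat.Coprime d r then 1 / (d : ℝ) else 0 := rfl

private theorem rcF_mult (r : ℕ) : (rcF r).IsMultiplicative := by
  constructor
  · simp [rcF_apply]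
  · intro m n _
    rw [rcF_apply, rcF_apply, rcF_apply]
    by_cases h1 : Nat.Coprime m r
    · by_cases h2 : Nat.Coprime n r
      · rw [if_pos h1, if_pos h2, if_pos (h1.mul_left h2)]
        push_cast
        field_simp
      · rw [if_neg h2, mul_zero, if_neg]
        exact fun h => h2 (Nat.Coprime.coprime_mul_left h)
    · rw [if_neg h1, zero_mul, if_neg]
      exact fun h => h1 (Nat.Coprime.coprime_mul_right h)

private theorem rc_totient (n : ℕ) (hn : 0 < n) :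
    (Nat.totient n : ℝ) = n * ∏ p ∈ n.primeFactors, (1 - 1 / (p : ℝ)) := by
  have h := Nat.totient_eq_mul_prod_factors n
  have h2 := congrArg (fun x : ℚ => (x : ℝ)) h
  push_cast at h2
  rw [h2]
  simp only [one_div]

private theorem rc_prod_pos (s : Finset ℕ) (hs : ∀ p ∈ s, Nat.Prime p) :
    0 < ∏ p ∈ s, (1 - 1 / (p : ℝ)) := by
  refine Finset.prod_pos fun p hp => ?_
  have h1 : (1 : ℝ) < p := by exact_mod_cast (hs p hp).one_lt
  rw [sub_pos, div_lt_one (by linarith)]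
  exact h1

/-- the complete sum -/
theorem RC_complete (w r : ℕ) (hr : 1 ≤ r) (hrw : ∀ p : ℕ, p.Prime → p ∣ r → p ≤ w) :
    (primorial w : ℝ) / (Nat.totient (primorial w) : ℝ) *
      (1 / (r : ℝ) * ∑ d ∈ (primorial w).divisors with Nat.Coprime d r,
        (ArithmeticFunction.moebius d : ℝ) * (1 / (d : ℝ))) = 1 / (Nat.totient r : ℝ) := by
  have hP : 0 < primorial w := primorial_pos w
  have h1 := (rcF_mult r).prodPrimeFactors_one_sub_of_squarefree (rcF r) (squarefree_primorial w)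
  have h2 : ∑ d ∈ (primorial w).divisors, (ArithmeticFunction.moebius d : ℝ) * rcF r d =
      ∑ d ∈ (primorial w).divisors with Nat.Coprime d r,
        (ArithmeticFunction.moebius d : ℝ) * (1 / (d : ℝ)) := by
    rw [Finset.sum_filter]
    refine Finset.sum_congr rfl fun d _ => ?_
    rw [rcF_apply]
    split_ifs <;> simp
  rw [← h2, ← h1]
  have h3 : ∏ p ∈ (primorial w).primeFactors, (1 - rcF r p) =
      ∏ p ∈ (primorial w).primeFactors \ r.primeFactors, (1 - 1 / (p : ℝ)) := by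
    rw [← Finset.prod_sdiff (s₁ := r.primeFactors) (s₂ := (primorial w).primeFactors)]
    · have h4 : ∏ p ∈ r.primeFactors, (1 - rcF r p) = 1 := by
        refine Finset.prod_eq_one fun p hp => ?_
        have hp' := Nat.mem_primeFactors.mp hp
        rw [rcF_apply, if_neg, sub_zero]
        rw [(hp'.1).coprime_iff_not_dvd, not_not]
        exact hp'.2.1
      rw [h4, mul_one]
      refine Finset.prod_congr rfl fun p hp => ?_
      rw [mem_sdiff, Nat.mem_primeFactors, Nat.mem_primeFactors] at hp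
      rw [rcF_apply, if_pos]
      rw [(hp.1.1).coprime_iff_not_dvd]
      exact fun h => hp.2 ⟨hp.1.1, h, by omega⟩
    · intro p hp
      have hp' := Nat.mem_primeFactors.mp hp
      rw [primeFactors_primorial, Nat.mem_primesLE]
      exact ⟨hrw p hp'.1 hp'.2.1, hp'.1⟩
  rw [h3, rc_totient _ hP, rc_totient r (by omega)]
  have hsub : r.primeFactors ⊆ (primorial w).primeFactors := by
    intro p hp
    have hp' := Nat.mem_primeFactors.mp hp
    rw [primeFactors_primorial, Nat.mem_primesLE]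
    exact ⟨hrw p hp'.1 hp'.2.1, hp'.1⟩
  rw [← Finset.prod_sdiff hsub]
  have hA : 0 < ∏ p ∈ (primorial w).primeFactors \ r.primeFactors, (1 - 1 / (p : ℝ)) :=
    rc_prod_pos _ fun p hp => (Nat.mem_primeFactors.mp (mem_sdiff.mp hp).1).1
  have hB : 0 < ∏ p ∈ r.primeFactors, (1 - 1 / (p : ℝ)) :=
    rc_prod_pos _ fun p hp => (Nat.mem_primeFactors.mp hp).1
  have hr' : (0 : ℝ) < r := by exact_mod_cast hr
  have hP' : (0 : ℝ) < primorial w := by exact_mod_cast hP
  field_simp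

/-- counting one residue class -/
theorem RC_count (t m e : ℕ) (hm : 0 < m) :
    |(((Icc 1 t).filter (fun n => n ≡ e [MOD m])).card : ℝ) - (t : ℝ) / m| ≤ 1 := by
  have h0 : Icc 1 t = Ioc 0 t := by
    ext x; simp only [mem_Icc, mem_Ioc]; omega
  rw [h0]
  have h1 := Nat.Ioc_filter_modEq_card 0 t hm e
  have hmq : (0 : ℚ) < m := by exact_mod_cast hm
  have h2 : ((((Ioc 0 t).filter (fun n => n ≡ e [MOD m])).card : ℤ) : ℚ) =
      ((max (⌊((t : ℚ) - e) / (m : ℚ)⌋ - ⌊(((0 : ℕ) : ℚ) - e) / (m : ℚ)⌋) 0 : ℤ) : ℚ) := by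
    exact_mod_cast h1
  have hle : ⌊(((0 : ℕ) : ℚ) - e) / (m : ℚ)⌋ ≤ ⌊((t : ℚ) - e) / (m : ℚ)⌋ := by
    apply Int.floor_le_floor
    gcongr
    simp
  rw [max_eq_left (by omega)] at h2
  have h3 := Int.floor_le (((t : ℚ) - e) / (m : ℚ))
  have h4 := Int.lt_floor_add_one (((t : ℚ) - e) / (m : ℚ))
  have h5 := Int.floor_le ((((0 : ℕ) : ℚ) - e) / (m : ℚ))
  have h6 := Int.lt_floor_add_one ((((0 : ℕ) : ℚ) - e) / (m : ℚ))
  have h7 : ((t : ℚ) - e) / (m : ℚ) - (((0 : ℕ) : ℚ) - e) / (m : ℚ) = (t : ℚ) / m := by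
    push_cast; ring
  have h8 : |((((Ioc 0 t).filter (fun n => n ≡ e [MOD m])).card : ℤ) : ℚ) - (t : ℚ) / m| ≤ 1 := by
    rw [h2, abs_le]
    push_cast
    constructor <;> linarith
  have h9 : ((|((((Ioc 0 t).filter (fun n => n ≡ e [MOD m])).card : ℤ) : ℚ) - (t : ℚ) / m| : ℚ) : ℝ)
      ≤ ((1 : ℚ) : ℝ) := by exact_mod_cast h8
  push_cast at h9
  exact h9

/-- multiples of `d` in a residue class modulo `r` -/
theorem RC_count2 (t r c d : ℕ) (hr : 1 ≤ r) (hd : 1 ≤ d) (hc : Nat.Coprime c r) :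
    (¬ Nat.Coprime d r → ((Icc 1 t).filter (fun n => n ≡ c [MOD r] ∧ d ∣ n)).card = 0) ∧
    (t < d → ((Icc 1 t).filter (fun n => n ≡ c [MOD r] ∧ d ∣ n)).card = 0) ∧
    (Nat.Coprime d r →
      |(((Icc 1 t).filter (fun n => n ≡ c [MOD r] ∧ d ∣ n)).card : ℝ) - (t : ℝ) / (r * d)| ≤ 1) := by
  refine ⟨fun h => ?_, fun h => ?_, fun h => ?_⟩
  · rw [Finset.card_eq_zero, Finset.filter_eq_empty_iff]
    rintro n - ⟨h1, h2⟩
    obtain ⟨p, hp, hpd, hpr⟩ := Nat.Prime.not_coprime_iff_dvd.mp h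
    have h3 : n ≡ c [MOD p] := h1.of_dvd hpr
    have h4 : p ∣ c := (h3.dvd_iff dvd_rfl).mp (hpd.trans h2)
    have h5 : p ∣ Nat.gcd c r := Nat.dvd_gcd h4 hpr
    rw [hc] at h5
    exact hp.one_lt.ne' (Nat.dvd_one.mp h5)
  · rw [Finset.card_eq_zero, Finset.filter_eq_empty_iff]
    rintro n hn ⟨-, h2⟩
    rw [mem_Icc] at hn
    have := Nat.le_of_dvd (by omega) h2
    omega
  · obtain ⟨e, he1, he2⟩ := Nat.chineseRemainder h.symm c 0
    have h1 : (Icc 1 t).filter (fun n => n ≡ c [MOD r] ∧ d ∣ n) =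
        (Icc 1 t).filter (fun n => n ≡ e [MOD r * d]) := by
      refine Finset.filter_congr fun n _ => ?_
      rw [← Nat.modEq_and_modEq_iff_modEq_mul h.symm, ← Nat.modEq_zero_iff_dvd]
      constructor
      · rintro ⟨h1, h2⟩
        exact ⟨h1.trans he1.symm, h2.trans he2.symm⟩
      · rintro ⟨h1, h2⟩
        exact ⟨h1.trans he1, h2.trans he2⟩
    rw [h1]
    have h2 := RC_count t (r * d) e (Nat.mul_pos (by omega) (by omega))
    push_cast at h2
    exact h2

/-- the elementary estimate -/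
theorem RC_main (w r c t : ℕ) (hr : 1 ≤ r) (hc : Nat.Coprime c r) :
    |(((Icc 1 t).filter (fun n => n ≡ c [MOD r] ∧ Nat.Coprime n (primorial w))).card : ℝ) -
      (t : ℝ) * (1 / (r : ℝ) * ∑ d ∈ (primorial w).divisors with Nat.Coprime d r,
        (ArithmeticFunction.moebius d : ℝ) * (1 / (d : ℝ)))| ≤
      (((primorial w).divisors.filter (fun d : ℕ => (d : ℝ) ≤ t)).card : ℝ) +
        t * ∑ d ∈ (primorial w).divisors.filter (fun d : ℕ => (t : ℝ) < (d : ℝ)), 1 / (d : ℝ) := by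
  have hP : 0 < primorial w := primorial_pos w
  set Dv := (primorial w).divisors with hDv
  have hcard : ((((Icc 1 t).filter
      (fun n => n ≡ c [MOD r] ∧ Nat.Coprime n (primorial w))).card : ℕ) : ℝ) =
      ∑ d ∈ Dv, (ArithmeticFunction.moebius d : ℝ) *
        (((Icc 1 t).filter (fun n => n ≡ c [MOD r] ∧ d ∣ n)).card : ℝ) := by
    have h1 : ∀ d ∈ Dv, (ArithmeticFunction.moebius d : ℝ) *
        (((Icc 1 t).filter (fun n => n ≡ c [MOD r] ∧ d ∣ n)).card : ℝ) =
        ∑ n ∈ (Icc 1 t).filter (fun n => n ≡ c [MOD r]),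
          if d ∣ n then (ArithmeticFunction.moebius d : ℝ) else 0 := by
      intro d _
      rw [← Finset.sum_filter, Finset.filter_filter, Finset.sum_const, nsmul_eq_mul, mul_comm]
    rw [Finset.sum_congr rfl h1, Finset.sum_comm]
    have h2 : ∀ n ∈ (Icc 1 t).filter (fun n => n ≡ c [MOD r]),
        ∑ d ∈ Dv, (if d ∣ n then (ArithmeticFunction.moebius d : ℝ) else 0) =
        if Nat.Coprime n (primorial w) then 1 else 0 := by
      intro n _
      rw [← Finset.sum_filter]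
      exact RC_moebius (primorial w) hP n
    rw [Finset.sum_congr rfl h2, ← Finset.sum_filter, Finset.filter_filter, Finset.sum_const,
      nsmul_eq_mul, mul_one]
  have hmain : (t : ℝ) * (1 / (r : ℝ) * ∑ d ∈ Dv with Nat.Coprime d r,
        (ArithmeticFunction.moebius d : ℝ) * (1 / (d : ℝ))) =
      ∑ d ∈ Dv, (ArithmeticFunction.moebius d : ℝ) *
        (if Nat.Coprime d r then (t : ℝ) / (r * d) else 0) := by
    rw [Finset.sum_filter, Finset.mul_sum, Finset.mul_sum]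
    refine Finset.sum_congr rfl fun d _ => ?_
    split_ifs
    · field_simp
    · simp
  rw [hcard, hmain, ← Finset.sum_sub_distrib]
  refine (Finset.abs_sum_le_sum_abs _ _).trans ?_
  have hterm : ∀ d ∈ Dv, |(ArithmeticFunction.moebius d : ℝ) *
        (((Icc 1 t).filter (fun n => n ≡ c [MOD r] ∧ d ∣ n)).card : ℝ) -
        (ArithmeticFunction.moebius d : ℝ) *
          (if Nat.Coprime d r then (t : ℝ) / (r * d) else 0)| ≤
      (if (d : ℝ) ≤ t then 1 else 0) + t * (if (t : ℝ) < (d : ℝ) then 1 / (d : ℝ) else 0) := by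
    intro d hd
    have hd1 : 1 ≤ d := Nat.pos_of_mem_divisors hd
    have hd1' : (0 : ℝ) < d := by exact_mod_cast hd1
    have hr1' : (1 : ℝ) ≤ r := by exact_mod_cast hr
    rw [← mul_sub, abs_mul]
    have hmu : |(ArithmeticFunction.moebius d : ℝ)| ≤ 1 := by
      exact_mod_cast ArithmeticFunction.abs_moebius_le_one
    obtain ⟨c1, c2, c3⟩ := RC_count2 t r c d hr hd1 hc
    have hb : |(((Icc 1 t).filter (fun n => n ≡ c [MOD r] ∧ d ∣ n)).card : ℝ) -
        (if Nat.Coprime d r then (t : ℝ) / (r * d) else 0)| ≤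
        (if (d : ℝ) ≤ t then 1 else 0) + t * (if (t : ℝ) < (d : ℝ) then 1 / (d : ℝ) else 0) := by
      by_cases hcop : Nat.Coprime d r
      · rw [if_pos hcop]
        rcases le_or_gt (d : ℝ) t with h1 | h1
        · rw [if_pos h1, if_neg (not_lt.mpr h1), mul_zero, add_zero]
          exact c3 hcop
        · rw [if_neg (not_le.mpr h1), if_pos h1, zero_add, c2 (by exact_mod_cast h1), Nat.cast_zero,
            zero_sub, abs_neg, abs_of_nonneg (by positivity)]
          rw [mul_one_div]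
          apply div_le_div_of_nonneg_left (by positivity) hd1'
          nlinarith
      · rw [if_neg hcop, c1 hcop, Nat.cast_zero, sub_zero, abs_zero]
        split_ifs <;> positivity
    calc |(ArithmeticFunction.moebius d : ℝ)| * _ ≤ 1 * _ :=
          mul_le_mul hmu hb (abs_nonneg _) zero_le_one
      _ = _ := one_mul _
  refine (Finset.sum_le_sum hterm).trans (le_of_eq ?_)
  rw [Finset.sum_add_distrib, ← Finset.mul_sum, ← Finset.sum_filter, ← Finset.sum_filter,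
    Finset.sum_const, nsmul_eq_mul, mul_one]

theorem RC_loglarge {κ : ℝ} (hκ : 0 < κ) (C : ℝ) : ∃ X0 : ℕ, ∀ X : ℕ, X0 ≤ X →
    C * Real.log X ≤ (X : ℝ) ^ κ := by
  have h1 := (isLittleO_log_rpow_atTop hκ).bound (show (0 : ℝ) < 1 / (|C| + 1) by positivity)
  have h2 := tendsto_natCast_atTop_atTop (R := ℝ) |>.eventually h1
  obtain ⟨X0, hX0⟩ := Filter.eventually_atTop.mp h2
  refine ⟨max X0 1, fun X hX => ?_⟩
  have h3 := hX0 X ((le_max_left _ _).trans hX)
  have hX1 : (1 : ℝ) ≤ X := by exact_mod_cast (le_max_right _ _).trans hX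
  rw [Real.norm_of_nonneg (Real.log_nonneg hX1), Real.norm_of_nonneg (by positivity)] at h3
  have h4 : 0 ≤ Real.log X := Real.log_nonneg hX1
  have h5 : (|C| + 1) * Real.log X ≤ (X : ℝ) ^ κ := by
    calc (|C| + 1) * Real.log X ≤ (|C| + 1) * (1 / (|C| + 1) * (X : ℝ) ^ κ) := by gcongr
      _ = _ := by field_simp
  have h6 := le_abs_self C
  nlinarith

theorem rough_class (D : ℕ) (hD : 1 ≤ D) : ∃ η : ℝ, 0 < η ∧ η ≤ 1 / 4 ∧ ∃ X0 : ℕ,
    ∀ X : ℕ, X0 ≤ X → ∀ w : ℕ, (w : ℝ) ≤ (Real.log X) ^ D →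
    ∀ r : ℕ, 1 ≤ r → r ≤ X → (∀ p : ℕ, p.Prime → p ∣ r → p ≤ w) → ∀ c : ℕ, Nat.Coprime c r →
    ∀ t : ℕ, t ≤ X →
    |∑ n ∈ (Icc 1 t).filter (fun n => n ≡ c [MOD r]), f1 w n - (t : ℝ) / (Nat.totient r : ℝ)| ≤
      (X : ℝ) ^ (1 - η) := by
  have hD0 : (0 : ℝ) < D := by exact_mod_cast hD
  have hD1 : (1 : ℝ) ≤ D := by exact_mod_cast hD
  set σ : ℝ := 1 / (2 * (D : ℝ)) with hσ
  have hσ0 : 0 < σ := by positivity
  have hσ1 : σ ≤ 1 / 2 := by
    rw [hσ, div_le_div_iff₀ (by positivity) (by norm_num)]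
    linarith
  obtain ⟨X1, hX1⟩ := rankin D hD (ε := σ / 8) (by positivity)
  obtain ⟨X2, hX2⟩ := f1_le D
  obtain ⟨X3, hX3⟩ := RC_loglarge (κ := σ * 3 / 8) (by positivity) 2
  refine ⟨σ / 2, by positivity, by linarith, max (max X1 X2) (max X3 3), ?_⟩
  intro X hX w hw r hr hrX hrw c hc t ht
  have hXX1 : X1 ≤ X := (le_max_left _ _).trans ((le_max_left _ _).trans hX)
  have hXX2 : X2 ≤ X := (le_max_right _ _).trans ((le_max_left _ _).trans hX)
  have hXX3 : X3 ≤ X := (le_max_left _ _).trans ((le_max_right _ _).trans hX)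
  have hXX4 : 3 ≤ X := (le_max_right _ _).trans ((le_max_right _ _).trans hX)
  have hXr : (1 : ℝ) ≤ X := by
    have : (3 : ℝ) ≤ X := by exact_mod_cast hXX4
    linarith
  have hX0' : (0 : ℝ) < X := by linarith
  rcases Nat.eq_zero_or_pos t with ht0 | ht0
  · subst ht0
    simp only [Nat.cast_zero, zero_div, sub_zero]
    rw [Finset.Icc_eq_empty (by norm_num), Finset.filter_empty, Finset.sum_empty, abs_zero]
    positivity
  obtain ⟨hratio, -⟩ := hX2 X hXX2 w hw
  set κ : ℝ := (primorial w : ℝ) / (Nat.totient (primorial w) : ℝ) with hκ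
  have hκ0 : 0 ≤ κ := by positivity
  have hsum : ∑ n ∈ (Icc 1 t).filter (fun n => n ≡ c [MOD r]), f1 w n =
      κ * (((Icc 1 t).filter
        (fun n => n ≡ c [MOD r] ∧ Nat.Coprime n (primorial w))).card : ℝ) := by
    unfold f1
    rw [← Finset.sum_filter, Finset.filter_filter, Finset.sum_const, nsmul_eq_mul, mul_comm]
  have hcomp := RC_complete w r hr hrw
  rw [← hκ] at hcomp
  have hmain := RC_main w r c t hr hc
  set S1 := 1 / (r : ℝ) * ∑ d ∈ (primorial w).divisors with Nat.Coprime d r,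
        (ArithmeticFunction.moebius d : ℝ) * (1 / (d : ℝ)) with hS1
  have e1 : (t : ℝ) / (Nat.totient r : ℝ) = κ * (t * S1) := by
    rw [div_eq_mul_one_div, ← hcomp]
    ring
  rw [hsum, e1, ← mul_sub, abs_mul, abs_of_nonneg hκ0]
  have ht1 : (1 : ℝ) ≤ t := by exact_mod_cast ht0
  have htX : (t : ℝ) ≤ X := by exact_mod_cast ht
  obtain ⟨hr1, hr2⟩ := hX1 X hXX1 w hw t ht1
  have hlog0 : 0 ≤ Real.log X := Real.log_nonneg hXr
  have htpos : (0 : ℝ) < t := by linarith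
  have hbound : (((primorial w).divisors.filter (fun d : ℕ => (d : ℝ) ≤ t)).card : ℝ) +
        t * ∑ d ∈ (primorial w).divisors.filter (fun d : ℕ => (t : ℝ) < (d : ℝ)), 1 / (d : ℝ) ≤
      2 * ((X : ℝ) ^ (σ / 8) * (X : ℝ) ^ (1 - σ)) := by
    have h1 : (t : ℝ) * ((X : ℝ) ^ (σ / 8) * (t : ℝ) ^ (-σ)) =
        (X : ℝ) ^ (σ / 8) * (t : ℝ) ^ (1 - σ) := by
      rw [show (1 : ℝ) - σ = 1 + -σ by ring, Real.rpow_add htpos, Real.rpow_one]
      ring
    have h2 : (t : ℝ) ^ (1 - σ) ≤ (X : ℝ) ^ (1 - σ) :=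
      Real.rpow_le_rpow htpos.le htX (by linarith)
    have h3 : (t : ℝ) * ∑ d ∈ (primorial w).divisors.filter (fun d : ℕ => (t : ℝ) < (d : ℝ)),
        1 / (d : ℝ) ≤ (X : ℝ) ^ (σ / 8) * (t : ℝ) ^ (1 - σ) := by
      rw [← h1]
      exact mul_le_mul_of_nonneg_left hr1 htpos.le
    have h4 : (X : ℝ) ^ (σ / 8) * (t : ℝ) ^ (1 - σ) ≤ (X : ℝ) ^ (σ / 8) * (X : ℝ) ^ (1 - σ) :=
      mul_le_mul_of_nonneg_left h2 (by positivity)
    linarith
  have hfin := hX3 X hXX3
  calc κ * _ ≤ Real.log X * (2 * ((X : ℝ) ^ (σ / 8) * (X : ℝ) ^ (1 - σ))) :=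
        mul_le_mul hratio (hmain.trans hbound) (abs_nonneg _) hlog0
    _ = (2 * Real.log X) * ((X : ℝ) ^ (σ / 8) * (X : ℝ) ^ (1 - σ)) := by ring
    _ ≤ (X : ℝ) ^ (σ * 3 / 8) * ((X : ℝ) ^ (σ / 8) * (X : ℝ) ^ (1 - σ)) :=
        mul_le_mul_of_nonneg_right hfin (by positivity)
    _ = (X : ℝ) ^ (1 - σ / 2) := by
        rw [← Real.rpow_add hX0', ← Real.rpow_add hX0']
        congr 1
        ring

end Pool.MP_dd84fd_nt.E2
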