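import Pool.Agent.Lib.MP_dd84fd_nt.E2.Defs

/-!
# smooth divisors, Rankin bounds (module EB-RK)
-/

set_option autoImplicit false

namespace Pool.MP_dd84fd_nt.E2

open Finset Pool.MP_67663b_nt.Odd Pool.MP_dd84fd_nt.En

theorem EBRK_sum_rpow {σ : ℝ} (h0 : 0 < σ) (h1 : σ ≤ 1) (w : ℕ) :
    ∑ n ∈ Icc 1 w, (n : ℝ) ^ (σ - 1) ≤ (w : ℝ) ^ σ / σ := by
  induction w with
  | zero => simp [Real.zero_rpow h0.ne']
  | succ w ih =>
    rw [Finset.sum_Icc_succ_top (by omega)]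
    have hw : (0 : ℝ) < ((w + 1 : ℕ) : ℝ) := by exact_mod_cast Nat.succ_pos w
    have h2 : ((w : ℕ) : ℝ) ^ σ ≤ ((w + 1 : ℕ) : ℝ) ^ σ * (1 - σ / ((w + 1 : ℕ) : ℝ)) := by
      have h3 : ((w : ℕ) : ℝ) = ((w + 1 : ℕ) : ℝ) * (1 + -(1 / ((w + 1 : ℕ) : ℝ))) := by
        field_simp
        push_cast
        ring
      have h4 : (1 + -(1 / ((w + 1 : ℕ) : ℝ))) ^ σ ≤ 1 + σ * -(1 / ((w + 1 : ℕ) : ℝ)) := by
        refine rpow_one_add_le_one_add_mul_self ?_ h0.le h1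
        rw [neg_le_neg_iff, div_le_one hw]
        exact_mod_cast Nat.succ_pos w
      have h5 : (0 : ℝ) ≤ 1 + -(1 / ((w + 1 : ℕ) : ℝ)) := by
        have : 1 / ((w + 1 : ℕ) : ℝ) ≤ 1 := by
          rw [div_le_one hw]
          exact_mod_cast Nat.succ_pos w
        linarith
      calc ((w : ℕ) : ℝ) ^ σ = (((w + 1 : ℕ) : ℝ) * (1 + -(1 / ((w + 1 : ℕ) : ℝ)))) ^ σ := by
            rw [← h3]
        _ = ((w + 1 : ℕ) : ℝ) ^ σ * (1 + -(1 / ((w + 1 : ℕ) : ℝ))) ^ σ :=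
            Real.mul_rpow hw.le h5
        _ ≤ ((w + 1 : ℕ) : ℝ) ^ σ * (1 + σ * -(1 / ((w + 1 : ℕ) : ℝ))) :=
            mul_le_mul_of_nonneg_left h4 (Real.rpow_nonneg hw.le _)
        _ = _ := by ring
    have h6 : ((w + 1 : ℕ) : ℝ) ^ (σ - 1) = ((w + 1 : ℕ) : ℝ) ^ σ / ((w + 1 : ℕ) : ℝ) := by
      rw [Real.rpow_sub hw, Real.rpow_one]
    rw [h6]
    rw [le_div_iff₀ h0] at ih ⊢
    have h7 : ((w + 1 : ℕ) : ℝ) ^ σ * (1 - σ / ((w + 1 : ℕ) : ℝ)) =
        ((w + 1 : ℕ) : ℝ) ^ σ - ((w + 1 : ℕ) : ℝ) ^ σ / ((w + 1 : ℕ) : ℝ) * σ := by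
      field_simp
    rw [h7] at h2
    linarith [ih, h2, add_mul (∑ n ∈ Icc 1 w, (n : ℝ) ^ (σ - 1))
      (((w + 1 : ℕ) : ℝ) ^ σ / ((w + 1 : ℕ) : ℝ)) σ]

/-- the arithmetic function `n ^ (σ - 1)` -/
noncomputable def EBRKf (σ : ℝ) : ArithmeticFunction ℝ :=
  ⟨fun n => if n = 0 then 0 else (n : ℝ) ^ (σ - 1), by simp⟩

theorem EBRKf_apply (σ : ℝ) {n : ℕ} (hn : n ≠ 0) : EBRKf σ n = (n : ℝ) ^ (σ - 1) := by
  show (if n = 0 then 0 else (n : ℝ) ^ (σ - 1)) = _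
  rw [if_neg hn]

theorem EBRKf_mult (σ : ℝ) : (EBRKf σ).IsMultiplicative := by
  rw [ArithmeticFunction.IsMultiplicative.iff_ne_zero]
  refine ⟨?_, fun {m n} hm hn _ => ?_⟩
  · rw [EBRKf_apply σ one_ne_zero]
    simp
  · rw [EBRKf_apply σ (mul_ne_zero hm hn), EBRKf_apply σ hm, EBRKf_apply σ hn]
    push_cast
    exact Real.mul_rpow (Nat.cast_nonneg m) (Nat.cast_nonneg n)

theorem EBRK_div_sum {σ : ℝ} (h0 : 0 < σ) (h1 : σ ≤ 1) (w : ℕ) :
    ∑ d ∈ (primorial w).divisors, (d : ℝ) ^ (σ - 1) ≤ Real.exp ((w : ℝ) ^ σ / σ) := by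
  have h2 : ∑ d ∈ (primorial w).divisors, (d : ℝ) ^ (σ - 1) =
      ∏ p ∈ (primorial w).primeFactors, (1 + EBRKf σ p) := by
    rw [ArithmeticFunction.IsMultiplicative.prodPrimeFactors_one_add_of_squarefree (EBRKf_mult σ)
      (squarefree_primorial w)]
    refine Finset.sum_congr rfl fun d hd => ?_
    rw [EBRKf_apply σ (Nat.pos_of_mem_divisors hd).ne']
  rw [h2, primeFactors_primorial]
  calc ∏ p ∈ Nat.primesLE w, (1 + EBRKf σ p) ≤ ∏ p ∈ Nat.primesLE w, Real.exp ((p : ℝ) ^ (σ - 1)) := by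
        refine Finset.prod_le_prod (fun p hp => ?_) (fun p hp => ?_)
        · rw [EBRKf_apply σ (Nat.prime_of_mem_primesLE hp).ne_zero]
          have := Real.rpow_nonneg (Nat.cast_nonneg p : (0 : ℝ) ≤ p) (σ - 1)
          linarith
        · rw [EBRKf_apply σ (Nat.prime_of_mem_primesLE hp).ne_zero, add_comm]
          exact Real.add_one_le_exp _
    _ = Real.exp (∑ p ∈ Nat.primesLE w, (p : ℝ) ^ (σ - 1)) := (Real.exp_sum _ _).symm
    _ ≤ Real.exp (∑ n ∈ Icc 1 w, (n : ℝ) ^ (σ - 1)) := by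
        rw [Real.exp_le_exp]
        refine Finset.sum_le_sum_of_subset_of_nonneg (fun p hp => ?_)
          (fun n _ _ => Real.rpow_nonneg (Nat.cast_nonneg n) _)
        rw [Finset.mem_Icc]
        exact ⟨(Nat.prime_of_mem_primesLE hp).one_le, Nat.le_of_mem_primesLE hp⟩
    _ ≤ Real.exp ((w : ℝ) ^ σ / σ) := by
        rw [Real.exp_le_exp]
        exact EBRK_sum_rpow h0 h1 w

theorem rankin (D : ℕ) (hD : 1 ≤ D) {ε : ℝ} (hε : 0 < ε) : ∃ X0 : ℕ, ∀ X : ℕ, X0 ≤ X →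
    ∀ w : ℕ, (w : ℝ) ≤ (Real.log X) ^ D → ∀ z : ℝ, 1 ≤ z →
    (∑ d ∈ (primorial w).divisors.filter (fun d : ℕ => z < (d : ℝ)), 1 / (d : ℝ) ≤
      (X : ℝ) ^ ε * z ^ (-(1 / (2 * (D : ℝ))))) ∧
    ((((primorial w).divisors.filter (fun d : ℕ => (d : ℝ) ≤ z)).card : ℝ) ≤
      (X : ℝ) ^ ε * z ^ (1 - 1 / (2 * (D : ℝ)))) := by
  have hDR : (1 : ℝ) ≤ (D : ℝ) := by exact_mod_cast hD
  have hD0 : (0 : ℝ) < (D : ℝ) := by linarith
  set σ : ℝ := 1 / (2 * (D : ℝ)) with hσ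
  have hσ0 : 0 < σ := by positivity
  have hσ1 : σ ≤ 1 := by
    rw [hσ, div_le_one (by positivity)]
    linarith
  refine ⟨max 1 ⌈Real.exp ((2 * D / ε) ^ 2)⌉₊, fun X hX w hw z hz => ?_⟩
  have hX1 : 1 ≤ X := (le_max_left _ _).trans hX
  have hXR : (0 : ℝ) < (X : ℝ) := by exact_mod_cast hX1
  have hXe : Real.exp ((2 * D / ε) ^ 2) ≤ X := by
    have h1 := Nat.le_ceil (Real.exp ((2 * D / ε) ^ 2))
    have h2 : (⌈Real.exp ((2 * D / ε) ^ 2)⌉₊ : ℝ) ≤ X := by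
      exact_mod_cast (le_max_right _ _).trans hX
    linarith
  have hL : (2 * D / ε) ^ 2 ≤ Real.log X := by
    rw [Real.le_log_iff_exp_le hXR]
    exact hXe
  have hL0 : 0 ≤ Real.log X := (sq_nonneg _).trans hL
  have hS : ∑ d ∈ (primorial w).divisors, (d : ℝ) ^ (σ - 1) ≤ (X : ℝ) ^ ε := by
    refine (EBRK_div_sum hσ0 hσ1 w).trans ?_
    rw [Real.rpow_def_of_pos hXR, Real.exp_le_exp]
    have h1 : (w : ℝ) ^ σ ≤ Real.sqrt (Real.log X) := by
      calc (w : ℝ) ^ σ ≤ ((Real.log X) ^ D) ^ σ :=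
            Real.rpow_le_rpow (Nat.cast_nonneg w) hw hσ0.le
        _ = Real.sqrt (Real.log X) := by
            rw [Real.sqrt_eq_rpow, ← Real.rpow_natCast, ← Real.rpow_mul hL0]
            congr 1
            rw [hσ]
            field_simp
    have h2 : 2 * D / ε ≤ Real.sqrt (Real.log X) := by
      exact Real.le_sqrt_of_sq_le hL
    have h3 : Real.log X = Real.sqrt (Real.log X) * Real.sqrt (Real.log X) :=
      (Real.mul_self_sqrt hL0).symm
    have h4 : 1 / σ = 2 * D := by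
      rw [hσ, one_div_one_div]
    calc (w : ℝ) ^ σ / σ = (w : ℝ) ^ σ * (2 * D) := by
          rw [div_eq_mul_one_div, h4]
      _ ≤ Real.sqrt (Real.log X) * (2 * D) := mul_le_mul_of_nonneg_right h1 (by positivity)
      _ ≤ Real.sqrt (Real.log X) * (Real.sqrt (Real.log X) * ε) := by
          refine mul_le_mul_of_nonneg_left ?_ (Real.sqrt_nonneg _)
          rw [div_le_iff₀ hε] at h2
          exact h2
      _ = Real.log X * ε := by
          rw [← mul_assoc, ← h3]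
  have hz0 : (0 : ℝ) < z := by linarith
  constructor
  · calc ∑ d ∈ (primorial w).divisors.filter (fun d : ℕ => z < (d : ℝ)), 1 / (d : ℝ)
        ≤ ∑ d ∈ (primorial w).divisors.filter (fun d : ℕ => z < (d : ℝ)),
            z ^ (-σ) * (d : ℝ) ^ (σ - 1) := by
          refine Finset.sum_le_sum fun d hd => ?_
          rw [Finset.mem_filter] at hd
          have hd0 : (0 : ℝ) < d := hz0.trans hd.2
          have h1 : (1 : ℝ) / d = (d : ℝ) ^ (-σ) * (d : ℝ) ^ (σ - 1) := by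
            rw [← Real.rpow_add hd0, one_div, ← Real.rpow_neg_one]
            congr 1
            ring
          rw [h1]
          refine mul_le_mul_of_nonneg_right ?_ (Real.rpow_nonneg hd0.le _)
          exact Real.rpow_le_rpow_of_nonpos hz0 hd.2.le (by linarith)
      _ = z ^ (-σ) * ∑ d ∈ (primorial w).divisors.filter (fun d : ℕ => z < (d : ℝ)),
            (d : ℝ) ^ (σ - 1) := by rw [Finset.mul_sum]
      _ ≤ z ^ (-σ) * ∑ d ∈ (primorial w).divisors, (d : ℝ) ^ (σ - 1) := by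
          refine mul_le_mul_of_nonneg_left ?_ (Real.rpow_nonneg hz0.le _)
          exact Finset.sum_le_sum_of_subset_of_nonneg (Finset.filter_subset _ _)
            (fun d _ _ => Real.rpow_nonneg (Nat.cast_nonneg d) _)
      _ ≤ z ^ (-σ) * (X : ℝ) ^ ε :=
          mul_le_mul_of_nonneg_left hS (Real.rpow_nonneg hz0.le _)
      _ = (X : ℝ) ^ ε * z ^ (-σ) := mul_comm _ _
  · calc (((primorial w).divisors.filter (fun d : ℕ => (d : ℝ) ≤ z)).card : ℝ)
        = ∑ _d ∈ (primorial w).divisors.filter (fun d : ℕ => (d : ℝ) ≤ z), (1 : ℝ) := by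
          rw [Finset.sum_const, nsmul_eq_mul, mul_one]
      _ ≤ ∑ d ∈ (primorial w).divisors.filter (fun d : ℕ => (d : ℝ) ≤ z),
            z ^ (1 - σ) * (d : ℝ) ^ (σ - 1) := by
          refine Finset.sum_le_sum fun d hd => ?_
          rw [Finset.mem_filter] at hd
          have hd0 : (0 : ℝ) < d := by exact_mod_cast Nat.pos_of_mem_divisors hd.1
          have h1 : (1 : ℝ) = (d : ℝ) ^ (1 - σ) * (d : ℝ) ^ (σ - 1) := by
            rw [← Real.rpow_add hd0]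
            simp
          refine h1.le.trans ?_
          refine mul_le_mul_of_nonneg_right ?_ (Real.rpow_nonneg hd0.le _)
          exact Real.rpow_le_rpow hd0.le hd.2 (by linarith)
      _ = z ^ (1 - σ) * ∑ d ∈ (primorial w).divisors.filter (fun d : ℕ => (d : ℝ) ≤ z),
            (d : ℝ) ^ (σ - 1) := by rw [Finset.mul_sum]
      _ ≤ z ^ (1 - σ) * ∑ d ∈ (primorial w).divisors, (d : ℝ) ^ (σ - 1) := by
          refine mul_le_mul_of_nonneg_left ?_ (Real.rpow_nonneg hz0.le _)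
          exact Finset.sum_le_sum_of_subset_of_nonneg (Finset.filter_subset _ _)
            (fun d _ _ => Real.rpow_nonneg (Nat.cast_nonneg d) _)
      _ ≤ z ^ (1 - σ) * (X : ℝ) ^ ε :=
          mul_le_mul_of_nonneg_left hS (Real.rpow_nonneg hz0.le _)
      _ = (X : ℝ) ^ ε * z ^ (1 - σ) := mul_comm _ _

end Pool.MP_dd84fd_nt.E2
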