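import Pool.Agent.Lib.MP_dd84fd_nt.E2.Defs

/-!
# a Hoelder inequality (module EB-H3)
-/

set_option autoImplicit false

namespace Pool.MP_dd84fd_nt.E2

open Finset Pool.MP_67663b_nt.Odd Pool.MP_dd84fd_nt.En

/-- Hoelder for `u ^ (2 (h-1) / h) * k ^ 2` -/
private theorem H3_step (h : ℕ) (hh : 1 ≤ h) (N : ℕ) (hN : 0 < N) (u k : ℕ → ℝ)
    (hu : ∀ j, 0 ≤ u j) (hk : ∀ j, 0 ≤ k j) :
    (1 / (N : ℝ)) * ∑ j ∈ range N, (u j ^ (((h : ℝ) - 1) / h)) ^ 2 * k j ^ 2 ≤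
      ((1 / (N : ℝ)) * ∑ j ∈ range N, u j ^ 2) ^ (((h : ℝ) - 1) / h) *
        ((1 / (N : ℝ)) * ∑ j ∈ range N, k j ^ (2 * h)) ^ (1 / (h : ℝ)) := by
  have hN' : (0 : ℝ) < N := by exact_mod_cast hN
  have hh' : (1 : ℝ) ≤ h := by exact_mod_cast hh
  have hsu : 0 ≤ ∑ j ∈ range N, u j ^ 2 := Finset.sum_nonneg fun j _ => sq_nonneg _
  have hsk : 0 ≤ ∑ j ∈ range N, k j ^ (2 * h) :=
    Finset.sum_nonneg fun j _ => pow_nonneg (hk j) _
  have key : ∑ j ∈ range N, (u j ^ (((h : ℝ) - 1) / h)) ^ 2 * k j ^ 2 ≤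
      (∑ j ∈ range N, u j ^ 2) ^ (((h : ℝ) - 1) / h) *
        (∑ j ∈ range N, k j ^ (2 * h)) ^ (1 / (h : ℝ)) := by
    rcases Nat.lt_or_ge 1 h with h2 | h2
    · have h2' : (1 : ℝ) < h := by exact_mod_cast h2
      have hpq : ((h : ℝ) / (h - 1)).HolderConjugate h := by
        rw [Real.holderConjugate_comm]
        rw [Real.holderConjugate_iff_eq_conjExponent h2']
      have h3 := Real.inner_le_Lp_mul_Lq_of_nonneg (range N) hpq
        (f := fun j => (u j ^ (((h : ℝ) - 1) / h)) ^ 2) (g := fun j => k j ^ 2)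
        (fun j _ => by positivity) (fun j _ => by positivity)
      refine h3.trans (le_of_eq ?_)
      have e1 : 1 / ((h : ℝ) / (h - 1)) = ((h : ℝ) - 1) / h := by
        rw [one_div_div]
      rw [e1]
      congr 2
      · refine Finset.sum_congr rfl fun j _ => ?_
        have hne : (h : ℝ) - 1 ≠ 0 := by linarith
        have hne2 : (h : ℝ) ≠ 0 := by linarith
        rw [← Real.rpow_natCast, ← Real.rpow_mul (hu j), ← Real.rpow_mul (hu j),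
          ← Real.rpow_natCast]
        congr 1
        field_simp
      · refine Finset.sum_congr rfl fun j _ => ?_
        rw [Real.rpow_natCast, ← pow_mul]
    · have h1 : h = 1 := le_antisymm h2 hh
      subst h1
      simp
  have hNs : (1 / (N : ℝ)) = (1 / (N : ℝ)) ^ (((h : ℝ) - 1) / h) * (1 / (N : ℝ)) ^ (1 / (h : ℝ)) := by
    rw [← Real.rpow_add (by positivity)]
    have : ((h : ℝ) - 1) / h + 1 / h = 1 := by
      field_simp
      ring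
    rw [this, Real.rpow_one]
  calc (1 / (N : ℝ)) * ∑ j ∈ range N, (u j ^ (((h : ℝ) - 1) / h)) ^ 2 * k j ^ 2
      ≤ (1 / (N : ℝ)) * ((∑ j ∈ range N, u j ^ 2) ^ (((h : ℝ) - 1) / h) *
        (∑ j ∈ range N, k j ^ (2 * h)) ^ (1 / (h : ℝ))) :=
        mul_le_mul_of_nonneg_left key (by positivity)
    _ = ((1 / (N : ℝ)) ^ (((h : ℝ) - 1) / h) * (1 / (N : ℝ)) ^ (1 / (h : ℝ))) *
        ((∑ j ∈ range N, u j ^ 2) ^ (((h : ℝ) - 1) / h) *
        (∑ j ∈ range N, k j ^ (2 * h)) ^ (1 / (h : ℝ))) := by rw [← hNs]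
    _ = _ := by
        rw [Real.mul_rpow (by positivity) hsu, Real.mul_rpow (by positivity) hsk]
        ring

theorem hold3 (h : ℕ) (hh : 1 ≤ h) (N : ℕ) (hN : 0 < N) (u v k : ℕ → ℝ) (hu : ∀ j, 0 ≤ u j)
    (hv : ∀ j, 0 ≤ v j) (hk : ∀ j, 0 ≤ k j) (S Eu Ev K : ℝ) (hS : ∀ j, u j ≤ S)
    (hEu : (1 / (N : ℝ)) * ∑ j ∈ range N, u j ^ 2 ≤ Eu)
    (hEv : (1 / (N : ℝ)) * ∑ j ∈ range N, v j ^ 2 ≤ Ev)
    (hK : (1 / (N : ℝ)) * ∑ j ∈ range N, k j ^ (2 * h) ≤ K) :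
    (1 / (N : ℝ)) * ∑ j ∈ range N, u j * v j * k j ≤
      S ^ (1 / (h : ℝ)) * Eu ^ (((h : ℝ) - 1) / (2 * h)) * Ev ^ (1 / 2 : ℝ) *
        K ^ (1 / (2 * (h : ℝ))) := by
  have hN' : (0 : ℝ) < N := by exact_mod_cast hN
  have hh' : (1 : ℝ) ≤ h := by exact_mod_cast hh
  have hS0 : 0 ≤ S := (hu 0).trans (hS 0)
  set A : ℝ := (1 / (N : ℝ)) * ∑ j ∈ range N, u j ^ 2 with hA
  set B : ℝ := (1 / (N : ℝ)) * ∑ j ∈ range N, v j ^ 2 with hB
  set Q : ℝ := (1 / (N : ℝ)) * ∑ j ∈ range N, k j ^ (2 * h) with hQ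
  have hA0 : 0 ≤ A := by
    rw [hA]
    exact mul_nonneg (by positivity) (Finset.sum_nonneg fun j _ => sq_nonneg _)
  have hB0 : 0 ≤ B := by
    rw [hB]
    exact mul_nonneg (by positivity) (Finset.sum_nonneg fun j _ => sq_nonneg _)
  have hQ0 : 0 ≤ Q := by
    rw [hQ]
    exact mul_nonneg (by positivity) (Finset.sum_nonneg fun j _ => pow_nonneg (hk j) _)
  set U : ℕ → ℝ := fun j => u j ^ (((h : ℝ) - 1) / h) with hU
  have hexp : 0 ≤ ((h : ℝ) - 1) / h := div_nonneg (by linarith) (by linarith)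
  have hU0 : ∀ j, 0 ≤ U j := fun j => Real.rpow_nonneg (hu j) _
  have huU : ∀ j, u j ≤ S ^ (1 / (h : ℝ)) * U j := by
    intro j
    have h1 : u j = u j ^ (1 / (h : ℝ)) * U j := by
      rw [hU]
      simp only
      rw [← Real.rpow_add_of_nonneg (hu j) (by positivity) hexp]
      have : 1 / (h : ℝ) + ((h : ℝ) - 1) / h = 1 := by
        field_simp
        ring
      rw [this, Real.rpow_one]
    conv_lhs => rw [h1]
    exact mul_le_mul_of_nonneg_right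
      (Real.rpow_le_rpow (hu j) (hS j) (by positivity)) (hU0 j)
  have h1 : (1 / (N : ℝ)) * ∑ j ∈ range N, u j * v j * k j ≤
      S ^ (1 / (h : ℝ)) * ((1 / (N : ℝ)) * ∑ j ∈ range N, v j * (U j * k j)) := by
    have h2 : ∑ j ∈ range N, u j * v j * k j ≤
        S ^ (1 / (h : ℝ)) * ∑ j ∈ range N, v j * (U j * k j) := by
      rw [Finset.mul_sum]
      refine Finset.sum_le_sum fun j _ => ?_
      calc u j * v j * k j = u j * (v j * k j) := by ring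
        _ ≤ S ^ (1 / (h : ℝ)) * U j * (v j * k j) :=
            mul_le_mul_of_nonneg_right (huU j) (mul_nonneg (hv j) (hk j))
        _ = _ := by ring
    calc (1 / (N : ℝ)) * ∑ j ∈ range N, u j * v j * k j
        ≤ (1 / (N : ℝ)) * (S ^ (1 / (h : ℝ)) * ∑ j ∈ range N, v j * (U j * k j)) :=
          mul_le_mul_of_nonneg_left h2 (by positivity)
      _ = _ := by ring
  have h2 : ((1 / (N : ℝ)) * ∑ j ∈ range N, v j * (U j * k j)) ^ 2 ≤
      B * (A ^ (((h : ℝ) - 1) / h) * Q ^ (1 / (h : ℝ))) := by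
    have h3 := Finset.sum_mul_sq_le_sq_mul_sq (range N) v (fun j => U j * k j)
    have h4 := H3_step h hh N hN u k hu hk
    have h5 : ∑ j ∈ range N, (U j * k j) ^ 2 =
        ∑ j ∈ range N, (u j ^ (((h : ℝ) - 1) / h)) ^ 2 * k j ^ 2 :=
      Finset.sum_congr rfl fun j _ => by rw [mul_pow]
    rw [h5] at h3
    calc ((1 / (N : ℝ)) * ∑ j ∈ range N, v j * (U j * k j)) ^ 2
        = (1 / (N : ℝ)) ^ 2 * (∑ j ∈ range N, v j * (U j * k j)) ^ 2 := by ring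
      _ ≤ (1 / (N : ℝ)) ^ 2 * ((∑ j ∈ range N, v j ^ 2) *
          ∑ j ∈ range N, (u j ^ (((h : ℝ) - 1) / h)) ^ 2 * k j ^ 2) :=
          mul_le_mul_of_nonneg_left h3 (by positivity)
      _ = B * ((1 / (N : ℝ)) * ∑ j ∈ range N, (u j ^ (((h : ℝ) - 1) / h)) ^ 2 * k j ^ 2) := by
          rw [hB]
          ring
      _ ≤ _ := mul_le_mul_of_nonneg_left h4 hB0
  have h3 : (1 / (N : ℝ)) * ∑ j ∈ range N, v j * (U j * k j) ≤
      A ^ (((h : ℝ) - 1) / (2 * h)) * B ^ (1 / 2 : ℝ) * Q ^ (1 / (2 * (h : ℝ))) := by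
    refine le_of_sq_le_sq ?_ (by positivity)
    refine h2.trans (le_of_eq ?_)
    rw [mul_pow, mul_pow, ← Real.rpow_natCast, ← Real.rpow_natCast, ← Real.rpow_natCast,
      ← Real.rpow_mul hA0, ← Real.rpow_mul hB0, ← Real.rpow_mul hQ0]
    have e1 : ((h : ℝ) - 1) / (2 * h) * ((2 : ℕ) : ℝ) = ((h : ℝ) - 1) / h := by
      push_cast
      field_simp
    have e2 : (1 / 2 : ℝ) * ((2 : ℕ) : ℝ) = 1 := by norm_num
    have e3 : 1 / (2 * (h : ℝ)) * ((2 : ℕ) : ℝ) = 1 / (h : ℝ) := by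
      push_cast
      field_simp
    rw [e1, e2, e3, Real.rpow_one]
    ring
  have hexp2 : 0 ≤ ((h : ℝ) - 1) / (2 * h) := div_nonneg (by linarith) (by linarith)
  have h4 : A ^ (((h : ℝ) - 1) / (2 * h)) * B ^ (1 / 2 : ℝ) * Q ^ (1 / (2 * (h : ℝ))) ≤
      Eu ^ (((h : ℝ) - 1) / (2 * h)) * Ev ^ (1 / 2 : ℝ) * K ^ (1 / (2 * (h : ℝ))) := by
    have hEu0 : 0 ≤ Eu := hA0.trans hEu
    have hEv0 : 0 ≤ Ev := hB0.trans hEv
    have a1 := Real.rpow_le_rpow hA0 hEu hexp2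
    have a2 := Real.rpow_le_rpow hB0 hEv (by norm_num : (0 : ℝ) ≤ 1 / 2)
    have a3 := Real.rpow_le_rpow hQ0 hK (by positivity : (0 : ℝ) ≤ 1 / (2 * (h : ℝ)))
    refine mul_le_mul (mul_le_mul a1 a2 (by positivity) (by positivity)) a3 (by positivity)
      (by positivity)
  calc (1 / (N : ℝ)) * ∑ j ∈ range N, u j * v j * k j
      ≤ S ^ (1 / (h : ℝ)) * ((1 / (N : ℝ)) * ∑ j ∈ range N, v j * (U j * k j)) := h1
    _ ≤ S ^ (1 / (h : ℝ)) * (Eu ^ (((h : ℝ) - 1) / (2 * h)) * Ev ^ (1 / 2 : ℝ) *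
        K ^ (1 / (2 * (h : ℝ)))) :=
        mul_le_mul_of_nonneg_left (h3.trans h4) (Real.rpow_nonneg hS0 _)
    _ = _ := by ring

end Pool.MP_dd84fd_nt.E2
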