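import Pool.Agent.Lib.MP_dd84fd_nt.E2.SupClose
import Pool.Agent.Lib.MP_dd84fd_nt.E2.Hold3
import Pool.Agent.Lib.MP_dd84fd_nt.E2.FBound
import Pool.Agent.Lib.MP_dd84fd_nt.En.Four1
import Pool.Agent.Lib.MP_dd84fd_nt.En.Four2

/-!
# the comparison theorem with logarithmic savings (module EB-C2)
-/

set_option autoImplicit false

namespace Pool.MP_dd84fd_nt.E2

open Finset Pool.MP_67663b_nt.Odd Pool.MP_dd84fd_nt.En

private noncomputable def ip (n : ℕ) : ℝ := if n.Prime then 1 else 0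

private lemma coll_one (X : ℕ) (z : ℕ → ℝ) :
    coll 1 X z = ∑ n ∈ range (X + 1), z n ^ 2 := by
  unfold coll
  have e : ∀ f : (Fin 1 → ℕ) → ℝ, ∑ a ∈ Fintype.piFinset (fun _ : Fin 1 => range (X + 1)), f a =
      ∑ n ∈ range (X + 1), f (fun _ => n) := by
    intro f
    refine Finset.sum_bij' (fun a _ => a 0) (fun n _ => fun _ => n) ?_ ?_ ?_ ?_ ?_
    · intro a ha
      exact Fintype.mem_piFinset.1 ha 0
    · intro n hn
      exact Fintype.mem_piFinset.2 fun _ => hn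
    · intro a _
      funext i
      rw [Subsingleton.elim i 0]
    · intro n _
      rfl
    · intro a _
      congr 1
      funext i
      rw [Subsingleton.elim i 0]
  rw [e]
  refine Finset.sum_congr rfl fun n hn => ?_
  rw [e]
  simp only [Finset.univ_unique, Finset.sum_const, Finset.card_singleton, one_smul,
    Finset.prod_const, pow_one]
  rw [Finset.sum_ite_eq, if_pos hn, sq]

private lemma KK_eq (X : ℕ) (z : ℕ → ℝ) (hz : z 0 = 0) (θ : ℝ) :
    KK X z θ = ∑ n ∈ Icc 1 X, (z n : ℂ) * ee ((n : ℝ) * θ) := by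
  unfold KK
  rw [Finset.range_eq_Ico, Finset.sum_eq_sum_Ico_succ_bot (Nat.succ_pos X), hz]
  simp only [Complex.ofReal_zero, zero_mul, zero_add]
  refine Finset.sum_congr ?_ fun _ _ => rfl
  ext n
  simp only [Finset.mem_Ico, Finset.mem_Icc]
  omega

private lemma P1_eq (X : ℕ) (θ : ℝ) :
    P1 X θ = ∑ n ∈ Icc 1 X, (ip n : ℂ) * ee ((n : ℝ) * θ) := by
  unfold P1
  rw [Finset.sum_filter]
  refine Finset.sum_congr rfl fun n _ => ?_
  unfold ip
  split_ifs <;> simp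

private lemma f2_zero (w : ℕ) : f2 w 0 = 0 := by
  unfold f2
  simp

private lemma ip_zero : ip 0 = 0 := by
  unfold ip
  rw [if_neg Nat.not_prime_zero]

private lemma g_eq (n : ℕ) : (g n : ℝ) = ∑ a ∈ Icc 1 (n - 1), ip a * ip (n - a) := by
  unfold g
  rw [Finset.card_eq_sum_ones, Nat.cast_sum, Finset.sum_filter]
  have h1 : ∀ a ∈ range (n + 1), (if (Nat.Prime a ∧ Nat.Prime (n - a)) then ((1 : ℕ) : ℝ) else 0) =
      ip a * ip (n - a) := by
    intro a _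
    unfold ip
    by_cases h2 : Nat.Prime a <;> by_cases h3 : Nat.Prime (n - a) <;> simp [h2, h3]
  rw [Finset.sum_congr rfl h1]
  symm
  refine Finset.sum_subset (fun a ha => ?_) (fun a ha hn => ?_)
  · rw [Finset.mem_Icc] at ha
    rw [Finset.mem_range]
    omega
  · rw [Finset.mem_range] at ha
    rw [Finset.mem_Icc] at hn
    have h4 : a = 0 ∨ n - a = 0 := by omega
    rcases h4 with h4 | h4
    · rw [h4, ip_zero, zero_mul]
    · rw [h4, ip_zero, mul_zero]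

private lemma log_ge_half {n : ℕ} (hn : 2 ≤ n) : 1 / 2 ≤ Real.log n := by
  have h1 : Real.log 2 ≤ Real.log n :=
    Real.log_le_log (by norm_num) (by exact_mod_cast hn)
  have h2 := Real.log_two_gt_d9
  linarith

private lemma f2_bound {w n : ℕ} {L : ℝ} (hL : 1 ≤ L) (h : f1 w n ≤ L) (h0 : 0 ≤ f1 w n) :
    0 ≤ f2 w n ∧ f2 w n ≤ 2 * L := by
  unfold f2
  rcases Nat.lt_or_ge n 2 with hn | hn
  · have h1 : Real.log n = 0 := by
      interval_cases n <;> simp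
    rw [h1, div_zero]
    exact ⟨le_rfl, by linarith⟩
  · have h1 := log_ge_half hn
    refine ⟨div_nonneg h0 (by linarith), ?_⟩
    rw [div_le_iff₀ (by linarith)]
    nlinarith

theorem compare2 (h : ℕ) (hh : 1 ≤ h) (A B : ℕ) : ∃ D0 : ℕ, ∀ D' : ℕ, D0 ≤ D' → ∃ X0 : ℕ,
    ∀ X : ℕ, X0 ≤ X → ∀ ζ : ℕ → ℝ, ζ 0 = 0 → ∑ n ∈ range (X + 1), |ζ n| ≤ 1 →
    coll h X (fun n => |ζ n|) ≤ (Real.log X) ^ A / X →
    |∑ n ∈ range (X + 1), ζ n * ((g n : ℝ) - conv2 (wX D' X) n)| ≤ X / (Real.log X) ^ B := by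
  obtain ⟨A', hA'⟩ : ∃ A' : ℕ, A' = A + h * (B + 4) := ⟨_, rfl⟩
  obtain ⟨D0, hD0⟩ := sup_close A'
  refine ⟨D0, fun D' hD' => ?_⟩
  obtain ⟨XS, hXS⟩ := hD0 D' hD'
  obtain ⟨XF, hXF⟩ := f1_le D'
  obtain ⟨XL, hXL⟩ := Filter.eventually_atTop.1
    ((Real.tendsto_log_atTop.comp (tendsto_natCast_atTop_atTop (R := ℝ))).eventually_ge_atTop 18)
  refine ⟨max (max XS XF) (max XL 1), fun X hX ζ hζ0 hζ1 hcoll => ?_⟩
  have hX1 : XS ≤ X := ((le_max_left _ _).trans (le_max_left _ _)).trans hX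
  have hX2 : XF ≤ X := ((le_max_right _ _).trans (le_max_left _ _)).trans hX
  have hX3 : XL ≤ X := ((le_max_left _ _).trans (le_max_right _ _)).trans hX
  have hX4 : 1 ≤ X := ((le_max_right _ _).trans (le_max_right _ _)).trans hX
  obtain ⟨L, hL⟩ : ∃ L : ℝ, L = Real.log X := ⟨_, rfl⟩
  have hL18 : 18 ≤ L := by rw [hL]; exact hXL X hX3
  obtain ⟨w, hw⟩ : ∃ w : ℕ, w = wX D' X := ⟨_, rfl⟩
  have hsup := hXS X hX1
  rw [← hw, ← hL] at hsup
  rw [← hL] at hcoll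
  rw [← hw, ← hL]
  have hXR : (1 : ℝ) ≤ X := by exact_mod_cast hX4
  have hX0 : (0 : ℝ) < X := by linarith
  have hL0 : 0 < L := by linarith
  have hwle : (w : ℝ) ≤ (Real.log X) ^ D' := by
    rw [hw, wX]
    exact Nat.floor_le (by rw [← hL]; positivity)
  have hf := (hXF X hX2 w hwle).2
  rw [← hL] at hf
  -- parameters
  obtain ⟨J, hJ⟩ : ∃ J : ℕ, J = h + 3 := ⟨_, rfl⟩
  have hJX : ((J * X : ℕ) : ℝ) = (J : ℝ) * X := by push_cast; ring
  have hN : 0 < J * X := Nat.mul_pos (by omega) (by omega)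
  obtain ⟨th, hth⟩ : ∃ th : ℕ → ℝ, th = fun j : ℕ => (j : ℝ) / ((J : ℝ) * X) := ⟨_, rfl⟩
  have hpars : ∀ z : ℕ → ℝ, z 0 = 0 → (∀ n, |z n| ≤ 3 * L) →
      (1 / ((J * X : ℕ) : ℝ)) * ∑ j ∈ range (J * X),
        ‖∑ n ∈ Icc 1 X, (z n : ℂ) * ee ((n : ℝ) * th j)‖ ^ 2 ≤ 18 * X * L ^ 2 := by
    intro z hz hzb
    have h1 := coll_eq 1 X J (by omega) hX4 z
    rw [coll_one] at h1
    have h2 : (1 / ((J * X : ℕ) : ℝ)) * ∑ j ∈ range (J * X),
        ‖∑ n ∈ Icc 1 X, (z n : ℂ) * ee ((n : ℝ) * th j)‖ ^ 2 = ∑ n ∈ range (X + 1), z n ^ 2 := by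
      rw [← h1, hJX]
      congr 1
      refine Finset.sum_congr rfl fun j _ => ?_
      rw [KK_eq X z hz, hth]
    rw [h2]
    calc ∑ n ∈ range (X + 1), z n ^ 2 ≤ ∑ _n ∈ range (X + 1), 9 * L ^ 2 := by
          refine Finset.sum_le_sum fun n _ => ?_
          rw [← sq_abs]
          have := hzb n
          have h3 := abs_nonneg (z n)
          nlinarith
      _ = ((X : ℝ) + 1) * (9 * L ^ 2) := by
          rw [Finset.sum_const, Finset.card_range, nsmul_eq_mul]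
          push_cast
          ring
      _ ≤ 18 * X * L ^ 2 := by nlinarith [sq_nonneg L]
  have hfb : ∀ n, 0 ≤ f2 w n ∧ f2 w n ≤ 2 * L := fun n =>
    f2_bound (by linarith) (hf n) (f1_nonneg w n)
  have hipb : ∀ n, 0 ≤ ip n ∧ ip n ≤ 1 := by
    intro n
    unfold ip
    split_ifs <;> norm_num
  have hEu : (1 / ((J * X : ℕ) : ℝ)) * ∑ j ∈ range (J * X), ‖P1 X (th j) - F2 w X (th j)‖ ^ 2 ≤
      18 * X * L ^ 2 := by
    have h1 := hpars (fun n => ip n - f2 w n) (by rw [ip_zero, f2_zero, sub_zero]) (fun n => by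
      have h2 := hfb n
      have h3 := hipb n
      rw [abs_le]
      constructor <;> linarith)
    refine le_of_eq_of_le ?_ h1
    congr 1
    refine Finset.sum_congr rfl fun j _ => ?_
    rw [P1_eq]
    unfold F2
    rw [← Finset.sum_sub_distrib]
    congr 2
    refine Finset.sum_congr rfl fun n _ => ?_
    push_cast
    ring
  have hEv : (1 / ((J * X : ℕ) : ℝ)) * ∑ j ∈ range (J * X), ‖P1 X (th j) + F2 w X (th j)‖ ^ 2 ≤
      18 * X * L ^ 2 := by
    have h1 := hpars (fun n => ip n + f2 w n) (by rw [ip_zero, f2_zero, add_zero]) (fun n => by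
      have h2 := hfb n
      have h3 := hipb n
      rw [abs_le]
      constructor <;> linarith)
    refine le_of_eq_of_le ?_ h1
    congr 1
    refine Finset.sum_congr rfl fun j _ => ?_
    rw [P1_eq]
    unfold F2
    rw [← Finset.sum_add_distrib]
    congr 2
    refine Finset.sum_congr rfl fun n _ => ?_
    push_cast
    ring
  have hK : (1 / ((J * X : ℕ) : ℝ)) * ∑ j ∈ range (J * X), ‖KK X ζ (th j)‖ ^ (2 * h) ≤
      L ^ A / X := by
    have h1 := coll_eq h X J (by omega) hX4 ζ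
    rw [hJX, hth, h1]
    exact (coll_mono h X ζ (fun n => |ζ n|) fun n => le_rfl).trans hcoll
  have hhold := hold3 h hh (J * X) hN (fun j => ‖P1 X (th j) - F2 w X (th j)‖)
    (fun j => ‖P1 X (th j) + F2 w X (th j)‖) (fun j => ‖KK X ζ (th j)‖)
    (fun _ => norm_nonneg _) (fun _ => norm_nonneg _) (fun _ => norm_nonneg _)
    (X / L ^ A') (18 * X * L ^ 2) (18 * X * L ^ 2) (L ^ A / X)
    (fun j => hsup (th j)) hEu hEv hK
  -- the identity
  have hid : |∑ n ∈ range (X + 1), ζ n * ((g n : ℝ) - conv2 w n)| ≤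
      (1 / ((J * X : ℕ) : ℝ)) * ∑ j ∈ range (J * X), ‖P1 X (th j) - F2 w X (th j)‖ *
        ‖P1 X (th j) + F2 w X (th j)‖ * ‖KK X ζ (th j)‖ := by
    have h1 := conv_identity X J (by omega) hX4 ζ ip
    have h2 := conv_identity X J (by omega) hX4 ζ (f2 w)
    have h3 : ((∑ n ∈ range (X + 1), ζ n * ((g n : ℝ) - conv2 w n) : ℝ) : ℂ) =
        (1 / ((J : ℂ) * X)) * ∑ j ∈ range (J * X),
          (P1 X (th j) - F2 w X (th j)) * (P1 X (th j) + F2 w X (th j)) *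
            (starRingEnd ℂ) (KK X ζ (th j)) := by
      have h4 : ∑ n ∈ range (X + 1), ζ n * ((g n : ℝ) - conv2 w n) =
          ∑ n ∈ range (X + 1), ζ n * ∑ a ∈ Icc 1 (n - 1), ip a * ip (n - a) -
          ∑ n ∈ range (X + 1), ζ n * ∑ a ∈ Icc 1 (n - 1), f2 w a * f2 w (n - a) := by
        rw [← Finset.sum_sub_distrib]
        refine Finset.sum_congr rfl fun n _ => ?_
        rw [g_eq]
        unfold conv2
        ring
      rw [h4, Complex.ofReal_sub, h1, h2, ← mul_sub, ← Finset.sum_sub_distrib]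
      congr 1
      refine Finset.sum_congr rfl fun j _ => ?_
      rw [P1_eq, hth]
      unfold F2
      ring
    have h5 : |∑ n ∈ range (X + 1), ζ n * ((g n : ℝ) - conv2 w n)| =
        ‖((∑ n ∈ range (X + 1), ζ n * ((g n : ℝ) - conv2 w n) : ℝ) : ℂ)‖ := by
      rw [Complex.norm_real, Real.norm_eq_abs]
    rw [h5, h3, norm_mul]
    have h6 : ‖(1 / ((J : ℂ) * X))‖ = 1 / ((J * X : ℕ) : ℝ) := by
      rw [norm_div, norm_one, norm_mul, Complex.norm_natCast, Complex.norm_natCast, hJX]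
    rw [h6]
    refine mul_le_mul_of_nonneg_left ?_ (by positivity)
    refine (norm_sum_le _ _).trans (Finset.sum_le_sum fun j _ => ?_)
    rw [norm_mul, norm_mul, RCLike.norm_conj]
  refine hid.trans (hhold.trans ?_)
  -- the numerical bound
  obtain ⟨T, hT⟩ : ∃ T : ℝ, T = (X / L ^ A') ^ (1 / (h : ℝ)) *
      (18 * X * L ^ 2) ^ (((h : ℝ) - 1) / (2 * h)) * (18 * X * L ^ 2) ^ (1 / 2 : ℝ) *
        (L ^ A / X) ^ (1 / (2 * (h : ℝ))) := ⟨_, rfl⟩
  rw [← hT]
  have hhR : (1 : ℝ) ≤ h := by exact_mod_cast hh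
  have hS0 : 0 ≤ X / L ^ A' := by positivity
  have hE0 : 0 ≤ 18 * X * L ^ 2 := by positivity
  have hK0 : 0 ≤ L ^ A / X := by positivity
  have hpow : T ^ (2 * h) = (X / L ^ A') ^ 2 * (18 * X * L ^ 2) ^ (2 * h - 1) * (L ^ A / X) := by
    rw [hT, mul_pow, mul_pow, mul_pow]
    have e1 : ((X / L ^ A') ^ (1 / (h : ℝ))) ^ (2 * h) = (X / L ^ A') ^ 2 := by
      rw [← Real.rpow_natCast (_ ^ _) (2 * h), ← Real.rpow_mul hS0, ← Real.rpow_natCast _ 2]
      congr 1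
      push_cast
      field_simp
    have e2 : ((18 * X * L ^ 2) ^ (((h : ℝ) - 1) / (2 * h))) ^ (2 * h) =
        (18 * X * L ^ 2) ^ (h - 1) := by
      rw [← Real.rpow_natCast (_ ^ _) (2 * h), ← Real.rpow_mul hE0, ← Real.rpow_natCast _ (h - 1)]
      congr 1
      rw [Nat.cast_sub hh]
      push_cast
      field_simp
    have e3 : ((18 * X * L ^ 2) ^ (1 / 2 : ℝ)) ^ (2 * h) = (18 * X * L ^ 2) ^ h := by
      rw [← Real.rpow_natCast (_ ^ _) (2 * h), ← Real.rpow_mul hE0, ← Real.rpow_natCast _ h]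
      congr 1
      push_cast
      field_simp
    have e4 : ((L ^ A / X) ^ (1 / (2 * (h : ℝ)))) ^ (2 * h) = L ^ A / X := by
      rw [← Real.rpow_natCast (_ ^ _) (2 * h), ← Real.rpow_mul hK0]
      conv_rhs => rw [← Real.rpow_one (L ^ A / X)]
      congr 1
      push_cast
      field_simp
    rw [e1, e2, e3, e4]
    have e5 : (18 * X * L ^ 2) ^ (2 * h - 1) = (18 * X * L ^ 2) ^ (h - 1) * (18 * X * L ^ 2) ^ h := by
      rw [← pow_add]
      congr 1
      omega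
    rw [e5]
    ring
  refine le_of_pow_le_pow_left₀ (n := 2 * h) (by omega) (by positivity) ?_
  rw [hpow]
  obtain ⟨k, hk⟩ : ∃ k : ℕ, h = k + 1 := ⟨h - 1, by omega⟩
  subst hk
  have e6 : 2 * (k + 1) - 1 = 2 * k + 1 := by omega
  rw [e6]
  have h18 : (18 : ℝ) ^ (2 * k + 1) ≤ L ^ (4 * (k + 1) + 2 + A) :=
    calc (18 : ℝ) ^ (2 * k + 1) ≤ L ^ (2 * k + 1) := pow_le_pow_left₀ (by norm_num) hL18 _
      _ ≤ L ^ (4 * (k + 1) + 2 + A) := pow_le_pow_right₀ (by linarith) (by omega)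
  have h19 : (X / L ^ A') ^ 2 * (18 * X * L ^ 2) ^ (2 * k + 1) * (L ^ A / X) =
      18 ^ (2 * k + 1) * (X ^ (2 * (k + 1)) * L ^ (2 * (2 * k + 1) + A)) / (L ^ (2 * A')) := by
    rw [div_pow, mul_pow, mul_pow, ← pow_mul, ← pow_mul]
    have e7 : L ^ (2 * (2 * k + 1) + A) = L ^ (2 * (2 * k + 1)) * L ^ A := pow_add _ _ _
    have e8 : (X : ℝ) ^ (2 * (k + 1)) = X ^ (2 * k + 1) * X := by
      rw [← pow_succ, show 2 * (k + 1) = 2 * k + 1 + 1 by ring]
    rw [e7, e8, mul_comm A' 2]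
    field_simp
  rw [h19, div_pow, ← pow_mul, div_le_div_iff₀ (by positivity) (by positivity)]
  have h20 : L ^ (2 * A') = L ^ (2 * (2 * k + 1) + A) * L ^ (B * (2 * (k + 1))) *
      L ^ (4 * (k + 1) + 2 + A) := by
    rw [← pow_add, ← pow_add]
    congr 1
    rw [hA']
    ring
  rw [h20]
  have h21 : 0 ≤ (X : ℝ) ^ (2 * (k + 1)) * L ^ (2 * (2 * k + 1) + A) * L ^ (B * (2 * (k + 1))) := by
    positivity
  nlinarith [mul_le_mul_of_nonneg_left h18 h21]

end Pool.MP_dd84fd_nt.E2
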