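import Pool.Agent.Lib.MP_dd84fd_nt.En.Defs

/-!
# Goldbach representations and additive energy, logarithmic savings: definitions
-/

set_option autoImplicit false

namespace Pool.MP_dd84fd_nt.E2

open Finset Pool.MP_67663b_nt.Odd Pool.MP_dd84fd_nt.En

/-- exponential sum over the primes `≤ X` -/
noncomputable def P1 (X : ℕ) (θ : ℝ) : ℂ := ∑ p ∈ (Icc 1 X).filter Nat.Prime, ee ((p : ℝ) * θ)

/-- model of the indicator function of the primes (`f2 w 0 = f2 w 1 = 0`) -/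
noncomputable def f2 (w n : ℕ) : ℝ := f1 w n / Real.log (n : ℝ)

/-- exponential sum of the model -/
noncomputable def F2 (w X : ℕ) (θ : ℝ) : ℂ := ∑ n ∈ Icc 1 X, (f2 w n : ℂ) * ee ((n : ℝ) * θ)

/-- `Σ_{2 ≤ m ≤ n} 1 / log m` -/
noncomputable def Li (n : ℕ) : ℝ := ∑ m ∈ Icc 2 n, 1 / Real.log (m : ℝ)

/-- `Σ_{2 ≤ m ≤ n-2} 1 / (log m log (n-m))` -/
noncomputable def JJ (n : ℕ) : ℝ :=
  ∑ m ∈ Icc 2 (n - 2), 1 / (Real.log (m : ℝ) * Real.log ((n - m : ℕ) : ℝ))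

/-- convolution of the model with itself -/
noncomputable def conv2 (w n : ℕ) : ℝ := ∑ a ∈ Icc 1 (n - 1), f2 w a * f2 w (n - a)

/-- the sifting limit `⌊(log X)^D⌋` -/
noncomputable def wX (D X : ℕ) : ℕ := ⌊(Real.log (X : ℝ)) ^ D⌋₊

end Pool.MP_dd84fd_nt.E2
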