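import Pool.Agent.Lib.MP_dd84fd_nt.E2.Compare2
import Pool.Agent.Lib.MP_dd84fd_nt.E2.ConvMain
import Pool.Agent.Lib.MP_dd84fd_nt.E2.SingRate
import Pool.Agent.Lib.MP_dd84fd_nt.En.Four2

/-!
# the energy theorem with logarithmic savings (module EB-E2)
-/

set_option autoImplicit false

namespace Pool.MP_dd84fd_nt.E2

open Finset Pool.MP_67663b_nt.Odd Pool.MP_dd84fd_nt.En

private lemma ev_pow (c : ℝ) (k : ℕ) {η : ℝ} (hη : 0 < η) :
    ∀ᶠ X : ℕ in Filter.atTop, c * (Real.log X) ^ k ≤ (X : ℝ) ^ η := by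
  have h1 := isLittleO_log_rpow_rpow_atTop (k : ℝ) hη
  have h2 := h1.bound (c := (|c| + 1)⁻¹) (by positivity)
  have h3 := tendsto_natCast_atTop_atTop (R := ℝ) |>.eventually h2
  have h4 : ∀ᶠ X : ℕ in Filter.atTop, 1 ≤ X := Filter.eventually_ge_atTop 1
  filter_upwards [h3, h4] with X h5 h6
  have hX : (1 : ℝ) ≤ X := by exact_mod_cast h6
  have hL : 0 ≤ Real.log X := Real.log_nonneg hX
  rw [Real.rpow_natCast, Real.norm_of_nonneg (by positivity), Real.norm_of_nonneg (by positivity),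
    inv_mul_eq_div, le_div_iff₀ (by positivity)] at h5
  have h7 : c ≤ |c| + 1 := (le_abs_self c).trans (by linarith)
  nlinarith [mul_le_mul_of_nonneg_right h7 (pow_nonneg hL k)]

private lemma ev_log (c : ℝ) : ∀ᶠ X : ℕ in Filter.atTop, c ≤ Real.log X :=
  (Real.tendsto_log_atTop.comp (tendsto_natCast_atTop_atTop (R := ℝ))).eventually_ge_atTop c

theorem energy2 (h : ℕ) (hh : 1 ≤ h) (A B : ℕ) : ∃ X0 : ℕ, ∀ X : ℕ, X0 ≤ X → ∀ ξ : ℕ → ℝ,
    (∀ n, 0 ≤ ξ n) → (∀ n, ξ n ≠ 0 → Even n ∧ 0 < n ∧ n ≤ X) →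
    ∑ n ∈ range (X + 1), ξ n = 1 → coll h X ξ ≤ (Real.log X) ^ A / X →
    ∑ n ∈ (range (X + 1)).filter (fun n : ℕ =>
        (n : ℝ) / (Real.log n) ^ B < |(g n : ℝ) - SS n * JJ n|), ξ n ≤
      1 / (Real.log X) ^ B := by
  classical
  obtain ⟨κ, hκ⟩ : ∃ κ : ℕ, κ = A + 2 * h * B + 1 := ⟨_, rfl⟩
  obtain ⟨D0, hD0⟩ := compare2 h hh A (κ + 2 * B + 1)
  obtain ⟨D', hD'⟩ : ∃ D' : ℕ, D' = max D0 (κ + B + 5) := ⟨_, rfl⟩
  have hD1 : D0 ≤ D' := by rw [hD']; exact le_max_left _ _
  have hD2 : κ + B + 5 ≤ D' := by rw [hD']; exact le_max_right _ _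
  obtain ⟨XC, hXC⟩ := hD0 D' hD1
  obtain ⟨η, hη, hη4, XM, hXM⟩ := conv2_main D' (by omega)
  obtain ⟨C, hC, hSR⟩ := sing_rate
  have hev : ∀ᶠ X : ℕ in Filter.atTop, XC ≤ X ∧ XM ≤ X ∧ 8 * (Real.log X) ^ (κ + B) ≤ (X : ℝ) ^ η ∧
      192 * C + 8 + (h + 1) * 4 ^ h ≤ Real.log X ∧ 1 ≤ X ∧
      1 * (Real.log X) ^ κ ≤ (X : ℝ) ^ (1 : ℝ) :=
    (Filter.eventually_ge_atTop XC).and ((Filter.eventually_ge_atTop XM).and
      ((ev_pow 8 (κ + B) hη).and ((ev_log _).and ((Filter.eventually_ge_atTop 1).and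
        (ev_pow 1 κ one_pos)))))
  obtain ⟨X0, hX0⟩ := Filter.eventually_atTop.1 hev
  refine ⟨X0, fun X hX ξ hξ hsupp hsum hcoll => ?_⟩
  obtain ⟨h1, h2, h3, h4, h5, h5'⟩ := hX0 X hX
  rw [one_mul, Real.rpow_one] at h5'
  obtain ⟨L, hL⟩ : ∃ L : ℝ, L = Real.log X := ⟨_, rfl⟩
  rw [← hL] at h3 h4 hcoll h5'
  have hXR : (1 : ℝ) ≤ X := by exact_mod_cast h5
  have hX0' : (0 : ℝ) < X := by linarith
  have hh4 : (0 : ℝ) ≤ (h + 1) * 4 ^ h := by positivity
  have hL8 : 8 ≤ L := by linarith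
  have hL1 : 1 ≤ L := by linarith
  have hL0 : 0 < L := by linarith
  rw [← hL]
  by_contra hcon
  rw [not_le] at hcon
  obtain ⟨w, hw⟩ : ∃ w : ℕ, w = wX D' X := ⟨_, rfl⟩
  have hwle : (w : ℝ) ≤ (Real.log X) ^ D' := by
    rw [hw, wX]
    exact Nat.floor_le (by rw [← hL]; positivity)
  have hLD : L ^ 5 ≤ L ^ D' := pow_le_pow_right₀ hL1 (by omega)
  have hL5 : 8 * L ≤ L ^ 5 := by
    have : L ^ 5 = L ^ 3 * (L * L) := by ring
    have h6 : (1 : ℝ) ≤ L ^ 3 := one_le_pow₀ hL1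
    nlinarith
  have hwge : L ^ D' / 2 ≤ w := by
    have h6 : (Real.log X) ^ D' < (w : ℝ) + 1 := by
      rw [hw, wX]
      exact Nat.lt_floor_add_one _
    rw [← hL] at h6
    have : 2 ≤ L ^ D' := by nlinarith
    linarith
  have hw2 : 2 ≤ w := by
    have h6 : (2 : ℝ) ≤ w := by nlinarith
    exact_mod_cast h6
  -- small numbers
  obtain ⟨Z, hZ⟩ : ∃ Z : ℕ, Z = ⌊(X : ℝ) / L ^ κ⌋₊ := ⟨_, rfl⟩
  have hZle : (Z : ℝ) ≤ X / L ^ κ := by rw [hZ]; exact Nat.floor_le (by positivity)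
  have hZlt : ∀ n : ℕ, ¬ n ≤ Z → (X : ℝ) / L ^ κ ≤ n := by
    intro n hn
    rw [not_le, hZ] at hn
    exact ((Nat.floor_lt (by positivity)).1 hn).le
  have hsmall : ∑ n ∈ (range (X + 1)).filter (fun n => n ≤ Z), ξ n ≤ 1 / (2 * L ^ B) := by
    have h6 := small_part h X ξ hξ Z
    have h7 : ((h : ℝ) * Z + 1) * coll h X ξ ≤ (1 / (2 * L ^ B)) ^ (2 * h) := by
      have h8 : ((h : ℝ) * Z + 1) ≤ (h + 1) * (X / L ^ κ) := by
        have h9 : 1 ≤ X / L ^ κ := by
          rw [le_div_iff₀ (by positivity), one_mul]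
          exact h5'
        nlinarith [mul_le_mul_of_nonneg_left hZle (by positivity : (0 : ℝ) ≤ h)]
      calc ((h : ℝ) * Z + 1) * coll h X ξ ≤ ((h + 1) * (X / L ^ κ)) * (L ^ A / X) :=
            mul_le_mul h8 hcoll (coll_nonneg h X ξ hξ) (by positivity)
        _ = (h + 1) * (L ^ A / L ^ κ) := by field_simp
        _ = (h + 1) * (1 / (L ^ (2 * h * B) * L)) := by
            rw [hκ, show A + 2 * h * B + 1 = A + (2 * h * B + 1) by ring, pow_add, pow_succ]
            field_simp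
        _ ≤ (1 / (2 * L ^ B)) ^ (2 * h) := by
            rw [div_pow, one_pow, mul_pow, ← pow_mul, mul_one_div, div_le_div_iff₀ (by positivity)
              (by positivity), one_mul]
            have h10 : (2 : ℝ) ^ (2 * h) = 4 ^ h := by rw [pow_mul]; norm_num
            rw [h10, show B * (2 * h) = 2 * h * B by ring]
            have h11 : ((h : ℝ) + 1) * 4 ^ h ≤ L := by linarith
            have h12 : (0 : ℝ) ≤ L ^ (2 * h * B) := by positivity
            nlinarith [mul_le_mul_of_nonneg_right h11 h12]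
    exact le_of_pow_le_pow_left₀ (by omega) (by positivity) (h6.trans h7)
  -- the test function
  obtain ⟨bad, hbad⟩ : ∃ bad : ℕ → Prop, bad = fun n : ℕ =>
    (n : ℝ) / (Real.log n) ^ B < |(g n : ℝ) - SS n * JJ n| := ⟨_, rfl⟩
  obtain ⟨sg, hsg⟩ : ∃ sg : ℕ → ℝ, sg = fun n => if 0 ≤ (g n : ℝ) - SS n * JJ n then 1 else -1 :=
    ⟨_, rfl⟩
  have hsg1 : ∀ n, |sg n| = 1 := by
    intro n
    rw [hsg]
    dsimp only
    split_ifs
    · exact abs_one
    · rw [abs_neg, abs_one]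
  have hsg2 : ∀ n, sg n * ((g n : ℝ) - SS n * JJ n) = |(g n : ℝ) - SS n * JJ n| := by
    intro n
    rw [hsg]
    dsimp only
    split_ifs with h6
    · rw [one_mul, abs_of_nonneg h6]
    · rw [abs_of_neg (not_le.1 h6)]
      ring
  obtain ⟨ζ, hζ⟩ : ∃ ζ : ℕ → ℝ, ζ = fun n => if bad n ∧ ¬ n ≤ Z then sg n * ξ n else 0 := ⟨_, rfl⟩
  have habs : ∀ n, |ζ n| = if bad n ∧ ¬ n ≤ Z then ξ n else 0 := by
    intro n
    rw [hζ]
    dsimp only
    split_ifs
    · rw [abs_mul, hsg1, one_mul, abs_of_nonneg (hξ n)]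
    · exact abs_zero
  have habsle : ∀ n, |ζ n| ≤ ξ n := by
    intro n
    rw [habs]
    split_ifs
    · exact le_rfl
    · exact hξ n
  have hmass : 1 / (2 * L ^ B) ≤ ∑ n ∈ range (X + 1), |ζ n| := by
    have h6 : ∑ n ∈ (range (X + 1)).filter (fun n : ℕ =>
        (n : ℝ) / (Real.log n) ^ B < |(g n : ℝ) - SS n * JJ n|), ξ n ≤
        ∑ n ∈ range (X + 1), |ζ n| + ∑ n ∈ (range (X + 1)).filter (fun n => n ≤ Z), ξ n := by
      rw [Finset.sum_filter, Finset.sum_filter, ← Finset.sum_add_distrib]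
      refine Finset.sum_le_sum fun n _ => ?_
      rw [habs]
      have h7 := hξ n
      have h8 : bad n ↔ (n : ℝ) / (Real.log n) ^ B < |(g n : ℝ) - SS n * JJ n| := by rw [hbad]
      by_cases h9 : bad n
      · rw [if_pos (h8.1 h9)]
        by_cases h10 : n ≤ Z
        · rw [if_neg (by tauto), if_pos h10]
          linarith
        · rw [if_pos ⟨h9, h10⟩, if_neg h10]
          linarith
      · rw [if_neg (fun h => h9 (h8.2 h))]
        split_ifs <;> linarith
    have h7 : 1 / L ^ B = 1 / (2 * L ^ B) + 1 / (2 * L ^ B) := by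
      field_simp
      norm_num
    linarith
  have hcomp := hXC X h1 ζ (by
      by_contra h6
      have h7 : |ζ 0| ≠ 0 := by simpa using h6
      rw [habs] at h7
      split_ifs at h7 with h8
      · exact absurd (hsupp 0 h7).2.1 (lt_irrefl 0)
      · exact h7 rfl) (by
      calc ∑ n ∈ range (X + 1), |ζ n| ≤ ∑ n ∈ range (X + 1), ξ n := sum_le_sum fun n _ => habsle n
        _ = 1 := hsum) (by
      rw [← hL]
      refine (coll_mono h X _ ξ fun n => ?_).trans hcoll
      rw [abs_abs]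
      exact habsle n)
  rw [← hw, ← hL] at hcomp
  -- lower bound
  have hterm : ∀ n ∈ range (X + 1), |ζ n| * (X / (2 * L ^ (κ + B))) ≤
      ζ n * ((g n : ℝ) - conv2 w n) := by
    intro n hn
    by_cases hb : bad n ∧ ¬ n ≤ Z
    · by_cases hξn : ξ n = 0
      · have h6 : ζ n = 0 := by rw [hζ]; dsimp only; rw [if_pos hb, hξn, mul_zero]
        rw [h6, abs_zero, zero_mul, zero_mul]
      obtain ⟨hev1, hn0, hnX⟩ := hsupp n hξn
      have hn2 : 2 ≤ n := by
        obtain ⟨k, hk⟩ := hev1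
        omega
      have hnR : (n : ℝ) ≤ X := by exact_mod_cast hnX
      have hnR2 : (2 : ℝ) ≤ n := by exact_mod_cast hn2
      have hlogn : 0 < Real.log n := Real.log_pos (by linarith)
      have hlognL : Real.log n ≤ L := by
        rw [hL]
        exact Real.log_le_log (by linarith) hnR
      have hmain : X / L ^ (κ + B) ≤ |(g n : ℝ) - SS n * JJ n| := by
        have h6 : (n : ℝ) / (Real.log n) ^ B < |(g n : ℝ) - SS n * JJ n| := by
          have := hb.1
          rw [hbad] at this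
          exact this
        have h7 : X / L ^ (κ + B) ≤ (n : ℝ) / (Real.log n) ^ B := by
          rw [pow_add, ← div_div]
          exact div_le_div₀ (by positivity) (hZlt n hb.2) (by positivity)
            (pow_le_pow_left₀ hlogn.le hlognL _)
        linarith
      have herr1 : |SS n - SW w n| * JJ n ≤ X / (8 * L ^ (κ + B)) * 2 := by
        have h6 := hSR n hn0 w (by
          have h8 : 4 * (1 + Real.log n) ≤ 4 * (1 + L) := by linarith
          have h9 : 4 * (1 + L) ≤ L ^ 5 / 2 := by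
            have h10 : (64 : ℝ) ≤ L * L := by nlinarith
            have h11 : L ^ 5 = (L * L) * (L * L) * L := by ring
            have h12 : (4096 : ℝ) ≤ (L * L) * (L * L) := by nlinarith
            nlinarith
          linarith)
        have h7 : C * (1 + Real.log n) ^ 2 / w ≤ C * (4 * L ^ 2) / (L ^ D' / 2) := by
          have h8 : (1 + Real.log n) ^ 2 ≤ 4 * L ^ 2 := by nlinarith
          exact div_le_div₀ (by positivity) (mul_le_mul_of_nonneg_left h8 hC.le) (by positivity)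
            hwge
        have h9 : JJ n ≤ 3 * X := (JJ_le n).trans (by linarith)
        have h10 : C * (4 * L ^ 2) / (L ^ D' / 2) * (3 * X) ≤ X / (8 * L ^ (κ + B)) * 2 := by
          have h11 : L ^ (κ + B + 5) ≤ L ^ D' := pow_le_pow_right₀ hL1 hD2
          have h12 : C * (4 * L ^ 2) / (L ^ D' / 2) ≤ C * (4 * L ^ 2) / (L ^ (κ + B + 5) / 2) :=
            div_le_div_of_nonneg_left (by positivity) (by positivity) (by linarith)
          have h13 : C * (4 * L ^ 2) / (L ^ (κ + B + 5) / 2) * (3 * X) =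
              24 * C * X / (L ^ (κ + B) * L ^ 3) := by
            rw [show κ + B + 5 = (κ + B) + 3 + 2 by ring, pow_add, pow_add]
            field_simp
            ring
          have h14 : 24 * C * X / (L ^ (κ + B) * L ^ 3) ≤ X / (8 * L ^ (κ + B)) * 2 := by
            rw [div_mul_eq_mul_div, div_le_div_iff₀ (by positivity) (by positivity)]
            have h15 : 192 * C ≤ L ^ 3 := by
              have : L ≤ L ^ 3 := by nlinarith [sq_nonneg L]
              linarith
            have h16 : 0 ≤ (X : ℝ) * L ^ (κ + B) := by positivity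
            nlinarith [mul_le_mul_of_nonneg_left h15 h16]
          calc C * (4 * L ^ 2) / (L ^ D' / 2) * (3 * X)
              ≤ C * (4 * L ^ 2) / (L ^ (κ + B + 5) / 2) * (3 * X) :=
                mul_le_mul_of_nonneg_right h12 (by positivity)
            _ ≤ _ := by rw [h13]; exact h14
        calc |SS n - SW w n| * JJ n ≤ (C * (4 * L ^ 2) / (L ^ D' / 2)) * (3 * X) :=
              mul_le_mul (h6.trans h7) h9 (JJ_nonneg n) (by positivity)
          _ ≤ _ := h10
      have herr2 : |conv2 w n - SW w n * JJ n| ≤ X / (8 * L ^ (κ + B)) := by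
        refine (hXM X h2 w hw2 hwle n hnX hev1 hn0).trans ?_
        rw [Real.rpow_sub hX0', Real.rpow_one]
        exact div_le_div_of_nonneg_left hX0'.le (by positivity) h3
      have h6 : ζ n = sg n * ξ n := by rw [hζ]; dsimp only; rw [if_pos hb]
      have h7 : |ζ n| = ξ n := by rw [habs, if_pos hb]
      rw [h7, h6]
      have h8 : sg n * ((g n : ℝ) - conv2 w n) = |(g n : ℝ) - SS n * JJ n| +
          sg n * ((SS n - SW w n) * JJ n - (conv2 w n - SW w n * JJ n)) := by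
        rw [← hsg2]
        ring
      have h9 : -(X / (8 * L ^ (κ + B)) * 2 + X / (8 * L ^ (κ + B))) ≤
          sg n * ((SS n - SW w n) * JJ n - (conv2 w n - SW w n * JJ n)) := by
        have h10 : |sg n * ((SS n - SW w n) * JJ n - (conv2 w n - SW w n * JJ n))| ≤
            X / (8 * L ^ (κ + B)) * 2 + X / (8 * L ^ (κ + B)) := by
          rw [abs_mul, hsg1, one_mul]
          refine (abs_sub _ _).trans ?_
          rw [abs_mul, abs_of_nonneg (JJ_nonneg n)]
          exact add_le_add herr1 herr2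
        exact (abs_le.1 h10).1
      have h11 : X / (2 * L ^ (κ + B)) ≤ sg n * ((g n : ℝ) - conv2 w n) := by
        rw [h8]
        have h12 : X / (8 * L ^ (κ + B)) * 2 + X / (8 * L ^ (κ + B)) + X / (2 * L ^ (κ + B)) ≤
            X / L ^ (κ + B) := by
          have h13 : X / (8 * L ^ (κ + B)) = (X / L ^ (κ + B)) / 8 := by
            field_simp
          have h14 : X / (2 * L ^ (κ + B)) = (X / L ^ (κ + B)) / 2 := by
            field_simp
          rw [h13, h14]
          have : 0 ≤ (X : ℝ) / L ^ (κ + B) := by positivity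
          linarith
        linarith
      calc ξ n * (X / (2 * L ^ (κ + B))) ≤ ξ n * (sg n * ((g n : ℝ) - conv2 w n)) :=
            mul_le_mul_of_nonneg_left h11 (hξ n)
        _ = _ := by ring
    · have h6 : ζ n = 0 := by rw [hζ]; dsimp only; rw [if_neg hb]
      rw [h6, abs_zero, zero_mul, zero_mul]
  have hlow := sum_le_sum hterm
  rw [← Finset.sum_mul] at hlow
  have h6 : 1 / (2 * L ^ B) * (X / (2 * L ^ (κ + B))) ≤ X / L ^ (κ + 2 * B + 1) :=
    calc 1 / (2 * L ^ B) * (X / (2 * L ^ (κ + B))) ≤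
          (∑ n ∈ range (X + 1), |ζ n|) * (X / (2 * L ^ (κ + B))) :=
          mul_le_mul_of_nonneg_right hmass (by positivity)
      _ ≤ ∑ n ∈ range (X + 1), ζ n * ((g n : ℝ) - conv2 w n) := hlow
      _ ≤ |∑ n ∈ range (X + 1), ζ n * ((g n : ℝ) - conv2 w n)| := le_abs_self _
      _ ≤ X / L ^ (κ + 2 * B + 1) := hcomp
  have h7 : 1 / (2 * L ^ B) * (X / (2 * L ^ (κ + B))) = X / (4 * L ^ (κ + 2 * B)) := by
    rw [show κ + 2 * B = (κ + B) + B by ring, pow_add L (κ + B) B]
    field_simp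
    norm_num
  rw [h7, div_le_div_iff₀ (by positivity) (by positivity), pow_succ] at h6
  have h8 : 0 < (X : ℝ) * L ^ (κ + 2 * B) := by positivity
  nlinarith

end Pool.MP_dd84fd_nt.E2
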