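import Pool.Agent.Lib.MP_dd84fd_nt.E2.RoughClass

/-!
# the model in residue classes (module EB-FC)
-/

set_option autoImplicit false

namespace Pool.MP_dd84fd_nt.E2

open Finset Pool.MP_67663b_nt.Odd Pool.MP_dd84fd_nt.En

/-- Abel summation with the weight `1/log n`. -/
private lemma FC_abel (a : ℕ → ℝ) (M : ℝ) (t : ℕ) (ht : 2 ≤ t)
    (h : ∀ u ≤ t, |∑ n ∈ Icc 1 u, a n| ≤ M) :
    |∑ n ∈ Icc 2 t, a n / Real.log n - (∑ n ∈ Icc 1 t, a n) / Real.log t| ≤
      M * (2 / Real.log 2 - 1 / Real.log t) := by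
  induction t, ht using Nat.le_induction with
  | base =>
    have h1 := h 1 (by norm_num)
    rw [show Icc 1 1 = ({1} : Finset ℕ) by rfl, sum_singleton] at h1
    rw [show Icc 2 2 = ({2} : Finset ℕ) by rfl, sum_singleton,
      show Icc 1 2 = ({1, 2} : Finset ℕ) by rfl, sum_insert (by norm_num), sum_singleton]
    have hl : 0 < Real.log 2 := Real.log_pos (by norm_num)
    push_cast
    have e1 : a 2 / Real.log 2 - (a 1 + a 2) / Real.log 2 = -(a 1 / Real.log 2) := by ring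
    have e2 : M * (2 / Real.log 2 - 1 / Real.log 2) = M / Real.log 2 := by ring
    rw [e1, e2, abs_neg, abs_div, abs_of_pos hl]
    gcongr
  | succ t ht ih =>
    have ih' := ih (fun u hu => h u (hu.trans (Nat.le_succ t)))
    have ht' : (2 : ℝ) ≤ t := by exact_mod_cast ht
    have hl1 : 0 < Real.log t := Real.log_pos (by linarith)
    have hl2 : 0 < Real.log ((t + 1 : ℕ) : ℝ) := Real.log_pos (by push_cast; linarith)
    have hle : Real.log t ≤ Real.log ((t + 1 : ℕ) : ℝ) :=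
      Real.log_le_log (by linarith) (by push_cast; linarith)
    have hinv : 1 / Real.log ((t + 1 : ℕ) : ℝ) ≤ 1 / Real.log t := one_div_le_one_div_of_le hl1 hle
    have hA := h t (Nat.le_succ t)
    rw [sum_Icc_succ_top (by omega), sum_Icc_succ_top (by omega)]
    have e1 : ∑ n ∈ Icc 2 t, a n / Real.log n + a (t + 1) / Real.log ((t + 1 : ℕ) : ℝ) -
        (∑ n ∈ Icc 1 t, a n + a (t + 1)) / Real.log ((t + 1 : ℕ) : ℝ) =
        (∑ n ∈ Icc 2 t, a n / Real.log n - (∑ n ∈ Icc 1 t, a n) / Real.log t) +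
          (∑ n ∈ Icc 1 t, a n) * (1 / Real.log t - 1 / Real.log ((t + 1 : ℕ) : ℝ)) := by ring
    rw [e1]
    have h3 : |(∑ n ∈ Icc 1 t, a n) * (1 / Real.log t - 1 / Real.log ((t + 1 : ℕ) : ℝ))| ≤
        M * (1 / Real.log t - 1 / Real.log ((t + 1 : ℕ) : ℝ)) := by
      rw [abs_mul, abs_of_nonneg (sub_nonneg.2 hinv)]
      exact mul_le_mul_of_nonneg_right hA (sub_nonneg.2 hinv)
    calc _ ≤ |∑ n ∈ Icc 2 t, a n / Real.log n - (∑ n ∈ Icc 1 t, a n) / Real.log t| +
          |(∑ n ∈ Icc 1 t, a n) * (1 / Real.log t - 1 / Real.log ((t + 1 : ℕ) : ℝ))| :=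
          abs_add_le _ _
      _ ≤ M * (2 / Real.log 2 - 1 / Real.log t) +
          M * (1 / Real.log t - 1 / Real.log ((t + 1 : ℕ) : ℝ)) := add_le_add ih' h3
      _ = _ := by ring

private lemma FC_abel' (a : ℕ → ℝ) (M : ℝ) (t : ℕ)
    (h : ∀ u ≤ t, |∑ n ∈ Icc 1 u, a n| ≤ M) :
    |∑ n ∈ Icc 2 t, a n / Real.log n| ≤ 3 * M := by
  have hM : 0 ≤ M := (abs_nonneg _).trans (h 0 (Nat.zero_le t))
  rcases Nat.lt_or_ge t 2 with ht | ht
  · rw [Icc_eq_empty (by omega), sum_empty, abs_zero]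
    positivity
  · have h1 := FC_abel a M t ht h
    have ht' : (2 : ℝ) ≤ t := by exact_mod_cast ht
    have hl1 : 0 < Real.log t := Real.log_pos (by linarith)
    have h2 : |(∑ n ∈ Icc 1 t, a n) / Real.log t| ≤ M * (1 / Real.log t) := by
      rw [abs_div, abs_of_pos hl1, mul_one_div]
      exact div_le_div_of_nonneg_right (h t le_rfl) hl1.le
    have h3 : |∑ n ∈ Icc 2 t, a n / Real.log n| ≤
        |∑ n ∈ Icc 2 t, a n / Real.log n - (∑ n ∈ Icc 1 t, a n) / Real.log t| +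
          |(∑ n ∈ Icc 1 t, a n) / Real.log t| := by
      have := abs_add_le (∑ n ∈ Icc 2 t, a n / Real.log n - (∑ n ∈ Icc 1 t, a n) / Real.log t)
        ((∑ n ∈ Icc 1 t, a n) / Real.log t)
      rwa [sub_add_cancel] at this
    have h4 : M * (2 / Real.log 2 - 1 / Real.log t) + M * (1 / Real.log t) = M * (2 / Real.log 2) := by
      ring
    have h5 : 2 / Real.log 2 ≤ 3 := by
      have := Real.log_two_gt_d9
      rw [div_le_iff₀ (by linarith)]
      linarith
    calc _ ≤ M * (2 / Real.log 2 - 1 / Real.log t) + M * (1 / Real.log t) :=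
          h3.trans (add_le_add h1 h2)
      _ = M * (2 / Real.log 2) := h4
      _ ≤ M * 3 := mul_le_mul_of_nonneg_left h5 hM
      _ = 3 * M := mul_comm _ _

theorem f2_class (D : ℕ) (hD : 1 ≤ D) : ∃ η : ℝ, 0 < η ∧ η ≤ 1 / 4 ∧ ∃ X0 : ℕ,
    ∀ X : ℕ, X0 ≤ X → ∀ w : ℕ, (w : ℝ) ≤ (Real.log X) ^ D →
    ∀ r : ℕ, 1 ≤ r → r ≤ X → (∀ p : ℕ, p.Prime → p ∣ r → p ≤ w) → ∀ c : ℕ, Nat.Coprime c r →
    ∀ t : ℕ, t ≤ X →
    |∑ n ∈ (Icc 1 t).filter (fun n => n ≡ c [MOD r]), f2 w n - Li t / (Nat.totient r : ℝ)| ≤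
      (X : ℝ) ^ (1 - η) := by
  obtain ⟨η, hη, hη4, X1, hX1⟩ := rough_class D hD
  refine ⟨η / 2, by positivity, by linarith, ?_⟩
  have hev : ∀ᶠ X : ℕ in Filter.atTop, (3 : ℝ) ≤ (X : ℝ) ^ (η / 2) :=
    ((tendsto_rpow_atTop (by positivity : 0 < η / 2)).comp
      tendsto_natCast_atTop_atTop).eventually_ge_atTop 3
  obtain ⟨X2, hX2⟩ := Filter.eventually_atTop.1 hev
  refine ⟨max (max X1 X2) 1, fun X hX w hw r hr hrX hp c hc t ht => ?_⟩
  have hXa : X1 ≤ X := (le_max_left _ _).trans ((le_max_left _ _).trans hX)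
  have hXb : X2 ≤ X := (le_max_right _ _).trans ((le_max_left _ _).trans hX)
  have hXc : 1 ≤ X := (le_max_right _ _).trans hX
  have hXpos : (0 : ℝ) < X := by exact_mod_cast hXc
  have h3 := hX2 X hXb
  set a : ℕ → ℝ := fun n => (if n ≡ c [MOD r] then f1 w n else 0) - 1 / (Nat.totient r : ℝ) with ha
  have hsum : ∀ u : ℕ, ∑ n ∈ Icc 1 u, a n =
      ∑ n ∈ (Icc 1 u).filter (fun n => n ≡ c [MOD r]), f1 w n - (u : ℝ) / (Nat.totient r : ℝ) := by
    intro u
    rw [ha, sum_sub_distrib, sum_filter, sum_const, Nat.card_Icc, nsmul_eq_mul]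
    congr 1
    simp [div_eq_mul_inv]
  have hM : ∀ u ≤ t, |∑ n ∈ Icc 1 u, a n| ≤ (X : ℝ) ^ (1 - η) := by
    intro u hu
    rw [hsum]
    exact hX1 X hXa w hw r hr hrX hp c hc u (hu.trans ht)
  have habel := FC_abel' a _ t hM
  have heq : ∑ n ∈ (Icc 1 t).filter (fun n => n ≡ c [MOD r]), f2 w n - Li t / (Nat.totient r : ℝ) =
      ∑ n ∈ Icc 2 t, a n / Real.log n := by
    have e1 : ∑ n ∈ (Icc 1 t).filter (fun n => n ≡ c [MOD r]), f2 w n =
        ∑ n ∈ Icc 2 t, (if n ≡ c [MOD r] then f1 w n else 0) / Real.log n := by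
      rw [sum_filter]
      have e3 : ∀ n : ℕ, (if n ≡ c [MOD r] then f2 w n else 0) =
          (if n ≡ c [MOD r] then f1 w n else 0) / Real.log n := by
        intro n
        unfold f2
        split_ifs
        · rfl
        · rw [zero_div]
      rw [sum_congr rfl fun n _ => e3 n]
      symm
      refine sum_subset (fun n hn => ?_) (fun n hn hn2 => ?_)
      · rw [mem_Icc] at hn ⊢
        omega
      · rw [mem_Icc] at hn hn2
        have : n = 1 := by omega
        rw [this]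
        simp
    rw [e1]
    unfold Li
    rw [sum_div, ← sum_sub_distrib]
    refine sum_congr rfl fun n _ => ?_
    rw [ha]
    simp only
    ring
  rw [heq]
  refine habel.trans ?_
  calc 3 * (X : ℝ) ^ (1 - η) ≤ (X : ℝ) ^ (η / 2) * (X : ℝ) ^ (1 - η) := by gcongr
    _ = (X : ℝ) ^ (1 - η / 2) := by
        rw [← Real.rpow_add hXpos]
        congr 1
        ring

end Pool.MP_dd84fd_nt.E2
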