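import Pool.Agent.Lib.MP_dd84fd_nt.E2.Rankin
import Pool.Agent.Lib.MP_dd84fd_nt.E2.FBound
import Pool.Agent.Lib.MP_dd84fd_nt.E2.MinorP
import Pool.Agent.Lib.MP_dd84fd_nt.En.Recip2
import Pool.Agent.Lib.MP_dd84fd_nt.En.Geo

/-!
# minor arc bound for the model (module EB-MF)
-/

set_option autoImplicit false

namespace Pool.MP_dd84fd_nt.E2

open Finset Pool.MP_67663b_nt.Odd Pool.MP_dd84fd_nt.En

/-- the sum over the multiples of `d` -/
private lemma MF_mult (d t : ℕ) (hd : 0 < d) (θ : ℝ) :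
    ∑ n ∈ (Icc 1 t).filter (fun n => d ∣ n), ee ((n : ℝ) * θ) =
      ∑ k ∈ Ioc 0 (t / d), ee ((k : ℝ) * ((d : ℝ) * θ)) := by
  symm
  refine sum_bij (fun k _ => d * k) ?_ ?_ ?_ ?_
  · intro k hk
    rw [mem_Ioc] at hk
    rw [mem_filter, mem_Icc]
    refine ⟨⟨Nat.mul_pos hd hk.1, ?_⟩, dvd_mul_right d k⟩
    calc d * k ≤ d * (t / d) := Nat.mul_le_mul_left d hk.2
      _ ≤ t := Nat.mul_div_le t d
  · intro k _ k' _ h
    exact Nat.eq_of_mul_eq_mul_left hd h
  · intro n hn
    rw [mem_filter, mem_Icc] at hn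
    obtain ⟨k, rfl⟩ := hn.2
    refine ⟨k, ?_, rfl⟩
    rw [mem_Ioc]
    constructor
    · exact Nat.pos_of_mul_pos_left hn.1.1
    · rw [Nat.le_div_iff_mul_le hd, mul_comm]
      exact hn.1.2
  · intro k _
    congr 1
    push_cast
    ring

/-- the exponential sum of the model as a sum over the divisors of the primorial -/
private lemma MF_expand (w t : ℕ) (θ : ℝ) :
    ∑ n ∈ Icc 1 t, (f1 w n : ℂ) * ee ((n : ℝ) * θ) =
      (((primorial w : ℝ) / (Nat.totient (primorial w) : ℝ) : ℝ) : ℂ) *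
        ∑ d ∈ (primorial w).divisors, ((ArithmeticFunction.moebius d : ℤ) : ℂ) *
          ∑ k ∈ Ioc 0 (t / d), ee ((k : ℝ) * ((d : ℝ) * θ)) := by
  classical
  have hP : 0 < primorial w := primorial_pos w
  set P := primorial w with hPdef
  have h1 : ∀ n ∈ Icc 1 t, (f1 w n : ℂ) * ee ((n : ℝ) * θ) =
      (((P : ℝ) / (Nat.totient P : ℝ) : ℝ) : ℂ) * ∑ d ∈ P.divisors,
        if d ∣ n then ((ArithmeticFunction.moebius d : ℤ) : ℂ) * ee ((n : ℝ) * θ) else 0 := by
    intro n hn
    have hn1 : 0 < n := (mem_Icc.mp hn).1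
    have h2 : ∑ d ∈ P.divisors,
        (if d ∣ n then ((ArithmeticFunction.moebius d : ℤ) : ℂ) * ee ((n : ℝ) * θ) else 0) =
        ((∑ d ∈ (Nat.gcd n P).divisors, ArithmeticFunction.moebius d : ℤ) : ℂ) *
          ee ((n : ℝ) * θ) := by
      rw [← Finset.sum_filter]
      push_cast
      rw [Finset.sum_mul]
      refine sum_congr ?_ fun _ _ => rfl
      ext d
      rw [mem_filter, Nat.mem_divisors, Nat.mem_divisors]
      constructor
      · rintro ⟨⟨h3, _⟩, h4⟩
        exact ⟨Nat.dvd_gcd h4 h3, Nat.gcd_ne_zero_left hn1.ne'⟩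
      · rintro ⟨h3, _⟩
        exact ⟨⟨h3.trans (Nat.gcd_dvd_right n P), hP.ne'⟩, h3.trans (Nat.gcd_dvd_left n P)⟩
    have h3 : (∑ d ∈ (Nat.gcd n P).divisors, ArithmeticFunction.moebius d : ℤ) =
        if Nat.gcd n P = 1 then 1 else 0 := by
      rw [← ArithmeticFunction.coe_mul_zeta_apply, ArithmeticFunction.moebius_mul_coe_zeta,
        ArithmeticFunction.one_apply]
    rw [h2, h3]
    unfold f1
    by_cases hc : Nat.Coprime n P
    · rw [if_pos hc, if_pos hc]
      push_cast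
      ring
    · rw [if_neg hc, if_neg hc]
      push_cast
      ring
  rw [sum_congr rfl h1, ← Finset.mul_sum, Finset.sum_comm]
  congr 1
  refine sum_congr rfl fun d hd => ?_
  have hd0 : 0 < d := Nat.pos_of_mem_divisors hd
  rw [← MF_mult d t hd0, ← Finset.sum_filter, Finset.mul_sum]

private lemma MF_mn_nonneg {M θ : ℝ} (hM : 0 ≤ M) : 0 ≤ mn M θ := by
  unfold mn
  split_ifs
  · exact hM
  · positivity

theorem minor_F (A : ℕ) : ∃ D : ℕ, ∀ D' : ℕ, 1 ≤ D' → ∃ X0 : ℕ, ∀ X : ℕ, X0 ≤ X →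
    ∀ w : ℕ, (w : ℝ) ≤ (Real.log X) ^ D' → ∀ θ : ℝ,
    ¬ Ht ((Real.log X) ^ D) X θ → ‖F2 w X θ‖ ≤ X / (Real.log X) ^ A := by
  classical
  obtain ⟨C, hC, hmn⟩ := sum_mn'
  refine ⟨A + 6 + 1, fun D' hD' => ?_⟩
  have hD'R : (1 : ℝ) ≤ D' := by exact_mod_cast hD'
  obtain ⟨XF, hXF⟩ := f1_le D'
  obtain ⟨XR, hXR⟩ := rankin D' hD' (ε := 1 / (16 * (D' : ℝ))) (by positivity)
  obtain ⟨X1, hX1⟩ := MP_log_large (max 3 (18 * C))
  obtain ⟨X2, hX2⟩ := MP_log_pow 1 (A + 6) (ε := 1 / 2) (by norm_num)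
  obtain ⟨X3, hX3⟩ := MP_log_pow 2 (A + 2) (ε := 3 / (16 * (D' : ℝ))) (by positivity)
  refine ⟨max (max (max XF XR) (max X1 X2)) (max X3 4), fun X hX w hw θ hθ => ?_⟩
  simp only [max_le_iff] at hX
  obtain ⟨⟨⟨hXF', hXR'⟩, hX1', hX2'⟩, hX3', hX4⟩ := hX
  have hX4R : (4 : ℝ) ≤ X := by exact_mod_cast hX4
  have hX0 : (0 : ℝ) < X := by linarith
  obtain ⟨hPφ, hf1⟩ := hXF X hXF' w hw
  have hrk := hXR X hXR' w hw
  set L := Real.log X with hL
  have hL3 : 3 ≤ L := (le_max_left _ _).trans (hX1 X hX1')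
  have hLC : 18 * C ≤ L := (le_max_right _ _).trans (hX1 X hX1')
  have hL0 : 0 < L := by linarith
  have hsq : Real.sqrt X * Real.sqrt X = X := Real.mul_self_sqrt hX0.le
  have hsq2 : 2 ≤ Real.sqrt X := by
    rw [Real.le_sqrt (by norm_num) hX0.le]
    linarith
  have hsqX : Real.sqrt X ≤ X := by nlinarith
  have hXs : L ^ (A + 6) ≤ Real.sqrt X := by
    have := hX2 X hX2'
    rwa [one_mul, ← Real.sqrt_eq_rpow] at this
  have hLX : L ^ (A + 6) ≤ X := hXs.trans hsqX
  have hX3'' : 2 * L ^ (A + 2) ≤ (X : ℝ) ^ (3 / (16 * (D' : ℝ))) := hX3 X hX3'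
  obtain ⟨q, a, hq, hgcd, hq1, hq2, happ⟩ := MP_dirichlet (by linarith) hLX θ hθ
  have hqR : (1 : ℝ) ≤ q := by exact_mod_cast hq
  set P := primorial w with hP
  -- the tail of the sum over the divisors
  set z := Real.sqrt X with hz
  have htail : ∑ d ∈ P.divisors.filter (fun d : ℕ => z < (d : ℝ)), 1 / (d : ℝ) ≤
      (X : ℝ) ^ (-(3 / (16 * (D' : ℝ)))) := by
    refine (hrk z (by linarith)).1.trans (le_of_eq ?_)
    rw [hz, Real.sqrt_eq_rpow, ← Real.rpow_mul hX0.le, ← Real.rpow_add hX0]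
    congr 1
    field_simp
    norm_num
  -- partial sums
  have hM : ∀ t ≤ X, ‖∑ n ∈ Icc 1 t, (f1 w n : ℂ) * ee ((n : ℝ) * θ)‖ ≤ X / L ^ (A + 1) := by
    intro t ht
    have htX : (t : ℝ) ≤ X := by exact_mod_cast ht
    rcases lt_or_ge ((t : ℝ)) (X / L ^ (A + 2)) with hlt | hge
    · calc ‖∑ n ∈ Icc 1 t, (f1 w n : ℂ) * ee ((n : ℝ) * θ)‖
          ≤ ∑ n ∈ Icc 1 t, ‖(f1 w n : ℂ) * ee ((n : ℝ) * θ)‖ := norm_sum_le _ _
        _ ≤ ∑ _n ∈ Icc 1 t, L := by
            refine sum_le_sum fun n _ => ?_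
            rw [norm_mul, norm_ee, mul_one, Complex.norm_real,
              Real.norm_of_nonneg (f1_nonneg w n)]
            exact hf1 n
        _ = t * L := by simp
        _ ≤ X / L ^ (A + 2) * L := mul_le_mul_of_nonneg_right hlt.le hL0.le
        _ = X / L ^ (A + 1) := by
            rw [pow_succ L (A + 1)]
            field_simp
    · have htz : z ≤ t := by
        refine le_trans ?_ hge
        rw [le_div_iff₀ (by positivity)]
        calc z * L ^ (A + 2) ≤ z * z := by
              apply mul_le_mul_of_nonneg_left _ (by linarith)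
              exact (pow_le_pow_right₀ (by linarith) (by omega)).trans hXs
          _ = X := hsq
      have ht2 : (2 : ℝ) ≤ t := hsq2.trans htz
      rw [MF_expand, norm_mul, Complex.norm_real]
      have hPφ0 : 0 ≤ (P : ℝ) / (Nat.totient P : ℝ) := by positivity
      rw [Real.norm_of_nonneg hPφ0]
      -- the terms
      have hterm : ‖∑ d ∈ P.divisors, ((ArithmeticFunction.moebius d : ℤ) : ℂ) *
          ∑ k ∈ Ioc 0 (t / d), ee ((k : ℝ) * ((d : ℝ) * θ))‖ ≤
          ∑ d ∈ Icc 1 ⌊z⌋₊, mn ((t : ℝ) / d) ((d : ℝ) * θ) +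
          t * ∑ d ∈ P.divisors.filter (fun d : ℕ => z < (d : ℝ)), 1 / (d : ℝ) := by
        refine (norm_sum_le _ _).trans ?_
        rw [← Finset.sum_filter_add_sum_filter_not P.divisors (fun d : ℕ => z < (d : ℝ)),
          add_comm]
        have hmu : ∀ (d : ℕ) (x : ℂ), ‖((ArithmeticFunction.moebius d : ℤ) : ℂ) * x‖ ≤ ‖x‖ := by
          intro d x
          rw [norm_mul, Complex.norm_intCast]
          have h1 : |((ArithmeticFunction.moebius d : ℤ) : ℝ)| ≤ 1 := by
            exact_mod_cast ArithmeticFunction.abs_moebius_le_one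
          exact mul_le_of_le_one_left (norm_nonneg _) h1
        have hdiv : ∀ d : ℕ, ((t / d : ℕ) : ℝ) ≤ (t : ℝ) / d := fun d => Nat.cast_div_le
        apply add_le_add
        · calc ∑ d ∈ P.divisors.filter (fun d : ℕ => ¬ z < (d : ℝ)),
                ‖((ArithmeticFunction.moebius d : ℤ) : ℂ) *
                  ∑ k ∈ Ioc 0 (t / d), ee ((k : ℝ) * ((d : ℝ) * θ))‖
              ≤ ∑ d ∈ P.divisors.filter (fun d : ℕ => ¬ z < (d : ℝ)),
                mn ((t : ℝ) / d) ((d : ℝ) * θ) := by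
                refine sum_le_sum fun d _ => (hmu d _).trans ?_
                exact norm_sum_Ioc_le_mn 0 (t / d) _ _ (by rw [Nat.sub_zero]; exact hdiv d)
            _ ≤ ∑ d ∈ Icc 1 ⌊z⌋₊, mn ((t : ℝ) / d) ((d : ℝ) * θ) := by
                apply sum_le_sum_of_subset_of_nonneg
                · intro d hd
                  rw [mem_filter] at hd
                  rw [mem_Icc]
                  exact ⟨Nat.pos_of_mem_divisors hd.1, Nat.le_floor (not_lt.mp hd.2)⟩
                · intro d _ _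
                  exact MF_mn_nonneg (by positivity)
        · rw [Finset.mul_sum]
          refine sum_le_sum fun d hd => (hmu d _).trans ?_
          refine (norm_sum_le _ _).trans ?_
          simp only [norm_ee, Finset.sum_const, Nat.card_Ioc, nsmul_eq_mul, mul_one, Nat.sub_zero]
          refine (hdiv d).trans (le_of_eq ?_)
          ring
      have hmain := hmn θ q a hq hgcd happ t ⌊z⌋₊ ((Nat.floor_le (by linarith)).trans htz) ht2
      have hlog : Real.log (2 * q * t) ≤ 3 * L := by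
        have hqX : (q : ℝ) ≤ X := by
          refine hq2.trans (div_le_self hX0.le ?_)
          exact one_le_pow₀ (by linarith)
        have h1 : 2 * (q : ℝ) * t ≤ (X : ℝ) ^ 3 := by
          calc 2 * (q : ℝ) * t ≤ X * X * X := by gcongr; linarith
            _ = (X : ℝ) ^ 3 := by ring
        have h2 := Real.log_le_log (by positivity) h1
        rw [Real.log_pow] at h2
        exact_mod_cast h2
      have hlog0 : 0 ≤ Real.log (2 * q * t) := by
        apply Real.log_nonneg
        nlinarith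
      have hQ : (0 : ℝ) ≤ X / L ^ (A + 6) := by positivity
      have h1 : (t : ℝ) / q ≤ X / L ^ (A + 6) := by
        apply div_le_div₀ hX0.le htX (by positivity) hq1
      have h2 : ((⌊z⌋₊ : ℕ) : ℝ) ≤ X / L ^ (A + 6) := by
        refine (Nat.floor_le (by linarith)).trans ?_
        rw [le_div_iff₀ (by positivity)]
        calc z * L ^ (A + 6) ≤ z * z := mul_le_mul_of_nonneg_left hXs (by linarith)
          _ = X := hsq
      have h3 : ∑ d ∈ Icc 1 ⌊z⌋₊, mn ((t : ℝ) / d) ((d : ℝ) * θ) ≤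
          9 * C * L * (X / L ^ (A + 6)) := by
        refine hmain.trans ?_
        calc C * ((t : ℝ) / q + (⌊z⌋₊ : ℕ) + q) * Real.log (2 * q * t)
            ≤ C * (X / L ^ (A + 6) + X / L ^ (A + 6) + X / L ^ (A + 6)) * (3 * L) := by
              apply mul_le_mul _ hlog hlog0 (by positivity)
              apply mul_le_mul_of_nonneg_left _ hC.le
              linarith
          _ = 9 * C * L * (X / L ^ (A + 6)) := by ring
      have h4 : (t : ℝ) * ∑ d ∈ P.divisors.filter (fun d : ℕ => z < (d : ℝ)), 1 / (d : ℝ) ≤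
          X * (X : ℝ) ^ (-(3 / (16 * (D' : ℝ)))) := by
        apply mul_le_mul htX htail _ hX0.le
        exact sum_nonneg fun d _ => by positivity
      have h5 : (X : ℝ) ^ (-(3 / (16 * (D' : ℝ)))) ≤ 1 / (2 * L ^ (A + 2)) := by
        rw [Real.rpow_neg hX0.le, ← one_div]
        exact one_div_le_one_div_of_le (by positivity) hX3''
      calc (P : ℝ) / (Nat.totient P : ℝ) * ‖∑ d ∈ P.divisors,
            ((ArithmeticFunction.moebius d : ℤ) : ℂ) *
            ∑ k ∈ Ioc 0 (t / d), ee ((k : ℝ) * ((d : ℝ) * θ))‖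
          ≤ L * (9 * C * L * (X / L ^ (A + 6)) + X * (1 / (2 * L ^ (A + 2)))) := by
            apply mul_le_mul hPφ _ (norm_nonneg _) hL0.le
            refine hterm.trans (add_le_add h3 (h4.trans ?_))
            exact mul_le_mul_of_nonneg_left h5 hX0.le
        _ = (9 * C / L ^ 3 + 1 / 2) * (X / L ^ (A + 1)) := by
            rw [show A + 6 = (A + 1) + 5 by ring, show A + 2 = (A + 1) + 1 by ring, pow_add,
              pow_add L (A + 1) 1]
            field_simp
        _ ≤ 1 * (X / L ^ (A + 1)) := by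
            apply mul_le_mul_of_nonneg_right _ (by positivity)
            have h6 : 9 * C / L ^ 3 ≤ 1 / 2 := by
              rw [div_le_iff₀ (by positivity)]
              have h7 : L ≤ L ^ 3 := by
                calc L = L ^ 1 := (pow_one L).symm
                  _ ≤ L ^ 3 := pow_le_pow_right₀ (by linarith) (by norm_num)
              linarith
            linarith
        _ = X / L ^ (A + 1) := one_mul _
  have h1 := MP_abel _ _ X hM
  have h2 : F2 w X θ = ∑ n ∈ Icc 1 X, ((1 / Real.log (n : ℝ) : ℝ) : ℂ) *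
      ((f1 w n : ℂ) * ee ((n : ℝ) * θ)) := by
    unfold F2 f2
    refine sum_congr rfl fun n _ => ?_
    rw [← mul_assoc, ← Complex.ofReal_mul]
    congr 2
    ring
  rw [h2]
  refine h1.trans ?_
  have h3 : 3 * (X / L ^ (A + 1)) = 3 / L * (X / L ^ A) := by
    rw [pow_succ]
    field_simp
  rw [h3]
  have h4 : 3 / L ≤ 1 := by rwa [div_le_one hL0]
  have h5 : 0 ≤ (X : ℝ) / L ^ A := by positivity
  nlinarith

end Pool.MP_dd84fd_nt.E2
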