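import Pool.Agent.Lib.MP_dd84fd_nt.E2.Close
import Pool.Agent.Lib.MP_dd84fd_nt.E2.MinorP
import Pool.Agent.Lib.MP_dd84fd_nt.E2.MinorF

/-!
# primes and model agree uniformly (module EB-SU)
-/

set_option autoImplicit false

namespace Pool.MP_dd84fd_nt.E2

open Finset Pool.MP_67663b_nt.Odd Pool.MP_dd84fd_nt.En

theorem Ht_mono {H H' X θ : ℝ} (h : H ≤ H') (hH : Ht H X θ) : Ht H' X θ := by
  obtain ⟨q, a, hq, hg, hle⟩ := hH
  exact ⟨q, a, hq, hg, hle.trans h⟩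

theorem sup_close (A : ℕ) : ∃ D0 : ℕ, ∀ D' : ℕ, D0 ≤ D' → ∃ X0 : ℕ, ∀ X : ℕ, X0 ≤ X →
    ∀ θ : ℝ, ‖P1 X θ - F2 (wX D' X) X θ‖ ≤ X / (Real.log X) ^ A := by
  obtain ⟨DP, XP, hP⟩ := minor_P (A + 1)
  obtain ⟨DF, hF⟩ := minor_F (A + 1)
  refine ⟨max (max DP DF) 1, ?_⟩
  intro D' hD'
  have hD1 : 1 ≤ max (max DP DF) 1 := le_max_right _ _
  have hDP : DP ≤ max (max DP DF) 1 := (le_max_left _ _).trans (le_max_left _ _)
  have hDF : DF ≤ max (max DP DF) 1 := (le_max_right _ _).trans (le_max_left _ _)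
  obtain ⟨XF, hXF⟩ := hF D' (hD1.trans hD')
  obtain ⟨XC, hC⟩ := close A (max (max DP DF) 1) D' hD1 hD'
  refine ⟨max (max XP XF) (max XC ⌈Real.exp 2⌉₊), ?_⟩
  intro X hX θ
  have hXP : XP ≤ X := (le_max_left _ _).trans ((le_max_left _ _).trans hX)
  have hXF' : XF ≤ X := (le_max_right _ _).trans ((le_max_left _ _).trans hX)
  have hXC : XC ≤ X := (le_max_left _ _).trans ((le_max_right _ _).trans hX)
  have hXe : ⌈Real.exp 2⌉₊ ≤ X := (le_max_right _ _).trans ((le_max_right _ _).trans hX)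
  have hXe' : Real.exp 2 ≤ (X : ℝ) := Nat.ceil_le.mp hXe
  have hX0 : (0 : ℝ) < X := lt_of_lt_of_le (Real.exp_pos 2) hXe'
  have hL : 2 ≤ Real.log (X : ℝ) := by
    rw [Real.le_log_iff_exp_le hX0]
    exact hXe'
  by_cases h : Ht ((Real.log X) ^ (max (max DP DF) 1)) X θ
  · exact hC X hXC θ h
  · have h1 : ¬ Ht ((Real.log X) ^ DP) X θ := fun h' =>
      h (Ht_mono (pow_le_pow_right₀ (by linarith) hDP) h')
    have h2 : ¬ Ht ((Real.log X) ^ DF) X θ := fun h' =>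
      h (Ht_mono (pow_le_pow_right₀ (by linarith) hDF) h')
    have h3 := hP X hXP θ h1
    have hw : ((wX D' X : ℕ) : ℝ) ≤ (Real.log X) ^ D' := Nat.floor_le (by positivity)
    have h4 := hXF X hXF' (wX D' X) hw θ h2
    have hLp : (0 : ℝ) < Real.log (X : ℝ) ^ A := by positivity
    have h5 : (X : ℝ) / Real.log (X : ℝ) ^ (A + 1) + (X : ℝ) / Real.log (X : ℝ) ^ (A + 1)
        ≤ X / Real.log (X : ℝ) ^ A := by
      rw [← add_div, div_le_div_iff₀ (by positivity) hLp, pow_succ]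
      have h6 : (X + X : ℝ) * Real.log (X : ℝ) ^ A = X * (Real.log (X : ℝ) ^ A * 2) := by ring
      rw [h6]
      apply mul_le_mul_of_nonneg_left _ hX0.le
      exact mul_le_mul_of_nonneg_left hL hLp.le
    calc ‖P1 X θ - F2 (wX D' X) X θ‖ ≤ ‖P1 X θ‖ + ‖F2 (wX D' X) X θ‖ := norm_sub_le _ _
      _ ≤ _ := (add_le_add h3 h4).trans h5

end Pool.MP_dd84fd_nt.E2
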